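import Mathlib
import Pool.Agent.Lib.MP_ec260d_ntG.CountG

/-!
# A direction that separates finitely many exponents
-/

open Set Filter Topology MeasureTheory
open scoped ENNReal

namespace Pool.Agent.Lib.MP_ec260d_ntK

open Pool.Agent.Lib.MP_ec260d_ntH Pool.Agent.Lib.MP_ec260d_ntG

theorem dirK (r J : ℕ) : ∃ C : ℝ, 1 ≤ C ∧ ∀ (F : Finset (Fin r → ℝ)) (σ : ℝ), F.card ≤ J → 0 < σ →
    (∀ b ∈ F, ∀ b' ∈ F, b ≠ b' → σ ≤ ∑ l, |b l - b' l|) →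
    ∃ ω : Fin r → ℝ, (∀ l, 1 ≤ ω l ∧ ω l ≤ 2) ∧ ∀ b ∈ F, ∀ b' ∈ F, b ≠ b' →
      σ / C ≤ |dt b ω - dt b' ω| := by
  classical
  set C : ℝ := 2 * J ^ 2 * r * 2 ^ r + 1 with hC
  have hC1 : 1 ≤ C := by
    have : (0 : ℝ) ≤ 2 * J ^ 2 * r * 2 ^ r := by positivity
    rw [hC]; linarith
  have hC0 : 0 < C := by linarith
  refine ⟨C, hC1, fun F σ hF hσ hsep => ?_⟩
  by_contra hcon
  push Not at hcon
  have hsub : bx r 1 2 ⊆ ⋃ z ∈ (F ×ˢ F).filter (fun z => z.1 ≠ z.2),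
      ({v : Fin r → ℝ | |0 + ∑ l, (z.1 l - z.2 l) * v l| < σ / C} ∩ bx r 1 2) := by
    intro ω hω
    have h1 : ∀ l, 1 ≤ ω l ∧ ω l ≤ 2 := fun l => hω l (mem_univ l)
    obtain ⟨b, hb, b', hb', hne, hlt⟩ := hcon ω h1
    rw [mem_iUnion₂]
    refine ⟨(b, b'), Finset.mem_filter.2 ⟨Finset.mem_product.2 ⟨hb, hb'⟩, hne⟩, ?_, hω⟩
    show |0 + ∑ l, (b l - b' l) * ω l| < σ / C
    have h2 : dt b ω - dt b' ω = ∑ l, (b l - b' l) * ω l := by
      rw [← dt_sub]; rfl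
    rw [zero_add, ← h2]
    exact hlt
  have hvol : volume (bx r 1 2) ≤ ∑ z ∈ (F ×ˢ F).filter (fun z => z.1 ≠ z.2),
      ENNReal.ofReal (2 * (σ / C) * (r / σ) * (2 - 1 + 1) ^ r) := by
    refine (measure_mono hsub).trans ((measure_biUnion_finset_le _ _).trans ?_)
    refine Finset.sum_le_sum fun z hz => ?_
    rw [Finset.mem_filter, Finset.mem_product] at hz
    exact slab r 0 (fun l => z.1 l - z.2 l) (by positivity) hσ (hsep _ hz.1.1 _ hz.1.2 hz.2) (by norm_num)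
  rw [bx_vol r (by norm_num), Finset.sum_const, nsmul_eq_mul] at hvol
  have h1 : ENNReal.ofReal ((2 - 1 : ℝ) ^ r) = 1 := by norm_num
  rw [h1, ← ENNReal.ofReal_natCast, ← ENNReal.ofReal_mul (Nat.cast_nonneg _)] at hvol
  have h2 : (((F ×ˢ F).filter (fun z => z.1 ≠ z.2)).card : ℝ) ≤ J ^ 2 := by
    have h3 : ((F ×ˢ F).filter (fun z => z.1 ≠ z.2)).card ≤ J ^ 2 := by
      refine (Finset.card_filter_le _ _).trans ?_
      rw [Finset.card_product, pow_two]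
      exact Nat.mul_le_mul hF hF
    exact_mod_cast h3
  have h3 : 2 * (σ / C) * (r / σ) * (2 - 1 + 1) ^ r = 2 * r * 2 ^ r / C := by
    field_simp
    norm_num
  rw [h3] at hvol
  have h4 : (((F ×ˢ F).filter (fun z => z.1 ≠ z.2)).card : ℝ) * (2 * r * 2 ^ r / C) < 1 := by
    calc _ ≤ (J : ℝ) ^ 2 * (2 * r * 2 ^ r / C) := mul_le_mul_of_nonneg_right h2 (by positivity)
      _ = (2 * J ^ 2 * r * 2 ^ r) / C := by ring
      _ < 1 := by rw [div_lt_one hC0, hC]; linarith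
  have h5 : ENNReal.ofReal ((((F ×ˢ F).filter (fun z => z.1 ≠ z.2)).card : ℝ) * (2 * r * 2 ^ r / C)) < 1 := by
    rw [← ENNReal.ofReal_one]
    exact (ENNReal.ofReal_lt_ofReal_iff one_pos).2 h4
  exact absurd hvol (not_le.2 h5)

end Pool.Agent.Lib.MP_ec260d_ntK
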