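import Mathlib
import Pool.Agent.Lib.MP_ec260d_ntU.Sub

/-!
# Sublevel sets of exponential sums with separated frequencies
-/

open Set Filter Topology

namespace Pool.Agent.Lib.MP_ec260d_ntK

open Pool.Agent.Lib.MP_ec260d_ntH Pool.Agent.Lib.MP_ec260d_ntU

theorem Cov.pieces {m np : ℕ} {l U : ℝ} (hnp : 0 < np) {Q : ℝ → Prop}
    (h : ∀ i < np, Cov m l {u | u ∈ Icc (U + i / np) (U + (i + 1) / np) ∧ Q u}) :
    Cov (np * m) l {u | u ∈ Icc U (U + 1) ∧ Q u} := by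
  have hnp0 : (0 : ℝ) < np := by exact_mod_cast hnp
  refine (Cov.iUnion _ np h).mono le_rfl le_rfl ?_
  rintro u ⟨hu, hlt⟩
  rcases lt_or_ge u (U + 1) with h2 | h2
  · have h3 : 0 ≤ (u - U) * np := mul_nonneg (by linarith [hu.1]) hnp0.le
    refine ⟨⌊(u - U) * np⌋₊, ?_, ?_, hlt⟩
    · rw [Nat.floor_lt h3]
      nlinarith
    · have h4 := Nat.floor_le h3
      have h5 := Nat.lt_floor_add_one ((u - U) * np)
      constructor
      · have h6 : (⌊(u - U) * np⌋₊ : ℝ) / np ≤ u - U := by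
          rw [div_le_iff₀ hnp0]; exact h4
        linarith
      · have h6 : u - U ≤ ((⌊(u - U) * np⌋₊ : ℝ) + 1) / np := by
          rw [le_div_iff₀ hnp0]; exact h5.le
        linarith
  · refine ⟨np - 1, by omega, ?_, hlt⟩
    have h3 : u = U + 1 := le_antisymm hu.2 h2
    have h4 : (((np - 1 : ℕ) : ℝ) + 1) = np := by
      rw [Nat.cast_sub hnp, Nat.cast_one, sub_add_cancel]
    constructor
    · rw [h3]
      have h5 : ((np - 1 : ℕ) : ℝ) / np ≤ 1 := by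
        rw [div_le_one hnp0]; exact_mod_cast Nat.sub_le _ _
      linarith
    · rw [h4, h3, div_self hnp0.ne']

variable {ι : Type} (F : Finset ι) (lam : ι → ℝ) (c : ι → ℂ)

/-- the derivatives of an exponential sum -/
noncomputable def FF (i : ℕ) (t : ℝ) : ℂ :=
  ∑ x ∈ F, c x * ((lam x ^ i * Real.exp (lam x * t) : ℝ) : ℂ)

theorem FF_deriv (i : ℕ) (t : ℝ) : HasDerivAt (FF F lam c i) (FF F lam c (i + 1) t) t := by
  unfold FF
  refine HasDerivAt.fun_sum fun x _ => ?_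
  have h1 : HasDerivAt (fun t : ℝ => lam x ^ i * Real.exp (lam x * t))
      (lam x ^ (i + 1) * Real.exp (lam x * t)) t := by
    have h2 : HasDerivAt (fun t : ℝ => Real.exp (lam x * t)) (Real.exp (lam x * t) * lam x) t := by
      have h3 : HasDerivAt (fun t : ℝ => lam x * t) (lam x) t := by
        simpa using (hasDerivAt_id t).const_mul (lam x)
      exact h3.exp
    refine (h2.const_mul (lam x ^ i)).congr_deriv ?_
    ring
  exact (h1.ofReal_comp).const_mul (c x)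

theorem FF_bound {Λ : ℝ} (hΛ : 1 ≤ Λ) (hlam : ∀ x ∈ F, 0 ≤ lam x ∧ lam x ≤ Λ) {i J : ℕ} (hi : i ≤ J)
    {t : ℝ} (ht : t ∈ Icc (0 : ℝ) 1) :
    ‖FF F lam c i t‖ ≤ Λ ^ J * Real.exp Λ * ∑ x ∈ F, ‖c x‖ := by
  unfold FF
  refine (norm_sum_le _ _).trans ?_
  rw [Finset.mul_sum]
  refine Finset.sum_le_sum fun x hx => ?_
  obtain ⟨h0, h1⟩ := hlam x hx
  rw [norm_mul, Complex.norm_real, Real.norm_eq_abs, abs_of_nonneg (by positivity), mul_comm]
  refine mul_le_mul_of_nonneg_right ?_ (norm_nonneg _)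
  have h2 : lam x ^ i ≤ Λ ^ J := (pow_le_pow_left₀ h0 h1 i).trans (pow_le_pow_right₀ hΛ hi)
  have h3 : Real.exp (lam x * t) ≤ Real.exp Λ := by
    refine Real.exp_le_exp.2 ?_
    calc lam x * t ≤ Λ * 1 := mul_le_mul h1 ht.2 ht.1 (by linarith)
      _ = Λ := mul_one _
  exact mul_le_mul h2 h3 (Real.exp_pos _).le (by positivity)

theorem FF_prod {Λ δ t : ℝ} (hΛ : 0 ≤ Λ) (hδ : 0 ≤ δ) {m : ℕ} (h : ∀ i < m, ‖FF F lam c i t‖ ≤ δ) [DecidableEq ι] :
    ∀ (T : Finset ι), (∀ x ∈ T, 0 ≤ lam x ∧ lam x ≤ Λ) → ∀ i, i + T.card < m →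
      ‖∑ x ∈ F, c x * ((lam x ^ i * Real.exp (lam x * t) * ∏ z ∈ T, (lam x - lam z) : ℝ) : ℂ)‖ ≤
        (1 + Λ) ^ T.card * δ := by
  intro T
  induction T using Finset.induction_on with
  | empty =>
    intro _ i hi
    have h1 := h i (by simpa using hi)
    unfold FF at h1
    simpa using h1
  | insert z T hz ih =>
    intro hT i hi
    rw [Finset.card_insert_of_notMem hz] at hi ⊢
    have hT' : ∀ x ∈ T, 0 ≤ lam x ∧ lam x ≤ Λ := fun x hx => hT x (Finset.mem_insert_of_mem hx)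
    obtain ⟨hz0, hz1⟩ := hT z (Finset.mem_insert_self _ _)
    have h1 := ih hT' (i + 1) (by omega)
    have h2 := ih hT' i (by omega)
    have h3 : ∑ x ∈ F, c x * ((lam x ^ i * Real.exp (lam x * t) *
          ∏ w ∈ insert z T, (lam x - lam w) : ℝ) : ℂ) =
        ∑ x ∈ F, c x * ((lam x ^ (i + 1) * Real.exp (lam x * t) * ∏ w ∈ T, (lam x - lam w) : ℝ) : ℂ) -
        ((lam z : ℝ) : ℂ) *
          ∑ x ∈ F, c x * ((lam x ^ i * Real.exp (lam x * t) * ∏ w ∈ T, (lam x - lam w) : ℝ) : ℂ) := by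
      rw [Finset.mul_sum, ← Finset.sum_sub_distrib]
      refine Finset.sum_congr rfl fun x _ => ?_
      rw [Finset.prod_insert hz]
      push_cast
      ring
    rw [h3]
    refine (norm_sub_le _ _).trans ?_
    rw [norm_mul, Complex.norm_real, Real.norm_eq_abs, abs_of_nonneg hz0]
    have h4 : 0 ≤ (1 + Λ) ^ T.card * δ := by positivity
    have h5 := mul_le_mul hz1 h2 (norm_nonneg _) hΛ
    calc _ ≤ (1 + Λ) ^ T.card * δ + Λ * ((1 + Λ) ^ T.card * δ) := add_le_add h1 h5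
      _ = _ := by rw [pow_succ]; ring

theorem FF_low {Λ σ t : ℝ} (hΛ : 1 ≤ Λ) (hlam : ∀ x ∈ F, 0 ≤ lam x ∧ lam x ≤ Λ) {J : ℕ}
    (hJ : F.card ≤ J) (hσ : 0 < σ) (hσ1 : σ ≤ 1) (hsep : ∀ x ∈ F, ∀ y ∈ F, x ≠ y → σ ≤ |lam x - lam y|)
    (ht : t ∈ Icc (0 : ℝ) 1) (hpos : 0 < ∑ x ∈ F, ‖c x‖) :
    ∃ j < J, σ ^ J * (∑ x ∈ F, ‖c x‖) / (2 * J * (1 + Λ) ^ J) ≤ ‖FF F lam c j t‖ := by
  classical
  have hne : F.Nonempty := by
    by_contra hcon
    rw [Finset.not_nonempty_iff_eq_empty] at hcon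
    rw [hcon] at hpos
    simp at hpos
  have hcard : 0 < F.card := hne.card_pos
  have hJ0 : 0 < J := by omega
  have hJ0' : (0 : ℝ) < J := by exact_mod_cast hJ0
  obtain ⟨x₀, hx₀, hmax⟩ := Finset.exists_max_image F (fun x => ‖c x‖) hne
  have hsum : ∑ x ∈ F, ‖c x‖ ≤ J * ‖c x₀‖ := by
    calc ∑ x ∈ F, ‖c x‖ ≤ ∑ _x ∈ F, ‖c x₀‖ := Finset.sum_le_sum fun x hx => hmax x hx
      _ = F.card * ‖c x₀‖ := by rw [Finset.sum_const, nsmul_eq_mul]
      _ ≤ _ := mul_le_mul_of_nonneg_right (by exact_mod_cast hJ) (norm_nonneg _)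
  by_contra hcon
  push Not at hcon
  set δ : ℝ := σ ^ J * (∑ x ∈ F, ‖c x‖) / (2 * J * (1 + Λ) ^ J) with hδ
  have hδ0 : 0 < δ := by positivity
  have h1 := FF_prod F lam c (by linarith) hδ0.le (t := t) (m := J) (fun i hi => (hcon i hi).le) (F.erase x₀)
    (fun x hx => hlam x (Finset.mem_of_mem_erase hx)) 0 (by
      rw [Finset.card_erase_of_mem hx₀]; omega)
  rw [Finset.sum_eq_single x₀ (fun x hx hxx => by
    have h2 : ∏ z ∈ F.erase x₀, (lam x - lam z) = 0 :=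
      Finset.prod_eq_zero (Finset.mem_erase.2 ⟨hxx, hx⟩) (sub_self _)
    rw [h2]; simp) (fun h => absurd hx₀ h)] at h1
  rw [norm_mul, Complex.norm_real, Real.norm_eq_abs, pow_zero, one_mul, abs_mul,
    abs_of_pos (Real.exp_pos _), Finset.abs_prod] at h1
  have h2 : σ ^ (F.erase x₀).card ≤ ∏ z ∈ F.erase x₀, |lam x₀ - lam z| := by
    rw [← Finset.prod_const]
    exact Finset.prod_le_prod (fun _ _ => hσ.le) fun z hz =>
      hsep x₀ hx₀ z (Finset.mem_of_mem_erase hz) (Finset.ne_of_mem_erase hz).symm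
  have h3 : σ ^ J ≤ σ ^ (F.erase x₀).card :=
    pow_le_pow_of_le_one hσ.le hσ1 (by rw [Finset.card_erase_of_mem hx₀]; omega)
  have h4 : 1 ≤ Real.exp (lam x₀ * t) :=
    Real.one_le_exp (mul_nonneg (hlam x₀ hx₀).1 ht.1)
  have h5 : ‖c x₀‖ * σ ^ J ≤ (1 + Λ) ^ (F.erase x₀).card * δ := by
    refine le_trans ?_ h1
    refine mul_le_mul_of_nonneg_left ?_ (norm_nonneg _)
    calc σ ^ J = 1 * σ ^ J := (one_mul _).symm
      _ ≤ _ := mul_le_mul h4 (h3.trans h2) (by positivity) (Real.exp_pos _).le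
  have h6 : (1 + Λ) ^ (F.erase x₀).card * δ ≤ (1 + Λ) ^ J * δ := by
    refine mul_le_mul_of_nonneg_right (pow_le_pow_right₀ (by linarith) ?_) hδ0.le
    rw [Finset.card_erase_of_mem hx₀]; omega
  have h7 : (1 + Λ) ^ J * δ = σ ^ J * (∑ x ∈ F, ‖c x‖) / (2 * J) := by
    rw [hδ]; field_simp
  have h8 : σ ^ J * (∑ x ∈ F, ‖c x‖) / (2 * J) ≤ σ ^ J * (J * ‖c x₀‖) / (2 * J) := by gcongr
  have h9 : σ ^ J * (J * ‖c x₀‖) / (2 * J) = (‖c x₀‖ * σ ^ J) / 2 := by field_simp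
  have h10 : 0 < ‖c x₀‖ := by
    by_contra hc0
    push Not at hc0
    nlinarith
  have h11 : 0 < ‖c x₀‖ * σ ^ J := by positivity
  linarith

theorem expS (J : ℕ) (Λ : ℝ) (hΛ : 1 ≤ Λ) : ∃ C : ℝ, 1 ≤ C ∧ ∀ {ι : Type} (F : Finset ι) (lam : ι → ℝ)
    (c : ι → ℂ) (σ : ℝ), F.card ≤ J → 0 < σ → σ ≤ 1 → (∀ x ∈ F, 0 ≤ lam x ∧ lam x ≤ Λ) →
    (∀ x ∈ F, ∀ y ∈ F, x ≠ y → σ ≤ |lam x - lam y|) → ∀ np : ℕ, 0 < np → C ≤ np * σ ^ J →
    ∀ η l : ℝ, 0 < η → 0 < l → l ≤ 1 → C * η ≤ σ ^ J * l ^ J →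
      Cov (np * 2 ^ J) l {t | t ∈ Icc (0 : ℝ) 1 ∧
        ‖∑ x ∈ F, c x * ((Real.exp (lam x * t) : ℝ) : ℂ)‖ < η * ∑ x ∈ F, ‖c x‖ * Real.exp (lam x * t)} := by
  set W : ℝ := 8 * J * (1 + Λ) ^ J with hW
  have hW0 : 0 ≤ W := by positivity
  set C : ℝ := 1 + W * (Λ ^ J * Real.exp Λ) + W * (2 ^ J * Real.exp Λ) with hC
  have hexp := Real.exp_pos Λ
  have hp1 : 0 ≤ W * (Λ ^ J * Real.exp Λ) := by positivity
  have hp2 : 0 ≤ W * (2 ^ J * Real.exp Λ) := by positivity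
  refine ⟨C, by rw [hC]; linarith, ?_⟩
  intro ι F lam c σ hcard hσ hσ1 hlam hsep np hnp hCnp η l hη hl hl1 hηl
  have hnp0 : (0 : ℝ) < np := by exact_mod_cast hnp
  set Sc := ∑ x ∈ F, ‖c x‖ with hSc
  have hSc0 : 0 ≤ Sc := Finset.sum_nonneg fun _ _ => norm_nonneg _
  rcases hSc0.eq_or_lt with h0 | hpos
  · refine (Cov.empty l).mono (Nat.zero_le _) le_rfl ?_
    rintro t ⟨_, hlt⟩
    exfalso
    have h1 : ∀ x ∈ F, ‖c x‖ = 0 := (Finset.sum_eq_zero_iff_of_nonneg fun _ _ => norm_nonneg _).1 h0.symm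
    have h2 : ∑ x ∈ F, ‖c x‖ * Real.exp (lam x * t) = 0 :=
      Finset.sum_eq_zero fun x hx => by rw [h1 x hx, zero_mul]
    rw [h2, mul_zero] at hlt
    exact absurd hlt (not_lt.2 (norm_nonneg _))
  have hlJ : 0 < σ ^ J * l ^ J := by positivity
  have hF0 : 0 < F.card := by
    rw [Finset.card_pos]
    by_contra hcon
    rw [Finset.not_nonempty_iff_eq_empty] at hcon
    rw [hSc, hcon] at hpos
    simp at hpos
  have hJ0 : (0 : ℝ) < J := by exact_mod_cast (by omega : 0 < J)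
  have hW0' : 0 < W := by positivity
  set δ : ℝ := σ ^ J * Sc / (2 * J * (1 + Λ) ^ J) with hδ
  have hδ4 : δ / 4 = σ ^ J * Sc / W := by rw [hδ, hW]; field_simp; norm_num
  have hfin := Cov.pieces (m := 2 ^ J) (l := l) (U := 0) hnp
    (Q := fun t => ‖∑ x ∈ F, c x * ((Real.exp (lam x * t) : ℝ) : ℂ)‖ <
      η * ∑ x ∈ F, ‖c x‖ * Real.exp (lam x * t)) (fun i hi => ?_)
  · refine hfin.mono le_rfl le_rfl ?_
    rintro t ⟨ht, hlt⟩
    exact ⟨by rwa [zero_add], hlt⟩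
  · set p : ℝ := 0 + i / np with hp
    set q : ℝ := 0 + (i + 1) / np with hq
    have hi0 : (0 : ℝ) ≤ i := Nat.cast_nonneg _
    have hi1 : (i : ℝ) + 1 ≤ np := by exact_mod_cast hi
    have hp0 : 0 ≤ p := by rw [hp]; positivity
    have hqp : q - p = 1 / np := by rw [hp, hq]; ring
    have hq1 : q ≤ 1 := by
      rw [hq, zero_add, div_le_one hnp0]; exact hi1
    have hpq : p ≤ q := by
      have : 0 < q - p := by rw [hqp]; positivity
      linarith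
    obtain ⟨j, hj, hlow⟩ := FF_low F lam c hΛ hlam hcard hσ hσ1 hsep (t := p) ⟨hp0, by linarith⟩ hpos
    have h1 := sub_cplx J (FF F lam c) p q l (η * (Real.exp Λ * Sc)) (Λ ^ J * Real.exp Λ * Sc) δ hl
      (by linarith) (by positivity) (FF_deriv F lam c) hpq
      (fun i hi u hu => FF_bound F lam c hΛ hlam hi ⟨by linarith [hu.1], by linarith [hu.2]⟩) (by
        rw [hqp, hδ4, mul_one_div, div_le_div_iff₀ hnp0 hW0']
        have h2 : W * (Λ ^ J * Real.exp Λ) ≤ np * σ ^ J := by linarith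
        calc Λ ^ J * Real.exp Λ * Sc * W = (W * (Λ ^ J * Real.exp Λ)) * Sc := by ring
          _ ≤ (np * σ ^ J) * Sc := mul_le_mul_of_nonneg_right h2 hSc0
          _ = _ := by ring) hj hlow (by
        rw [hδ4, lt_div_iff₀ hW0']
        have h2 : W * (2 ^ J * Real.exp Λ) * η < σ ^ J * l ^ J := by
          refine lt_of_lt_of_le ?_ hηl
          refine mul_lt_mul_of_pos_right ?_ hη
          rw [hC]; linarith
        have h3 : 0 < l ^ J := by positivity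
        calc η * (Real.exp Λ * Sc) * (2 / l) ^ J * W =
              (W * (2 ^ J * Real.exp Λ) * η) * Sc / l ^ J := by rw [div_pow]; ring
          _ < (σ ^ J * l ^ J) * Sc / l ^ J := by gcongr
          _ = σ ^ J * Sc := by field_simp)
    refine h1.mono le_rfl le_rfl ?_
    rintro t ⟨ht, hlt⟩
    refine ⟨ht, ?_⟩
    have ht0 : 0 ≤ t := hp0.trans ht.1
    have ht1 : t ≤ 1 := ht.2.trans hq1
    have h2 : FF F lam c 0 t = ∑ x ∈ F, c x * ((Real.exp (lam x * t) : ℝ) : ℂ) := by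
      unfold FF
      refine Finset.sum_congr rfl fun x _ => ?_
      rw [pow_zero, one_mul]
    rw [h2]
    refine hlt.le.trans (mul_le_mul_of_nonneg_left ?_ hη.le)
    rw [hSc, Finset.mul_sum]
    refine Finset.sum_le_sum fun x hx => ?_
    rw [mul_comm]
    refine mul_le_mul_of_nonneg_right (Real.exp_le_exp.2 ?_) (norm_nonneg _)
    calc lam x * t ≤ Λ * 1 := mul_le_mul (hlam x hx).2 ht1 ht0 (by linarith)
      _ = Λ := mul_one _

end Pool.Agent.Lib.MP_ec260d_ntK
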