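import Mathlib
import Pool.Agent.Lib.MP_ec260d_ntK.ExpS
import Pool.Agent.Lib.MP_ec260d_ntK.DirK

/-!
# Generalised polynomials: few terms, coefficients and exponents from given finite sets
-/

open Set Filter Topology MeasureTheory
open scoped ENNReal

namespace Pool.Agent.Lib.MP_ec260d_ntK

open Pool.Agent.Lib.MP_ec260d_ntH Pool.Agent.Lib.MP_ec260d_ntG

section GP

open Classical in
/-- the finitely supported functions with at most `J` values, taken from `A` at points of `B` -/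
noncomputable def GP {X R : Type} [AddZeroClass R] (B : Finset X) (A : Finset R) : ℕ → Finset (X →₀ R)
  | 0 => {0}
  | J + 1 => GP B A J ∪ ((B ×ˢ A) ×ˢ GP B A J).image (fun z => Finsupp.single z.1.1 z.1.2 + z.2)

theorem GP_card {X R : Type} [AddZeroClass R] (B : Finset X) (A : Finset R) (J : ℕ) :
    (GP B A J).card ≤ (B.card * A.card + 1) ^ J := by
  classical
  induction J with
  | zero => simp [GP]
  | succ J ih =>
    have h1 : (GP B A (J + 1)).card ≤ (GP B A J).card + (B.card * A.card) * (GP B A J).card := by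
      rw [GP]
      refine (Finset.card_union_le _ _).trans ?_
      refine Nat.add_le_add le_rfl (Finset.card_image_le.trans ?_)
      rw [Finset.card_product, Finset.card_product]
    calc (GP B A (J + 1)).card ≤ (GP B A J).card + (B.card * A.card) * (GP B A J).card := h1
      _ = (B.card * A.card + 1) * (GP B A J).card := by ring
      _ ≤ (B.card * A.card + 1) * (B.card * A.card + 1) ^ J := Nat.mul_le_mul le_rfl ih
      _ = _ := by rw [pow_succ]; ring

theorem GP_mem {X R : Type} [AddZeroClass R] (B : Finset X) (A : Finset R) (J : ℕ) :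
    ∀ y : X →₀ R, y.support.card ≤ J → (∀ b ∈ y.support, b ∈ B ∧ y b ∈ A) → y ∈ GP B A J := by
  classical
  induction J with
  | zero =>
    intro y hy _
    have h1 : y.support = ∅ := Finset.card_eq_zero.1 (Nat.le_zero.1 hy)
    rw [Finsupp.support_eq_empty] at h1
    rw [h1]
    simp [GP]
  | succ J ih =>
    intro y hy hyA
    rw [GP, Finset.mem_union]
    rcases Nat.lt_or_ge J y.support.card with h1 | h1
    · right
      have h2 : y.support.Nonempty := Finset.card_pos.1 (by omega)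
      obtain ⟨b, hb⟩ := h2
      rw [Finset.mem_image]
      refine ⟨((b, y b), y.erase b), ?_, Finsupp.single_add_erase b y⟩
      rw [Finset.mem_product, Finset.mem_product]
      refine ⟨hyA b hb, ih _ ?_ ?_⟩
      · rw [Finsupp.support_erase, Finset.card_erase_of_mem hb]
        omega
      · intro b' hb'
        rw [Finsupp.support_erase] at hb'
        have h3 := Finset.mem_of_mem_erase hb'
        rw [Finsupp.erase_ne (Finset.ne_of_mem_erase hb')]
        exact hyA b' h3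
    · left
      exact ih y h1 hyA

end GP

variable {r : ℕ}

/-- the value of a generalised polynomial at `exp u` -/
noncomputable def ev (y : (Fin r → ℝ) →₀ ℂ) (u : Fin r → ℝ) : ℂ :=
  ∑ b ∈ y.support, y b * ((Real.exp (dt b u) : ℝ) : ℂ)

/-- the sum of the absolute values of the terms -/
noncomputable def nv (y : (Fin r → ℝ) →₀ ℂ) (u : Fin r → ℝ) : ℝ :=
  ∑ b ∈ y.support, ‖y b‖ * Real.exp (dt b u)

theorem dt_cont (b : Fin r → ℝ) : Continuous (dt b) := by
  unfold dt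
  fun_prop

theorem ev_cont (y : (Fin r → ℝ) →₀ ℂ) : Continuous (ev y) := by
  unfold ev
  refine continuous_finsetSum _ fun b _ => continuous_const.mul ?_
  exact Complex.continuous_ofReal.comp (Real.continuous_exp.comp (dt_cont b))

theorem nv_cont (y : (Fin r → ℝ) →₀ ℂ) : Continuous (nv y) := by
  unfold nv
  refine continuous_finsetSum _ fun b _ => continuous_const.mul ?_
  exact Real.continuous_exp.comp (dt_cont b)

theorem nv_nonneg (y : (Fin r → ℝ) →₀ ℂ) (u : Fin r → ℝ) : 0 ≤ nv y u :=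
  Finset.sum_nonneg fun _ _ => mul_nonneg (norm_nonneg _) (Real.exp_pos _).le

/-- the set of cancellation -/
def CE (y : (Fin r → ℝ) →₀ ℂ) (η : ℝ) : Set (Fin r → ℝ) := {u | ‖ev y u‖ < η * nv y u}

theorem CE_meas (y : (Fin r → ℝ) →₀ ℂ) (η : ℝ) : MeasurableSet (CE y η) :=
  (isOpen_lt (continuous_norm.comp (ev_cont y)) (continuous_const.mul (nv_cont y))).measurableSet

theorem dt_mono {b u v : Fin r → ℝ} {β ε : ℝ} (hb : ∀ l, 0 ≤ b l ∧ b l ≤ β) (hε : 0 ≤ ε)
    (huv : ∀ l, u l ≤ v l ∧ v l ≤ u l + ε) : dt b u ≤ dt b v ∧ dt b v ≤ dt b u + r * (β * ε) := by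
  constructor
  · exact Finset.sum_le_sum fun l _ => mul_le_mul_of_nonneg_left (huv l).1 (hb l).1
  · unfold dt
    have h1 : ∑ l, b l * v l ≤ ∑ l : Fin r, (b l * u l + β * ε) := by
      refine Finset.sum_le_sum fun l _ => ?_
      have h3 : b l * v l ≤ b l * (u l + ε) := mul_le_mul_of_nonneg_left (huv l).2 (hb l).1
      have h4 : b l * ε ≤ β * ε := mul_le_mul_of_nonneg_right (hb l).2 hε
      linarith
    refine h1.trans (le_of_eq ?_)
    rw [Finset.sum_add_distrib, Finset.sum_const, Finset.card_univ, Fintype.card_fin, nsmul_eq_mul]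

/-- the change of a generalised polynomial in a small cell -/
theorem ev_cell {y : (Fin r → ℝ) →₀ ℂ} {β ε τ : ℝ} (hy : ∀ b ∈ y.support, ∀ l, 0 ≤ b l ∧ b l ≤ β)
    (hε : 0 ≤ ε) (hG : Real.exp (r * (β * ε)) ≤ 1 + τ) {u v : Fin r → ℝ}
    (huv : ∀ l, u l ≤ v l ∧ v l ≤ u l + ε) :
    ‖ev y v - ev y u‖ ≤ τ * nv y u ∧ nv y u ≤ nv y v ∧ nv y v ≤ (1 + τ) * nv y u := by
  have h0 : ∀ b ∈ y.support, Real.exp (dt b u) ≤ Real.exp (dt b v) ∧
      Real.exp (dt b v) ≤ (1 + τ) * Real.exp (dt b u) := by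
    intro b hb
    obtain ⟨h1, h2⟩ := dt_mono (hy b hb) hε huv
    refine ⟨Real.exp_le_exp.2 h1, ?_⟩
    calc Real.exp (dt b v) ≤ Real.exp (dt b u + r * (β * ε)) := Real.exp_le_exp.2 h2
      _ = Real.exp (r * (β * ε)) * Real.exp (dt b u) := by rw [Real.exp_add]; ring
      _ ≤ _ := mul_le_mul_of_nonneg_right hG (Real.exp_pos _).le
  refine ⟨?_, ?_, ?_⟩
  · have h1 : ev y v - ev y u = ∑ b ∈ y.support, y b *
        ((Real.exp (dt b v) - Real.exp (dt b u) : ℝ) : ℂ) := by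
      unfold ev
      rw [← Finset.sum_sub_distrib]
      refine Finset.sum_congr rfl fun b _ => ?_
      push_cast
      ring
    rw [h1]
    refine (norm_sum_le _ _).trans ?_
    unfold nv
    rw [Finset.mul_sum]
    refine Finset.sum_le_sum fun b hb => ?_
    obtain ⟨h2, h3⟩ := h0 b hb
    rw [norm_mul, Complex.norm_real, Real.norm_eq_abs, abs_of_nonneg (by linarith)]
    calc ‖y b‖ * (Real.exp (dt b v) - Real.exp (dt b u)) ≤ ‖y b‖ * (τ * Real.exp (dt b u)) :=
          mul_le_mul_of_nonneg_left (by linarith) (norm_nonneg _)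
      _ = _ := by ring
  · exact Finset.sum_le_sum fun b hb => mul_le_mul_of_nonneg_left (h0 b hb).1 (norm_nonneg _)
  · unfold nv
    rw [Finset.mul_sum]
    refine Finset.sum_le_sum fun b hb => ?_
    calc ‖y b‖ * Real.exp (dt b v) ≤ ‖y b‖ * ((1 + τ) * Real.exp (dt b u)) :=
          mul_le_mul_of_nonneg_left (h0 b hb).2 (norm_nonneg _)
      _ = _ := by ring

theorem CE_cell {y : (Fin r → ℝ) →₀ ℂ} {β ε η : ℝ} (hy : ∀ b ∈ y.support, ∀ l, 0 ≤ b l ∧ b l ≤ β)
    (hε : 0 ≤ ε) (hη : 0 ≤ η) (hG : Real.exp (r * (β * ε)) ≤ 1 + η) {u v : Fin r → ℝ}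
    (huv : ∀ l, u l ≤ v l ∧ v l ≤ u l + ε) (h : u ∈ CE y η) : v ∈ CE y (2 * η) := by
  obtain ⟨h1, h2, -⟩ := ev_cell hy hε hG huv
  have h3 : ‖ev y v‖ ≤ ‖ev y v - ev y u‖ + ‖ev y u‖ := by
    have := norm_add_le (ev y v - ev y u) (ev y u)
    rwa [sub_add_cancel] at this
  have h4 : ‖ev y u‖ < η * nv y u := h
  have h5 : η * nv y u ≤ η * nv y v := mul_le_mul_of_nonneg_left h2 hη
  show ‖ev y v‖ < 2 * η * nv y v
  linarith

/-- the cover along a line -/
theorem CE_line (r J : ℕ) (β : ℝ) (hβ : 1 ≤ β) : ∃ C : ℝ, 1 ≤ C ∧ ∀ (y : (Fin r → ℝ) →₀ ℂ) (σ : ℝ),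
    y.support.card ≤ J → 0 < σ → σ ≤ 1 → (∀ b ∈ y.support, ∀ l, 0 ≤ b l ∧ b l ≤ β) →
    (∀ b ∈ y.support, ∀ b' ∈ y.support, b ≠ b' → σ ≤ ∑ l, |b l - b' l|) →
    ∃ ω : Fin r → ℝ, (∀ l, 1 ≤ ω l ∧ ω l ≤ 2) ∧ ∀ np : ℕ, 0 < np → C ≤ np * σ ^ J →
      ∀ η l : ℝ, 0 < η → 0 < l → l ≤ 1 → C * η ≤ σ ^ J * l ^ J → ∀ v : Fin r → ℝ,
        Cov (np * 2 ^ J) l {t | t ∈ Icc (0 : ℝ) 1 ∧ v + t • ω ∈ CE y η} := by
  have hβ0 : 0 ≤ β := by linarith
  obtain ⟨C₁, hC₁, hdir⟩ := dirK r J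
  obtain ⟨C₂, hC₂, hexp⟩ := expS J (2 * r * β + 1) (by
    have : 0 ≤ 2 * r * β := by positivity
    linarith)
  have hC₁J : 1 ≤ C₁ ^ J := one_le_pow₀ hC₁
  refine ⟨C₂ * C₁ ^ J, one_le_mul_of_one_le_of_one_le hC₂ hC₁J, fun y σ hcard hσ hσ1 hy hsep => ?_⟩
  have hC₁0 : 0 < C₁ := by linarith
  obtain ⟨ω, hω, hωsep⟩ := hdir y.support σ hcard hσ hsep
  refine ⟨ω, hω, fun np hnp hCnp η l hη hl hl1 hηl v => ?_⟩
  have hJ : (σ / C₁) ^ J = σ ^ J / C₁ ^ J := div_pow _ _ _
  have h1 := hexp y.support (fun b => dt b ω) (fun b => y b * ((Real.exp (dt b v) : ℝ) : ℂ)) (σ / C₁)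
    hcard (by positivity) ((div_le_one hC₁0).2 (by linarith)) (fun b hb => by
      constructor
      · exact Finset.sum_nonneg fun l _ => mul_nonneg (hy b hb l).1 (by linarith [(hω l).1])
      · have h2 : dt b ω ≤ ∑ _l : Fin r, β * 2 := by
          refine Finset.sum_le_sum fun l _ => ?_
          exact mul_le_mul (hy b hb l).2 (hω l).2 (by linarith [(hω l).1]) hβ0
        rw [Finset.sum_const, Finset.card_univ, Fintype.card_fin, nsmul_eq_mul] at h2
        linarith) hωsep np hnp (by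
        rw [hJ, mul_div_assoc', le_div_iff₀ (by positivity)]
        exact hCnp) η l hη hl hl1 (by
        rw [hJ, div_mul_eq_mul_div, le_div_iff₀ (by positivity)]
        linarith)
  refine h1.mono le_rfl le_rfl ?_
  rintro t ⟨ht, hlt⟩
  refine ⟨ht, ?_⟩
  have e0 : ∀ b : Fin r → ℝ, Real.exp (dt b (v + t • ω)) = Real.exp (dt b v) * Real.exp (dt b ω * t) := by
    intro b
    rw [dt_add, dt_smul, Real.exp_add]
    congr 2
    ring
  have e1 : ∑ b ∈ y.support, (y b * ((Real.exp (dt b v) : ℝ) : ℂ)) * ((Real.exp (dt b ω * t) : ℝ) : ℂ) =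
      ev y (v + t • ω) := by
    unfold ev
    refine Finset.sum_congr rfl fun b _ => ?_
    rw [e0]
    push_cast
    ring
  have e2 : ∑ b ∈ y.support, ‖y b * ((Real.exp (dt b v) : ℝ) : ℂ)‖ * Real.exp (dt b ω * t) =
      nv y (v + t • ω) := by
    unfold nv
    refine Finset.sum_congr rfl fun b _ => ?_
    rw [e0, norm_mul, Complex.norm_real, Real.norm_eq_abs, abs_of_pos (Real.exp_pos _)]
    ring
  rw [e1, e2]
  exact hlt

end Pool.Agent.Lib.MP_ec260d_ntK
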