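import Mathlib
import Pool.Agent.Lib.MP_ec260d_ntK.GPK
import Pool.Agent.Lib.MP_ec260d_ntG.NumG

/-!
# Counting by cells; generalised polynomials rarely have cancellation
-/

open Set Filter Topology MeasureTheory
open scoped ENNReal

namespace Pool.Agent.Lib.MP_ec260d_ntK

open Pool.Agent.Lib.MP_ec260d_ntH Pool.Agent.Lib.MP_ec260d_ntG

theorem countK {r N : ℕ} (hN : 1 ≤ N) {κ : Type} (I : Finset κ) (E : κ → Set (Fin r → ℝ))
    (hE : ∀ i ∈ I, MeasurableSet (E i)) (ω : κ → Fin r → ℝ) (hω : ∀ i ∈ I, ∀ l, 0 ≤ ω i l ∧ ω i l ≤ 2)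
    (m : ℕ) (l₀ : ℝ) (hl₀ : 0 ≤ l₀) (hlog : 12 ≤ Real.log N)
    (hcov : ∀ i ∈ I, ∀ v : Fin r → ℝ, Cov m l₀ {t : ℝ | t ∈ Icc (0 : ℝ) 1 ∧ v + t • ω i ∈ E i})
    (F : Finset (Fin r → ℕ)) (hF : ∀ n ∈ F, (∀ l, 1 ≤ n l ∧ n l ≤ N) ∧ ∀ l, (N : ℝ) ^ ((1 : ℝ) / 2) < n l)
    (hcell : ∀ n ∈ F, ∃ i ∈ I, ∀ u : Fin r → ℝ,
      (∀ l, Real.log (n l) ≤ u l ∧ u l ≤ Real.log (n l) + (N : ℝ) ^ (-((1 : ℝ) / 2))) → u ∈ E i) :
    (F.card : ℝ) ≤ (2 * (N : ℝ)) ^ r * ((I.card : ℝ) * (m * l₀) * (2 * Real.log N) ^ r) := by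
  classical
  have hNpos : (0 : ℝ) < N := by exact_mod_cast (by omega : 0 < N)
  set L := Real.log N with hL
  have hsN : 0 < (N : ℝ) ^ ((1 : ℝ) / 2) := Real.rpow_pos_of_pos hNpos _
  have hone : ∀ i ∈ I, volume (E i ∩ bx r (L / 2) (L + 1)) ≤
      ENNReal.ofReal (m * l₀) * ENNReal.ofReal ((2 * L) ^ r) := by
    intro i hi
    have h1 := ton (Box := bx r (L / 2) (L + 1)) (Box' := bx r (L / 2 - 2) (L + 1)) (Z := ∅) (hE i hi)
      (bx_meas r (L / 2 - 2) (L + 1)) MeasurableSet.empty (ω i) (by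
        intro u hu t ht l _
        have h1 := hu l (mem_univ l)
        have h2 : (u - t • ω i) l = u l - t * ω i l := by simp
        have h3 : 0 ≤ t * ω i l := mul_nonneg ht.1 (hω i hi l).1
        have h4 : t * ω i l ≤ 2 := by
          have h5 : t * ω i l ≤ 1 * ω i l := mul_le_mul_of_nonneg_right ht.2 (hω i hi l).1
          linarith [(hω i hi l).2]
        show L / 2 - 2 ≤ (u - t • ω i) l ∧ (u - t • ω i) l ≤ L + 1
        rw [h2]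
        exact ⟨by linarith [h1.1], by linarith [h1.2]⟩) (ENNReal.ofReal (m * l₀))
      (fun v _ _ => cov_measure (hcov i hi v))
    rw [Set.empty_inter, measure_empty, add_zero, bx_vol r (by linarith)] at h1
    refine h1.trans (mul_le_mul' le_rfl (ENNReal.ofReal_le_ofReal ?_))
    exact pow_le_pow_left₀ (by linarith) (by linarith) _
  have hcells := cells r F N (fun n hn => (hF n hn).1)
    ((⋃ i ∈ I, E i) ∩ bx r (L / 2) (L + 1)) (by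
      intro n hn u hu
      obtain ⟨hn1, hn2⟩ := hF n hn
      obtain ⟨i, hi, hlt⟩ := hcell n hn
      have hnl : ∀ l, (0 : ℝ) < n l := fun l => hsN.trans (hn2 l)
      have hstep : ∀ l, u l ≤ Real.log (n l) + (N : ℝ) ^ (-((1 : ℝ) / 2)) := by
        intro l
        have h1 := (hu l).2.le
        have h2 : Real.log (n l + 1) - Real.log (n l) ≤ 1 / n l := by
          rw [← Real.log_div (by linarith [hnl l]) (hnl l).ne']
          refine (Real.log_le_sub_one_of_pos (by have := hnl l; positivity)).trans (le_of_eq ?_)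
          have := (hnl l).ne'
          field_simp
          ring
        have h3 : 1 / (n l : ℝ) ≤ (N : ℝ) ^ (-((1 : ℝ) / 2)) := by
          rw [Real.rpow_neg hNpos.le, one_div]
          exact inv_anti₀ hsN (hn2 l).le
        linarith
      refine ⟨?_, ?_⟩
      · rw [mem_iUnion₂]
        exact ⟨i, hi, hlt u fun l => ⟨(hu l).1, hstep l⟩⟩
      · intro l _
        have h1 : L / 2 ≤ Real.log (n l) := by
          have h2 := Real.log_le_log hsN (hn2 l).le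
          rw [Real.log_rpow hNpos] at h2
          linarith
        have h2 : Real.log (n l) ≤ L := Real.log_le_log (hnl l) (by exact_mod_cast (hn1 l).2)
        have h3 : (N : ℝ) ^ (-((1 : ℝ) / 2)) ≤ 1 :=
          Real.rpow_le_one_of_one_le_of_nonpos (by exact_mod_cast hN) (by norm_num)
        exact ⟨h1.trans (hu l).1, by linarith [hstep l]⟩)
  have hunion : volume ((⋃ i ∈ I, E i) ∩ bx r (L / 2) (L + 1)) ≤
      (I.card : ℝ≥0∞) * (ENNReal.ofReal (m * l₀) * ENNReal.ofReal ((2 * L) ^ r)) := by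
    have h1 : ((⋃ i ∈ I, E i) ∩ bx r (L / 2) (L + 1)) ⊆ ⋃ i ∈ I, (E i ∩ bx r (L / 2) (L + 1)) := by
      rintro u ⟨hu, hu2⟩
      rw [mem_iUnion₂] at hu ⊢
      obtain ⟨i, hi, hui⟩ := hu
      exact ⟨i, hi, hui, hu2⟩
    refine (measure_mono h1).trans ((measure_biUnion_finset_le _ _).trans
      ((Finset.sum_le_sum hone).trans (le_of_eq ?_)))
    rw [Finset.sum_const, nsmul_eq_mul]
  have hL0 : 0 ≤ 2 * L := by linarith
  have hfinal : ENNReal.ofReal ((F.card : ℝ) * (1 / (2 * (N : ℝ))) ^ r) ≤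
      ENNReal.ofReal ((I.card : ℝ) * (m * l₀) * (2 * L) ^ r) := by
    have e1 : ENNReal.ofReal ((F.card : ℝ) * (1 / (2 * (N : ℝ))) ^ r) =
        (F.card : ℝ≥0∞) * ENNReal.ofReal ((1 / (2 * (N : ℝ))) ^ r) := by
      rw [ENNReal.ofReal_mul (Nat.cast_nonneg _), ENNReal.ofReal_natCast]
    have e2 : ENNReal.ofReal ((I.card : ℝ) * (m * l₀) * (2 * L) ^ r) =
        (I.card : ℝ≥0∞) * (ENNReal.ofReal (m * l₀) * ENNReal.ofReal ((2 * L) ^ r)) := by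
      rw [ENNReal.ofReal_mul (by positivity), ENNReal.ofReal_mul (by positivity),
        ENNReal.ofReal_natCast, mul_assoc]
    rw [e1, e2]
    exact hcells.trans hunion
  have hnn : 0 ≤ (I.card : ℝ) * (m * l₀) * (2 * L) ^ r := by positivity
  have h1 := (ENNReal.ofReal_le_ofReal_iff hnn).1 hfinal
  have h2 : (F.card : ℝ) = (2 * (N : ℝ)) ^ r * ((F.card : ℝ) * (1 / (2 * (N : ℝ))) ^ r) := by
    have h3 : (2 * (N : ℝ)) ^ r * (1 / (2 * (N : ℝ))) ^ r = 1 := by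
      rw [← mul_pow, mul_one_div_cancel (by positivity), one_pow]
    calc (F.card : ℝ) = F.card * ((2 * (N : ℝ)) ^ r * (1 / (2 * (N : ℝ))) ^ r) := by rw [h3, mul_one]
      _ = _ := by ring
  rw [h2]
  exact mul_le_mul_of_nonneg_left h1 (by positivity)

/-- generalised polynomials rarely have cancellation -/
theorem canK (r J : ℕ) (hr : 0 < r) (β κ : ℝ) (hβ : 1 ≤ β) (hκ : 0 < κ) :
    ∃ c : ℝ, 0 < c ∧ c ≤ 1 / 8 ∧ ∀ᶠ N : ℕ in atTop, ∀ (𝓑 : Finset (Fin r → ℝ)) (𝒜 : Finset ℂ),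
      (𝓑.card : ℝ) ≤ (N : ℝ) ^ c → (𝒜.card : ℝ) ≤ (N : ℝ) ^ c →
      (∀ b ∈ 𝓑, ∀ l, 0 ≤ b l ∧ b l ≤ β) →
      (∀ b ∈ 𝓑, ∀ b' ∈ 𝓑, b ≠ b' → (N : ℝ) ^ (-c) ≤ ∑ l, |b l - b' l|) →
      ∃ E : Finset (Fin r → ℕ), (E.card : ℝ) ≤ (N : ℝ) ^ ((r : ℝ) - c) ∧
        ∀ n : Fin r → ℕ, (∀ l, 1 ≤ n l ∧ n l ≤ N) → n ∉ E →
          (∀ l, (N : ℝ) ^ ((1 : ℝ) / 2) < n l) ∧
          ∀ y : (Fin r → ℝ) →₀ ℂ, y.support.card ≤ J → (∀ b ∈ y.support, b ∈ 𝓑 ∧ y b ∈ 𝒜) →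
            nv y (fun l => Real.log (n l)) ≤ (N : ℝ) ^ κ * ‖ev y (fun l => Real.log (n l))‖ := by
  classical
  have hβ0 : 0 < β := by linarith
  obtain ⟨C₁, hC₁, hline⟩ := CE_line r J β hβ
  set δ := min κ (1 / 4) with hδdef
  have hδ : 0 < δ := lt_min hκ (by norm_num)
  have hδκ : δ ≤ κ := min_le_left _ _
  have hδ1 : δ ≤ 1 / 4 := min_le_right _ _
  set lm := δ / (2 * (J + 1)) with hlm
  have hlm0 : 0 < lm := by positivity
  have hlmδ : lm ≤ δ / 2 := by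
    rw [hlm]
    refine div_le_div_of_nonneg_left hδ.le (by norm_num) ?_
    have : (0 : ℝ) ≤ J := Nat.cast_nonneg _
    linarith
  have hlmJ : lm * J ≤ δ / 2 := by
    rw [hlm, div_mul_eq_mul_div, div_le_div_iff₀ (by positivity) (by norm_num)]
    nlinarith
  set c := lm / (8 * (J + 1)) with hc
  have hc0 : 0 < c := by positivity
  have hJ0 : (0 : ℝ) ≤ J := Nat.cast_nonneg _
  have hcJ : c * (J + 1) = lm / 8 := by rw [hc]; field_simp
  have hc1 : c ≤ 1 / 8 := by nlinarith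
  have hcJ' : c * J ≤ lm / 8 := by nlinarith
  refine ⟨c, hc0, hc1, ?_⟩
  have hcast : Tendsto (fun N : ℕ => (N : ℝ)) atTop atTop := tendsto_natCast_atTop_atTop
  have e1 := hcast.eventually (numG r 0 J J hr C₁ lm (2 * c) (c * J) (by linarith) hlm0 (by linarith)
    (by linarith) (by push_cast; nlinarith))
  have e2 := hcast.eventually
    ((tendsto_rpow_atTop (show (0 : ℝ) < δ / 4 by positivity)).eventually_ge_atTop (2 * C₁))
  have e3 := hcast.eventually (Real.tendsto_log_atTop.eventually_ge_atTop (12 : ℝ))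
  have e4 : ∀ᶠ N : ℕ in atTop, 2 * (r * β) * (N : ℝ) ^ (-((1 : ℝ) / 2)) ≤ (N : ℝ) ^ (-δ) := by
    have h1 := hcast.eventually
      ((tendsto_rpow_atTop (show (0 : ℝ) < 1 / 4 by norm_num)).eventually_ge_atTop (2 * (r * β)))
    filter_upwards [h1, hcast.eventually (eventually_ge_atTop (1 : ℝ))] with N h1 h2
    have hN0 : (0 : ℝ) < N := by linarith
    calc 2 * (r * β) * (N : ℝ) ^ (-((1 : ℝ) / 2)) ≤ (N : ℝ) ^ ((1 : ℝ) / 4) * (N : ℝ) ^ (-((1 : ℝ) / 2)) :=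
          mul_le_mul_of_nonneg_right h1 (Real.rpow_nonneg hN0.le _)
      _ = (N : ℝ) ^ ((1 : ℝ) / 4 + -((1 : ℝ) / 2)) := (Real.rpow_add hN0 _ _).symm
      _ ≤ _ := Real.rpow_le_rpow_of_exponent_le h2 (by linarith)
  have e5 := hcast.eventually (eventually_ge_atTop (1 : ℝ))
  filter_upwards [e1, e2, e3, e4, e5] with N hnum hC₁N hlogN hrβ hN1' 𝓑 𝒜 h𝓑 h𝒜 hb hsep
  have hN : 1 ≤ N := by exact_mod_cast hN1'
  have hNpos : (0 : ℝ) < N := by linarith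
  have hp : ∀ e : ℝ, 0 < (N : ℝ) ^ e := fun e => Real.rpow_pos_of_pos hNpos e
  set η : ℝ := (N : ℝ) ^ (-δ) with hη
  have hη0 : 0 < η := hp _
  have hη1 : η ≤ 1 := Real.rpow_le_one_of_one_le_of_nonpos hN1' (by linarith)
  set σ : ℝ := (N : ℝ) ^ (-c) with hσ
  have hσ0 : 0 < σ := hp _
  have hσ1 : σ ≤ 1 := Real.rpow_le_one_of_one_le_of_nonpos hN1' (by linarith)
  have hσJ : σ ^ J = (N : ℝ) ^ (-(c * J)) := by
    rw [hσ, ← Real.rpow_natCast, ← Real.rpow_mul hNpos.le]; congr 1; ring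
  set np : ℕ := ⌈C₁ * (N : ℝ) ^ (c * J)⌉₊ with hnp
  have hNcQ : 1 ≤ (N : ℝ) ^ (c * J) := Real.one_le_rpow hN1' (by positivity)
  have hCN : 1 ≤ C₁ * (N : ℝ) ^ (c * J) := one_le_mul_of_one_le_of_one_le hC₁ hNcQ
  have hnp0 : 0 < np := Nat.ceil_pos.2 (by linarith)
  have hnp1 : C₁ ≤ np * σ ^ J := by
    have h1 : C₁ * (N : ℝ) ^ (c * J) ≤ np := Nat.le_ceil _
    have h2 : (N : ℝ) ^ (c * J) * (N : ℝ) ^ (-(c * J)) = 1 := by
      rw [← Real.rpow_add hNpos, add_neg_cancel, Real.rpow_zero]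
    rw [hσJ]
    calc C₁ = (C₁ * (N : ℝ) ^ (c * J)) * (N : ℝ) ^ (-(c * J)) := by rw [mul_assoc, h2, mul_one]
      _ ≤ _ := mul_le_mul_of_nonneg_right h1 (hp _).le
  have hnp2 : (np : ℝ) ≤ 2 * C₁ * (N : ℝ) ^ (c * J) := by
    have := Nat.ceil_lt_add_one (show 0 ≤ C₁ * (N : ℝ) ^ (c * J) by linarith)
    rw [← hnp] at this
    linarith
  set l₀ : ℝ := (N : ℝ) ^ (-lm) with hl
  have hl0 : 0 < l₀ := hp _
  have hl1 : l₀ ≤ 1 := Real.rpow_le_one_of_one_le_of_nonpos hN1' (by linarith)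
  have hCη : C₁ * (2 * η) ≤ σ ^ J * l₀ ^ J := by
    have h1 : l₀ ^ J = (N : ℝ) ^ (-(lm * J)) := by
      rw [hl, ← Real.rpow_natCast, ← Real.rpow_mul hNpos.le]; congr 1; ring
    rw [hσJ, h1, ← Real.rpow_add hNpos, hη]
    have h2 : (N : ℝ) ^ (δ / 4) * (N : ℝ) ^ (-δ) ≤ (N : ℝ) ^ (-(c * J) + -(lm * J)) := by
      rw [← Real.rpow_add hNpos]
      exact Real.rpow_le_rpow_of_exponent_le hN1' (by linarith)
    calc C₁ * (2 * (N : ℝ) ^ (-δ)) = (2 * C₁) * (N : ℝ) ^ (-δ) := by ring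
      _ ≤ (N : ℝ) ^ (δ / 4) * (N : ℝ) ^ (-δ) := mul_le_mul_of_nonneg_right hC₁N (hp _).le
      _ ≤ _ := h2
  have hε0 : 0 ≤ (N : ℝ) ^ (-((1 : ℝ) / 2)) := (hp _).le
  have hG : Real.exp (r * (β * (N : ℝ) ^ (-((1 : ℝ) / 2)))) ≤ 1 + η := by
    have h0 : 0 ≤ r * (β * (N : ℝ) ^ (-((1 : ℝ) / 2))) := by positivity
    have h1 : r * (β * (N : ℝ) ^ (-((1 : ℝ) / 2))) ≤ η / 2 := by
      have : 2 * (r * β) * (N : ℝ) ^ (-((1 : ℝ) / 2)) = 2 * (r * (β * (N : ℝ) ^ (-((1 : ℝ) / 2)))) := by ring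
      linarith
    have h2 := Real.abs_exp_sub_one_le (x := r * (β * (N : ℝ) ^ (-((1 : ℝ) / 2))))
      (by rw [abs_of_nonneg h0]; linarith)
    rw [abs_of_nonneg h0] at h2
    have h3 := (abs_le.1 h2).2
    linarith
  -- the polynomials
  set G : Finset ((Fin r → ℝ) →₀ ℂ) := (GP 𝓑 𝒜 J).filter (fun y => y.support.card ≤ J ∧
    ∀ b ∈ y.support, b ∈ 𝓑 ∧ y b ∈ 𝒜) with hGdef
  have hGcard : (G.card : ℝ) ≤ ((𝓑.card : ℝ) * 𝒜.card + 1) ^ J := by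
    have h1 : G.card ≤ (𝓑.card * 𝒜.card + 1) ^ J := (Finset.card_filter_le _ _).trans (GP_card _ _ _)
    exact_mod_cast h1
  have hGsup : ∀ y ∈ G, (y.support.card ≤ J ∧ ∀ b ∈ y.support, b ∈ 𝓑 ∧ y b ∈ 𝒜) := fun y hy =>
    (Finset.mem_filter.1 hy).2
  have hGline : ∀ y : (Fin r → ℝ) →₀ ℂ, ∃ ω : Fin r → ℝ, y ∈ G → ((∀ l, 1 ≤ ω l ∧ ω l ≤ 2) ∧
      ∀ v : Fin r → ℝ, Cov (np * 2 ^ J) l₀ {t | t ∈ Icc (0 : ℝ) 1 ∧ v + t • ω ∈ CE y (2 * η)}) := by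
    intro y
    by_cases hy : y ∈ G
    · obtain ⟨h1, h2⟩ := hGsup y hy
      obtain ⟨ω, hω, hω'⟩ := hline y σ h1 hσ0 hσ1 (fun b hb' => hb b (h2 b hb').1)
        (fun b hb₁ b' hb₂ hne => hsep b (h2 b hb₁).1 b' (h2 b' hb₂).1 hne)
      exact ⟨ω, fun _ => ⟨hω, hω' np hnp0 hnp1 (2 * η) l₀ (by positivity) hl0 hl1 hCη⟩⟩
    · exact ⟨0, fun h => absurd h hy⟩
  choose ω hω using hGline
  obtain ⟨E₀, hE₀card, hE₀⟩ := smallG r N
  set F : Finset (Fin r → ℕ) := (Fintype.piFinset fun _ : Fin r => Finset.Icc 1 N).filter fun n =>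
    (∀ l, (N : ℝ) ^ ((1 : ℝ) / 2) < n l) ∧ ∃ y ∈ G, (fun l => Real.log (n l)) ∈ CE y η with hF
  have hFcard := countK hN G (fun y => CE y (2 * η)) (fun y _ => CE_meas y _) ω
    (fun y hy l => ⟨by linarith [((hω y hy).1 l).1], ((hω y hy).1 l).2⟩) (np * 2 ^ J) l₀ hl0.le hlogN
    (fun y hy v => (hω y hy).2 v) F (by
      intro n hn
      rw [hF, Finset.mem_filter, Fintype.mem_piFinset] at hn
      exact ⟨fun l => Finset.mem_Icc.1 (hn.1 l), hn.2.1⟩) (by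
      intro n hn
      rw [hF, Finset.mem_filter, Fintype.mem_piFinset] at hn
      obtain ⟨-, -, y, hy, hyE⟩ := hn
      refine ⟨y, hy, fun u hu => ?_⟩
      exact CE_cell (fun b hb' => hb b ((hGsup y hy).2 b hb').1) hε0 hη0.le hG hu hyE)
  refine ⟨E₀ ∪ F, ?_, ?_⟩
  · have h1 : ((E₀ ∪ F).card : ℝ) ≤ E₀.card + F.card := by exact_mod_cast Finset.card_union_le _ _
    have hA : (𝓑.card : ℝ) * 𝒜.card ≤ (N : ℝ) ^ (2 * c) := by
      calc (𝓑.card : ℝ) * 𝒜.card ≤ (N : ℝ) ^ c * (N : ℝ) ^ c :=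
            mul_le_mul h𝓑 h𝒜 (Nat.cast_nonneg _) (hp _).le
        _ = _ := by rw [← Real.rpow_add hNpos]; congr 1; ring
    have h2 := hnum 0 ((𝓑.card : ℝ) * 𝒜.card) (np : ℝ) le_rfl (hp _).le (by positivity) hA
      (Nat.cast_nonneg _) hnp2
    have hlog0 : 0 ≤ Real.log N := by linarith
    have h3 : (2 * (N : ℝ)) ^ r * ((G.card : ℝ) * (((np * 2 ^ J : ℕ) : ℝ) * l₀) * (2 * Real.log N) ^ r) ≤
        (2 * (N : ℝ)) ^ r * (((0 : ℝ) ^ 0 * ((𝓑.card : ℝ) * 𝒜.card + 1) ^ J) * (np * 2 ^ J * l₀) *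
        (2 * Real.log N) ^ r + (0 : ℝ) ^ 2 * (2 * (N : ℝ) ^ (-(7 * (2 * c))) *
          (r / (N : ℝ) ^ (-(3 * (2 * c)))) * (2 * Real.log N) ^ r)) := by
      rw [pow_zero, one_mul, zero_pow two_ne_zero, zero_mul, add_zero]
      push_cast
      gcongr
    have h4 : (N : ℝ) ^ ((r : ℝ) - 2 * c) ≤ (N : ℝ) ^ ((r : ℝ) - c) :=
      Real.rpow_le_rpow_of_exponent_le hN1' (by linarith)
    linarith
  · intro n hn hnE
    rw [Finset.mem_union, not_or] at hnE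
    have hsqrt := hE₀ n hn hnE.1
    refine ⟨hsqrt, fun y hy1 hy2 => ?_⟩
    have hyG : y ∈ G := Finset.mem_filter.2 ⟨GP_mem _ _ _ _ hy1 hy2, hy1, hy2⟩
    have h1 : (fun l => Real.log (n l)) ∉ CE y η := by
      intro hcon
      exact hnE.2 (Finset.mem_filter.2 ⟨Fintype.mem_piFinset.2 fun l => Finset.mem_Icc.2 (hn l),
        hsqrt, y, hyG, hcon⟩)
    have h2 : η * nv y (fun l => Real.log (n l)) ≤ ‖ev y (fun l => Real.log (n l))‖ := not_lt.1 h1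
    have h3 : (N : ℝ) ^ δ * η = 1 := by
      rw [hη, ← Real.rpow_add hNpos, add_neg_cancel, Real.rpow_zero]
    calc nv y (fun l => Real.log (n l)) = (N : ℝ) ^ δ * (η * nv y (fun l => Real.log (n l))) := by
          rw [← mul_assoc, h3, one_mul]
      _ ≤ (N : ℝ) ^ δ * ‖ev y (fun l => Real.log (n l))‖ := mul_le_mul_of_nonneg_left h2 (hp _).le
      _ ≤ _ := mul_le_mul_of_nonneg_right (Real.rpow_le_rpow_of_exponent_le hN1' hδκ) (norm_nonneg _)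

end Pool.Agent.Lib.MP_ec260d_ntK
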