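import Mathlib
import Pool.Agent.Lib.MP_ec260d_ntK.CanK

/-!
# Families of generalised polynomials rarely have cancellation
-/

open Set Filter Topology MeasureTheory
open scoped ENNReal

namespace Pool.Agent.Lib.MP_ec260d_ntK

open Pool.Agent.Lib.MP_ec260d_ntH Pool.Agent.Lib.MP_ec260d_ntG

/-- the generalised polynomials of a finite family rarely have cancellation -/
theorem canF (r J : ℕ) (hr : 0 < r) (β κ : ℝ) (hβ : 1 ≤ β) (hκ : 0 < κ) :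
    ∃ c : ℝ, 0 < c ∧ c ≤ 1 / 8 ∧ ∀ᶠ N : ℕ in atTop, ∀ G : Finset ((Fin r → ℝ) →₀ ℂ),
      (G.card : ℝ) ≤ (N : ℝ) ^ (2 * c) →
      (∀ y ∈ G, y.support.card ≤ J ∧ (∀ b ∈ y.support, ∀ l, 0 ≤ b l ∧ b l ≤ β) ∧
        ∀ b ∈ y.support, ∀ b' ∈ y.support, b ≠ b' → (N : ℝ) ^ (-c) ≤ ∑ l, |b l - b' l|) →
      ∃ E : Finset (Fin r → ℕ), (E.card : ℝ) ≤ (N : ℝ) ^ ((r : ℝ) - c) ∧
        ∀ n : Fin r → ℕ, (∀ l, 1 ≤ n l ∧ n l ≤ N) → n ∉ E →
          (∀ l, (N : ℝ) ^ ((1 : ℝ) / 2) < n l) ∧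
          ∀ y ∈ G, nv y (fun l => Real.log (n l)) ≤ (N : ℝ) ^ κ * ‖ev y (fun l => Real.log (n l))‖ := by
  classical
  have hβ0 : 0 < β := by linarith
  obtain ⟨C₁, hC₁, hline⟩ := CE_line r J β hβ
  set δ := min κ (1 / 4) with hδdef
  have hδ : 0 < δ := lt_min hκ (by norm_num)
  have hδκ : δ ≤ κ := min_le_left _ _
  have hδ1 : δ ≤ 1 / 4 := min_le_right _ _
  set lm := δ / (2 * (J + 1)) with hlm
  have hlm0 : 0 < lm := by positivity
  have hlmδ : lm ≤ δ / 2 := by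
    rw [hlm]
    refine div_le_div_of_nonneg_left hδ.le (by norm_num) ?_
    have : (0 : ℝ) ≤ J := Nat.cast_nonneg _
    linarith
  have hlmJ : lm * J ≤ δ / 2 := by
    rw [hlm, div_mul_eq_mul_div, div_le_div_iff₀ (by positivity) (by norm_num)]
    nlinarith
  set c := lm / (16 * (J + 1)) with hc
  have hc0 : 0 < c := by positivity
  have hJ0 : (0 : ℝ) ≤ J := Nat.cast_nonneg _
  have hcJ : c * (J + 1) = lm / 16 := by rw [hc]; field_simp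
  have hcJ0 : 0 ≤ c * J := by positivity
  have hcJ' : c * J ≤ lm / 16 := by linarith
  have hclm : c ≤ lm / 16 := by linarith
  have hc1 : c ≤ 1 / 8 := by linarith
  refine ⟨c, hc0, hc1, ?_⟩
  have hcast : Tendsto (fun N : ℕ => (N : ℝ)) atTop atTop := tendsto_natCast_atTop_atTop
  have e1 := hcast.eventually (numG r 0 1 J hr C₁ lm (2 * c) (c * J) (by linarith) hlm0 (by linarith)
    (by linarith) (by push_cast; linarith))
  have e2 := hcast.eventually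
    ((tendsto_rpow_atTop (show (0 : ℝ) < δ / 4 by positivity)).eventually_ge_atTop (2 * C₁))
  have e3 := hcast.eventually (Real.tendsto_log_atTop.eventually_ge_atTop (12 : ℝ))
  have e4 : ∀ᶠ N : ℕ in atTop, 2 * (r * β) * (N : ℝ) ^ (-((1 : ℝ) / 2)) ≤ (N : ℝ) ^ (-δ) := by
    have h1 := hcast.eventually
      ((tendsto_rpow_atTop (show (0 : ℝ) < 1 / 4 by norm_num)).eventually_ge_atTop (2 * (r * β)))
    filter_upwards [h1, hcast.eventually (eventually_ge_atTop (1 : ℝ))] with N h1 h2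
    have hN0 : (0 : ℝ) < N := by linarith
    calc 2 * (r * β) * (N : ℝ) ^ (-((1 : ℝ) / 2)) ≤ (N : ℝ) ^ ((1 : ℝ) / 4) * (N : ℝ) ^ (-((1 : ℝ) / 2)) :=
          mul_le_mul_of_nonneg_right h1 (Real.rpow_nonneg hN0.le _)
      _ = (N : ℝ) ^ ((1 : ℝ) / 4 + -((1 : ℝ) / 2)) := (Real.rpow_add hN0 _ _).symm
      _ ≤ _ := Real.rpow_le_rpow_of_exponent_le h2 (by linarith)
  have e5 := hcast.eventually (eventually_ge_atTop (1 : ℝ))
  filter_upwards [e1, e2, e3, e4, e5] with N hnum hC₁N hlogN hrβ hN1' G hGcard hGsup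
  have hN : 1 ≤ N := by exact_mod_cast hN1'
  have hNpos : (0 : ℝ) < N := by linarith
  have hp : ∀ e : ℝ, 0 < (N : ℝ) ^ e := fun e => Real.rpow_pos_of_pos hNpos e
  set η : ℝ := (N : ℝ) ^ (-δ) with hη
  have hη0 : 0 < η := hp _
  have hη1 : η ≤ 1 := Real.rpow_le_one_of_one_le_of_nonpos hN1' (by linarith)
  set σ : ℝ := (N : ℝ) ^ (-c) with hσ
  have hσ0 : 0 < σ := hp _
  have hσ1 : σ ≤ 1 := Real.rpow_le_one_of_one_le_of_nonpos hN1' (by linarith)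
  have hσJ : σ ^ J = (N : ℝ) ^ (-(c * J)) := by
    rw [hσ, ← Real.rpow_natCast, ← Real.rpow_mul hNpos.le]; congr 1; ring
  set np : ℕ := ⌈C₁ * (N : ℝ) ^ (c * J)⌉₊ with hnp
  have hNcQ : 1 ≤ (N : ℝ) ^ (c * J) := Real.one_le_rpow hN1' (by positivity)
  have hCN : 1 ≤ C₁ * (N : ℝ) ^ (c * J) := one_le_mul_of_one_le_of_one_le hC₁ hNcQ
  have hnp0 : 0 < np := Nat.ceil_pos.2 (by linarith)
  have hnp1 : C₁ ≤ np * σ ^ J := by
    have h1 : C₁ * (N : ℝ) ^ (c * J) ≤ np := Nat.le_ceil _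
    have h2 : (N : ℝ) ^ (c * J) * (N : ℝ) ^ (-(c * J)) = 1 := by
      rw [← Real.rpow_add hNpos, add_neg_cancel, Real.rpow_zero]
    rw [hσJ]
    calc C₁ = (C₁ * (N : ℝ) ^ (c * J)) * (N : ℝ) ^ (-(c * J)) := by rw [mul_assoc, h2, mul_one]
      _ ≤ _ := mul_le_mul_of_nonneg_right h1 (hp _).le
  have hnp2 : (np : ℝ) ≤ 2 * C₁ * (N : ℝ) ^ (c * J) := by
    have := Nat.ceil_lt_add_one (show 0 ≤ C₁ * (N : ℝ) ^ (c * J) by linarith)
    rw [← hnp] at this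
    linarith
  set l₀ : ℝ := (N : ℝ) ^ (-lm) with hl
  have hl0 : 0 < l₀ := hp _
  have hl1 : l₀ ≤ 1 := Real.rpow_le_one_of_one_le_of_nonpos hN1' (by linarith)
  have hCη : C₁ * (2 * η) ≤ σ ^ J * l₀ ^ J := by
    have h1 : l₀ ^ J = (N : ℝ) ^ (-(lm * J)) := by
      rw [hl, ← Real.rpow_natCast, ← Real.rpow_mul hNpos.le]; congr 1; ring
    rw [hσJ, h1, ← Real.rpow_add hNpos, hη]
    have h2 : (N : ℝ) ^ (δ / 4) * (N : ℝ) ^ (-δ) ≤ (N : ℝ) ^ (-(c * J) + -(lm * J)) := by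
      rw [← Real.rpow_add hNpos]
      exact Real.rpow_le_rpow_of_exponent_le hN1' (by linarith)
    calc C₁ * (2 * (N : ℝ) ^ (-δ)) = (2 * C₁) * (N : ℝ) ^ (-δ) := by ring
      _ ≤ (N : ℝ) ^ (δ / 4) * (N : ℝ) ^ (-δ) := mul_le_mul_of_nonneg_right hC₁N (hp _).le
      _ ≤ _ := h2
  have hε0 : 0 ≤ (N : ℝ) ^ (-((1 : ℝ) / 2)) := (hp _).le
  have hG : Real.exp (r * (β * (N : ℝ) ^ (-((1 : ℝ) / 2)))) ≤ 1 + η := by
    have h0 : 0 ≤ r * (β * (N : ℝ) ^ (-((1 : ℝ) / 2))) := by positivity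
    have h1 : r * (β * (N : ℝ) ^ (-((1 : ℝ) / 2))) ≤ η / 2 := by
      have : 2 * (r * β) * (N : ℝ) ^ (-((1 : ℝ) / 2)) = 2 * (r * (β * (N : ℝ) ^ (-((1 : ℝ) / 2)))) := by ring
      linarith
    have h2 := Real.abs_exp_sub_one_le (x := r * (β * (N : ℝ) ^ (-((1 : ℝ) / 2))))
      (by rw [abs_of_nonneg h0]; linarith)
    rw [abs_of_nonneg h0] at h2
    have h3 := (abs_le.1 h2).2
    linarith
  -- the polynomials
  have hGline : ∀ y : (Fin r → ℝ) →₀ ℂ, ∃ ω : Fin r → ℝ, y ∈ G → ((∀ l, 1 ≤ ω l ∧ ω l ≤ 2) ∧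
      ∀ v : Fin r → ℝ, Cov (np * 2 ^ J) l₀ {t | t ∈ Icc (0 : ℝ) 1 ∧ v + t • ω ∈ CE y (2 * η)}) := by
    intro y
    by_cases hy : y ∈ G
    · obtain ⟨h1, h2, h3⟩ := hGsup y hy
      obtain ⟨ω, hω, hω'⟩ := hline y σ h1 hσ0 hσ1 h2 h3
      exact ⟨ω, fun _ => ⟨hω, hω' np hnp0 hnp1 (2 * η) l₀ (by positivity) hl0 hl1 hCη⟩⟩
    · exact ⟨0, fun h => absurd h hy⟩
  choose ω hω using hGline
  obtain ⟨E₀, hE₀card, hE₀⟩ := smallG r N
  set F : Finset (Fin r → ℕ) := (Fintype.piFinset fun _ : Fin r => Finset.Icc 1 N).filter fun n =>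
    (∀ l, (N : ℝ) ^ ((1 : ℝ) / 2) < n l) ∧ ∃ y ∈ G, (fun l => Real.log (n l)) ∈ CE y η with hF
  have hFcard := countK hN G (fun y => CE y (2 * η)) (fun y _ => CE_meas y _) ω
    (fun y hy l => ⟨by linarith [((hω y hy).1 l).1], ((hω y hy).1 l).2⟩) (np * 2 ^ J) l₀ hl0.le hlogN
    (fun y hy v => (hω y hy).2 v) F (by
      intro n hn
      rw [hF, Finset.mem_filter, Fintype.mem_piFinset] at hn
      exact ⟨fun l => Finset.mem_Icc.1 (hn.1 l), hn.2.1⟩) (by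
      intro n hn
      rw [hF, Finset.mem_filter, Fintype.mem_piFinset] at hn
      obtain ⟨-, -, y, hy, hyE⟩ := hn
      refine ⟨y, hy, fun u hu => ?_⟩
      exact CE_cell (hGsup y hy).2.1 hε0 hη0.le hG hu hyE)
  refine ⟨E₀ ∪ F, ?_, ?_⟩
  · have h1 : ((E₀ ∪ F).card : ℝ) ≤ E₀.card + F.card := by exact_mod_cast Finset.card_union_le _ _
    have h2 := hnum 0 (G.card : ℝ) (np : ℝ) le_rfl (hp _).le (Nat.cast_nonneg _) hGcard
      (Nat.cast_nonneg _) hnp2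
    have hlog0 : 0 ≤ Real.log N := by linarith
    have h3 : (2 * (N : ℝ)) ^ r * ((G.card : ℝ) * (((np * 2 ^ J : ℕ) : ℝ) * l₀) * (2 * Real.log N) ^ r) ≤
        (2 * (N : ℝ)) ^ r * (((0 : ℝ) ^ 0 * ((G.card : ℝ) + 1) ^ 1) * (np * 2 ^ J * l₀) *
        (2 * Real.log N) ^ r + (0 : ℝ) ^ 2 * (2 * (N : ℝ) ^ (-(7 * (2 * c))) *
          (r / (N : ℝ) ^ (-(3 * (2 * c)))) * (2 * Real.log N) ^ r)) := by
      rw [pow_zero, one_mul, zero_pow two_ne_zero, zero_mul, add_zero, pow_one]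
      push_cast
      gcongr
      linarith
    have h4 : (N : ℝ) ^ ((r : ℝ) - 2 * c) ≤ (N : ℝ) ^ ((r : ℝ) - c) :=
      Real.rpow_le_rpow_of_exponent_le hN1' (by linarith)
    linarith
  · intro n hn hnE
    rw [Finset.mem_union, not_or] at hnE
    have hsqrt := hE₀ n hn hnE.1
    refine ⟨hsqrt, fun y hyG => ?_⟩
    have h1 : (fun l => Real.log (n l)) ∉ CE y η := by
      intro hcon
      exact hnE.2 (Finset.mem_filter.2 ⟨Fintype.mem_piFinset.2 fun l => Finset.mem_Icc.2 (hn l),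
        hsqrt, y, hyG, hcon⟩)
    have h2 : η * nv y (fun l => Real.log (n l)) ≤ ‖ev y (fun l => Real.log (n l))‖ := not_lt.1 h1
    have h3 : (N : ℝ) ^ δ * η = 1 := by
      rw [hη, ← Real.rpow_add hNpos, add_neg_cancel, Real.rpow_zero]
    calc nv y (fun l => Real.log (n l)) = (N : ℝ) ^ δ * (η * nv y (fun l => Real.log (n l))) := by
          rw [← mul_assoc, h3, one_mul]
      _ ≤ (N : ℝ) ^ δ * ‖ev y (fun l => Real.log (n l))‖ := mul_le_mul_of_nonneg_left h2 (hp _).le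
      _ ≤ _ := mul_le_mul_of_nonneg_right (Real.rpow_le_rpow_of_exponent_le hN1' hδκ) (norm_nonneg _)

end Pool.Agent.Lib.MP_ec260d_ntK
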