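import Mathlib
import Pool.Agent.Lib.MP_ec260d_ntK.CanK
import Pool.Agent.Lib.MP_ec260d_ntG.CovG
import Pool.Agent.Lib.MP_ec260d_ntG.SepG

/-!
# Homogeneous index functions: cover along the rays
-/

open Set Filter Topology MeasureTheory

namespace Pool.Agent.Lib.MP_ec260d_ntK

open Pool.Agent.Lib.MP_ec260d_nt Pool.Agent.Lib.MP_ec260d_ntH Pool.Agent.Lib.MP_ec260d_ntG
open Pool.Agent.Lib.MP_ec260d_ntU (yy_sep)

variable {r k : ℕ}

/-- the value of a real generalised polynomial at `exp u` -/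
noncomputable def evr (y : (Fin r → ℝ) →₀ ℝ) (u : Fin r → ℝ) : ℝ :=
  ∑ b ∈ y.support, y b * Real.exp (dt b u)

/-- the sum of the absolute values of the terms -/
noncomputable def nvr (y : (Fin r → ℝ) →₀ ℝ) (u : Fin r → ℝ) : ℝ :=
  ∑ b ∈ y.support, |y b| * Real.exp (dt b u)

/-- homogeneous of degree `d` -/
def Hom {R : Type} [Zero R] (y : (Fin r → ℝ) →₀ R) (d : ℝ) : Prop := ∀ b ∈ y.support, ∑ l, b l = d

/-- the direction of the rays -/
def on (r : ℕ) : Fin r → ℝ := fun _ => 1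

theorem dt_line (b v : Fin r → ℝ) (t : ℝ) : dt b (v + t • on r) = dt b v + (∑ l, b l) * t := by
  rw [dt_add, dt_smul]
  unfold dt on
  simp only [mul_one]
  ring

theorem evr_line {y : (Fin r → ℝ) →₀ ℝ} {d : ℝ} (hy : Hom y d) (v : Fin r → ℝ) (t : ℝ) :
    evr y (v + t • on r) = evr y v * Real.exp (d * t) := by
  unfold evr
  rw [Finset.sum_mul]
  refine Finset.sum_congr rfl fun b hb => ?_
  rw [dt_line, hy b hb, Real.exp_add]
  ring

theorem ev_line {y : (Fin r → ℝ) →₀ ℂ} {d : ℝ} (hy : Hom y d) (v : Fin r → ℝ) (t : ℝ) :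
    ev y (v + t • on r) = ev y v * ((Real.exp (d * t) : ℝ) : ℂ) := by
  unfold ev
  rw [Finset.sum_mul]
  refine Finset.sum_congr rfl fun b hb => ?_
  rw [dt_line, hy b hb, Real.exp_add]
  push_cast
  ring

theorem evr_cont (y : (Fin r → ℝ) →₀ ℝ) : Continuous (evr y) := by
  unfold evr
  refine continuous_finsetSum _ fun b _ => continuous_const.mul ?_
  exact Real.continuous_exp.comp (dt_cont b)

/-- lower bound for `rr` along a segment, from the separation at one point of it -/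
theorem rayRR {β D₀ ρ τ T Dm : ℝ} (hβ : 1 ≤ β) (hρ : 0 < ρ) (hρ1 : ρ ≤ 1)
    (h1 : ρ * 2 ≤ τ) (h2 : ρ * (4 * (1 + T) ^ 2) ≤ τ) (h3 : ρ * (2 * (β * (1 + T))) ≤ 1)
    {Y d : Fin k → ℝ} (hd : ∀ i, β⁻¹ ≤ d i ∧ d i ≤ Dm) {t₀ : ℝ} (ht₀ : t₀ ∈ Icc (0 : ℝ) 1)
    (hsize : ∀ i, 1 + Dm ≤ Real.log (Y i / D₀) + d i * t₀ ∧ Real.log (Y i / D₀) + d i * t₀ ≤ T - Dm)
    (hsep : ∀ i j, i ≠ j → ρ ≤ |d i - d j| ∨
      τ ≤ |(Real.log (Y i / D₀) + d i * t₀) - (Real.log (Y j / D₀) + d j * t₀)|) :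
    ∀ t ∈ Icc (0 : ℝ) 1, ρ ^ (k + k * k) ≤ |rr Y d D₀ (fun i j => decide (ρ ≤ |d i - d j|)) t| := by
  classical
  intro t ht
  have hβ0 : 0 < β := by linarith
  have hβi : 0 < β⁻¹ := inv_pos.2 hβ0
  set s : Fin k → ℝ := fun i => Real.log (Y i / D₀) + d i * t with hs
  have hd0 : ∀ i, 0 < d i := fun i => hβi.trans_le (hd i).1
  have habs : |t - t₀| ≤ 1 := by
    rw [abs_le]; constructor <;> linarith [ht.1, ht.2, ht₀.1, ht₀.2]
  have hdt : ∀ i, |d i * (t - t₀)| ≤ Dm := by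
    intro i
    rw [abs_mul, abs_of_pos (hd0 i)]
    calc d i * |t - t₀| ≤ Dm * 1 := mul_le_mul (hd i).2 habs (abs_nonneg _) ((hd0 i).le.trans (hd i).2)
      _ = Dm := mul_one _
  have hseq : ∀ i, s i = (Real.log (Y i / D₀) + d i * t₀) + d i * (t - t₀) := fun i => by
    rw [hs]; ring
  have hs1 : ∀ i, 1 ≤ s i := by
    intro i
    have h4 := (abs_le.1 (hdt i)).1
    rw [hseq]
    linarith [(hsize i).1]
  have hsT : ∀ i, s i ≤ T := by
    intro i
    have h4 := (abs_le.1 (hdt i)).2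
    rw [hseq]
    linarith [(hsize i).2]
  have hyy : ∀ i, yy Y d D₀ i t = (1 + gE (s i))⁻¹ := fun i => rfl
  have hw : ∀ i, 1 ≤ gE (s i) ∧ gE (s i) ≤ T := by
    intro i
    obtain ⟨h4, h5, _⟩ := gE_bounds (hs1 i)
    exact ⟨h4, h5.trans (hsT i)⟩
  have hsingle : ∀ i, ρ ≤ |d i * yy Y d D₀ i t * (1 - yy Y d D₀ i t)| := by
    intro i
    have hT : 0 < 1 + T := by linarith [(hw i).1, (hw i).2]
    rw [hyy]
    have e1 : (1 + T)⁻¹ ≤ (1 + gE (s i))⁻¹ :=
      inv_anti₀ (by linarith [(hw i).1]) (by linarith [(hw i).2])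
    have e2 : (1 + gE (s i))⁻¹ ≤ 2⁻¹ :=
      inv_anti₀ (by norm_num) (by linarith [(hw i).1])
    have e0 : 0 < (1 + gE (s i))⁻¹ := inv_pos.2 (by linarith [(hw i).1])
    have e3 : β⁻¹ * (1 + T)⁻¹ * 2⁻¹ ≤ d i * (1 + gE (s i))⁻¹ * (1 - (1 + gE (s i))⁻¹) := by
      have h5 : 0 < (1 + T)⁻¹ := inv_pos.2 hT
      have h6 : β⁻¹ * (1 + T)⁻¹ ≤ d i * (1 + gE (s i))⁻¹ :=
        mul_le_mul (hd i).1 e1 h5.le (hd0 i).le
      have h7 : (2 : ℝ)⁻¹ ≤ 1 - (1 + gE (s i))⁻¹ := by linarith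
      exact mul_le_mul h6 h7 (by norm_num) (mul_nonneg (hd0 i).le e0.le)
    have e4 : ρ ≤ β⁻¹ * (1 + T)⁻¹ * 2⁻¹ := by
      rw [← mul_inv, ← mul_inv, ← one_div, le_div_iff₀ (by positivity)]
      linarith
    exact (e4.trans e3).trans (le_abs_self _)
  have hpair : ∀ i j, ρ ≤ |if i = j then (1 : ℝ) else if decide (ρ ≤ |d i - d j|) = true then
      d i - d j else yy Y d D₀ i t - yy Y d D₀ j t| := by
    intro i j
    by_cases hij : i = j
    · rw [if_pos hij, abs_one]; exact hρ1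
    rw [if_neg hij]
    by_cases hbij : ρ ≤ |d i - d j|
    · rw [if_pos (by simpa using hbij)]; exact hbij
    · rw [if_neg (by simpa using hbij)]
      push Not at hbij
      have hT : 0 < 1 + T := by linarith [(hw i).1, (hw i).2]
      rcases hsep i j hij with h4 | h4
      · exact absurd h4 (not_le.2 hbij)
      have h5 : τ / 2 ≤ |s i - s j| := by
        have h6 : s i - s j = ((Real.log (Y i / D₀) + d i * t₀) - (Real.log (Y j / D₀) + d j * t₀)) +
            (d i - d j) * (t - t₀) := by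
          rw [hs]; ring
        rw [h6]
        have h7 : |(d i - d j) * (t - t₀)| ≤ τ / 2 := by
          rw [abs_mul]
          calc |d i - d j| * |t - t₀| ≤ ρ * 1 := mul_le_mul hbij.le habs (abs_nonneg _) hρ.le
            _ ≤ τ / 2 := by linarith
        have h8 := abs_sub_abs_le_abs_sub
          ((Real.log (Y i / D₀) + d i * t₀) - (Real.log (Y j / D₀) + d j * t₀))
          (-((d i - d j) * (t - t₀)))
        rw [abs_neg, sub_neg_eq_add] at h8
        linarith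
      rw [hyy, hyy]
      refine le_trans ?_ (yy_sep (hs1 i) (hs1 j) (hsT i) (hsT j))
      rw [le_div_iff₀ (by positivity)]
      calc ρ * (2 * (1 + T) ^ 2) = ρ * (4 * (1 + T) ^ 2) / 2 := by ring
        _ ≤ τ / 2 := by linarith
        _ ≤ _ := h5
  unfold rr
  rw [abs_mul, Finset.abs_prod, Finset.abs_prod, pow_add]
  refine mul_le_mul ?_ ?_ (by positivity) (Finset.prod_nonneg fun i _ => abs_nonneg _)
  · calc ρ ^ k = ∏ _i : Fin k, ρ := by rw [Finset.prod_const, Finset.card_univ, Fintype.card_fin]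
      _ ≤ _ := Finset.prod_le_prod (fun i _ => hρ.le) fun i _ => hsingle i
  · calc ρ ^ (k * k) = ∏ _i : Fin k, ρ ^ k := by
          rw [Finset.prod_const, Finset.card_univ, Fintype.card_fin, pow_mul]
      _ ≤ _ := by
          refine Finset.prod_le_prod (fun i _ => by positivity) fun i _ => ?_
          rw [Finset.abs_prod]
          calc ρ ^ k = ∏ _j : Fin k, ρ := by
                rw [Finset.prod_const, Finset.card_univ, Fintype.card_fin]
            _ ≤ _ := Finset.prod_le_prod (fun j _ => hρ.le) fun j _ => hpair i j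

/-- the model of the ordinate of index `y`, as a measurable function -/
noncomputable def Sz (B D₀ y : ℝ) : ℝ := (y / B) / gE (Real.log (y / D₀))

theorem Sz_eq {B D₀ y : ℝ} (hD : 0 < D₀) (hy : 0 < y) : Sz B D₀ y = Sy B D₀ y := by
  unfold Sz Sy gE
  rw [Real.exp_log (div_pos hy hD)]

theorem gE_cont : Continuous gE := continuous_iff_continuousAt.2 fun x => (gE_hasDeriv x).continuousAt

theorem Sz_meas (B D₀ : ℝ) {f : (Fin r → ℝ) → ℝ} (hf : Measurable f) :
    Measurable fun u => Sz B D₀ (f u) := by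
  unfold Sz
  refine (hf.div_const B).div ?_
  exact gE_cont.measurable.comp (Real.measurable_log.comp (hf.div_const D₀))

variable {m D : ℕ}

/-- the terms, sorted by the degree in the parameters and the exponents of the other variables -/
noncomputable def HK (y : Fin k → (Fin r → ℝ) →₀ ℝ) (B D₀ : ℝ)
    (q : Fin (m + 1) × (Fin k → Fin (D + 1)) → (Fin r → ℝ) →₀ ℂ) (z : Fin (m + 1) × (Fin k → Fin (D + 1)))
    (u : Fin r → ℝ) : ℂ :=
  ev (q z) u * ((∏ i, Sz B D₀ (evr (y i) u) ^ (z.2 i : ℕ) : ℝ) : ℂ)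

theorem HK_meas (y : Fin k → (Fin r → ℝ) →₀ ℝ) (B D₀ : ℝ)
    (q : Fin (m + 1) × (Fin k → Fin (D + 1)) → (Fin r → ℝ) →₀ ℂ) (z : Fin (m + 1) × (Fin k → Fin (D + 1))) :
    Measurable (HK y B D₀ q z) := by
  unfold HK
  refine (ev_cont (q z)).measurable.mul ?_
  refine Complex.measurable_ofReal.comp ?_
  exact Finset.measurable_fun_prod _ fun i _ => (Sz_meas B D₀ (evr_cont (y i)).measurable).pow_const _

/-- the set of cancellation -/
def EK (y : Fin k → (Fin r → ℝ) →₀ ℝ) (d : Fin k → ℝ) (B D₀ ρ τ T Dm : ℝ)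
    (q : Fin (m + 1) × (Fin k → Fin (D + 1)) → (Fin r → ℝ) →₀ ℂ) (η : ℝ) : Set (Fin r → ℝ) :=
  {u | (∀ i, 0 < evr (y i) u) ∧
    (∀ i, 1 + Dm ≤ Real.log (evr (y i) u / D₀) ∧ Real.log (evr (y i) u / D₀) ≤ T - Dm) ∧
    (∀ i j, i ≠ j → ρ ≤ |d i - d j| ∨ τ ≤ |Real.log (evr (y i) u / D₀) - Real.log (evr (y j) u / D₀)|) ∧
    ‖∑ z, HK y B D₀ q z u‖ < η * ∑ z, ‖HK y B D₀ q z u‖}

theorem EK_meas (y : Fin k → (Fin r → ℝ) →₀ ℝ) (d : Fin k → ℝ) (B D₀ ρ τ T Dm : ℝ)
    (q : Fin (m + 1) × (Fin k → Fin (D + 1)) → (Fin r → ℝ) →₀ ℂ) (η : ℝ) :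
    MeasurableSet (EK y d B D₀ ρ τ T Dm q η) := by
  have hl : ∀ i, Measurable fun u => Real.log (evr (y i) u / D₀) := fun i =>
    Real.measurable_log.comp ((evr_cont (y i)).measurable.div_const D₀)
  have h1 : MeasurableSet {u : Fin r → ℝ | ∀ i, 0 < evr (y i) u} := by
    rw [Set.ofPred_forall]
    exact MeasurableSet.iInter fun i => (isOpen_lt continuous_const (evr_cont (y i))).measurableSet
  have h2 : MeasurableSet {u : Fin r → ℝ | ∀ i, 1 + Dm ≤ Real.log (evr (y i) u / D₀) ∧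
      Real.log (evr (y i) u / D₀) ≤ T - Dm} := by
    rw [Set.ofPred_forall]
    refine MeasurableSet.iInter fun i => ?_
    exact (measurableSet_le measurable_const (hl i)).inter (measurableSet_le (hl i) measurable_const)
  have h3 : MeasurableSet {u : Fin r → ℝ | ∀ i j, i ≠ j → ρ ≤ |d i - d j| ∨
      τ ≤ |Real.log (evr (y i) u / D₀) - Real.log (evr (y j) u / D₀)|} := by
    rw [Set.ofPred_forall]
    refine MeasurableSet.iInter fun i => ?_
    rw [Set.ofPred_forall]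
    refine MeasurableSet.iInter fun j => ?_
    by_cases hij : i = j
    · simp [hij]
    · by_cases hb : ρ ≤ |d i - d j|
      · simp [hb]
      · simp only [ne_eq, hij, not_false_eq_true, hb, false_or, forall_const]
        exact measurableSet_le measurable_const (((hl i).sub (hl j)).abs)
  have h4 : MeasurableSet {u : Fin r → ℝ | ‖∑ z, HK y B D₀ q z u‖ < η * ∑ z, ‖HK y B D₀ q z u‖} := by
    refine measurableSet_lt ?_ ?_
    · exact (Finset.measurable_fun_sum _ fun z _ => HK_meas y B D₀ q z).norm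
    · exact (Finset.measurable_fun_sum _ fun z _ => (HK_meas y B D₀ q z).norm).const_mul η
  exact h1.inter (h2.inter (h3.inter h4))

theorem rayCov (r k m D : ℕ) (β : ℝ) (hβ : 1 ≤ β) : ∃ (K J : ℕ) (C : ℝ), 1 ≤ C ∧
    ∀ (y : Fin k → (Fin r → ℝ) →₀ ℝ) (d : Fin k → ℝ) (B D₀ ρ τ T : ℝ), (∀ i, Hom (y i) (d i)) →
      (∀ i, β⁻¹ ≤ d i ∧ d i ≤ r * β) → 0 < B → 0 < D₀ → 0 < ρ → ρ ≤ 1 → ρ * 2 ≤ τ →
      ρ * (4 * (1 + T) ^ 2) ≤ τ → ρ * (2 * (β * (1 + T))) ≤ 1 →
      ∀ (q : Fin (m + 1) × (Fin k → Fin (D + 1)) → (Fin r → ℝ) →₀ ℂ), (∀ z, Hom (q z) ((z.1 : ℕ) : ℝ)) →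
        ∀ (np : ℕ), 0 < np → C ≤ np * (ρ ^ (k + k * k)) ^ K → ∀ (η l : ℝ), 0 < η → 0 < l → l ≤ 1 →
          C * η ≤ (ρ ^ (k + k * k)) ^ K * l ^ J → ∀ v : Fin r → ℝ, Cov (np * 2 ^ J) l
            {t | t ∈ Icc (0 : ℝ) 1 ∧ v + t • on r ∈ EK y d B D₀ ρ τ T (r * β) q η} := by
  classical
  have hβ0 : 0 < β := by linarith
  have hinj : Function.Injective fun z : Fin (m + 1) × (Fin k → Fin (D + 1)) =>
      (((z.1 : ℕ)), fun i => (z.2 i : ℕ)) := by
    intro z z' h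
    have h1 : (z.1 : ℕ) = z'.1 := (Prod.ext_iff.1 h).1
    have h2 : (fun i => (z.2 i : ℕ)) = fun i => (z'.2 i : ℕ) := (Prod.ext_iff.1 h).2
    exact Prod.ext (Fin.ext h1) (funext fun i => Fin.ext (congrFun h2 i))
  obtain ⟨K, J, C, hC, hblock⟩ := block (ι := Fin k) (A := Fin (m + 1) × (Fin k → Fin (D + 1)))
    (a₀ := fun z => (z.1 : ℕ)) (a₁ := fun z i => (z.2 i : ℕ)) hinj (M₀ := m + D)
    (fun z => by have := z.1.2; omega) (fun z i => by have := (z.2 i).2; omega) (r * β) (by positivity)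
  refine ⟨K, J, C, hC, ?_⟩
  intro y d B D₀ ρ τ T hHom hd hB hD hρ hρ1 h1 h2 h3 q hq np hnp hCnp η l hη hl hl1 hηl v
  by_cases hex : ∃ t₀, t₀ ∈ Icc (0 : ℝ) 1 ∧ v + t₀ • on r ∈ EK y d B D₀ ρ τ T (r * β) q η
  · obtain ⟨t₀, ht₀, hpos₀, hsize₀, hsep₀, -⟩ := hex
    have hY : ∀ i, 0 < evr (y i) v := by
      intro i
      have h4 := hpos₀ i
      rw [evr_line (hHom i)] at h4
      exact (pos_iff_pos_of_mul_pos h4).2 (Real.exp_pos _)
    have hlogl : ∀ i t, Real.log (evr (y i) (v + t • on r) / D₀) = Real.log (evr (y i) v / D₀) + d i * t := by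
      intro i t
      rw [evr_line (hHom i), mul_div_right_comm, Real.log_mul (div_pos (hY i) hD).ne' (Real.exp_pos _).ne',
        Real.log_exp]
    have hrr := rayRR (k := k) (D₀ := D₀) (Y := fun i => evr (y i) v) hβ hρ hρ1 h1 h2 h3 hd ht₀ (fun i => by
      have h4 := hsize₀ i
      rw [hlogl] at h4
      exact h4) (fun i j hij => by
      have h4 := hsep₀ i j hij
      rw [hlogl, hlogl] at h4
      exact h4)
    have h5 := hblock (fun i => evr (y i) v) d B D₀ hY (fun i => (inv_pos.2 hβ0).trans_le (hd i).1)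
      (fun i => (hd i).2) hB hD _ (ρ ^ (k + k * k)) 0 (by positivity) (by
        intro t ht
        rw [zero_add] at ht
        exact hrr t ht) np hnp hCnp (fun z => ev (q z) v) η l hη hl hl1 hηl
    refine h5.mono le_rfl le_rfl ?_
    rintro t ⟨ht, -, -, -, hlt⟩
    refine ⟨by rw [zero_add]; exact ht, ?_⟩
    have e1 : ∀ z, ev (q z) v * ((hg (fun z : Fin (m + 1) × (Fin k → Fin (D + 1)) => (z.1 : ℕ))
        (fun z i => (z.2 i : ℕ)) (fun i => evr (y i) v) d B D₀ z t : ℝ) : ℂ) =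
        HK y B D₀ q z (v + t • on r) := by
      intro z
      unfold HK hg SS
      rw [ev_line (hq z)]
      have h6 : ∀ i, Sz B D₀ (evr (y i) (v + t • on r)) = Sy B D₀ (evr (y i) v * Real.exp (d i * t)) := by
        intro i
        rw [evr_line (hHom i), Sz_eq hD (mul_pos (hY i) (Real.exp_pos _))]
      simp only [h6]
      push_cast
      ring
    have e2 : ∀ z, ‖ev (q z) v‖ * hg (fun z : Fin (m + 1) × (Fin k → Fin (D + 1)) => (z.1 : ℕ))
        (fun z i => (z.2 i : ℕ)) (fun i => evr (y i) v) d B D₀ z t =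
        ‖HK y B D₀ q z (v + t • on r)‖ := by
      intro z
      rw [← e1, norm_mul, Complex.norm_real, Real.norm_eq_abs, abs_of_pos (hg_pos hY hB hD z t)]
    simp only [e1, e2]
    exact hlt
  · refine (Cov.empty l).mono (Nat.zero_le _) le_rfl ?_
    rintro t ht
    exact absurd ⟨t, ht⟩ hex

end Pool.Agent.Lib.MP_ec260d_ntK
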