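import Mathlib
import Pool.Agent.Lib.MP_ec260d_ntK.RayK
import Pool.Agent.Lib.MP_ec260d_ntG.PertG

/-!
# The change of the terms in a small cell
-/

open Set Filter Topology MeasureTheory

namespace Pool.Agent.Lib.MP_ec260d_ntK

open Pool.Agent.Lib.MP_ec260d_nt Pool.Agent.Lib.MP_ec260d_ntH Pool.Agent.Lib.MP_ec260d_ntG

variable {r k m D : ℕ}

theorem log_rel {a a' τ : ℝ} (ha : 0 < a) (hτ : τ ≤ 1 / 2) (h : |a' - a| ≤ τ * a) :
    0 < a' ∧ |Real.log a' - Real.log a| ≤ 2 * τ := by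
  have h0 := abs_le.1 h
  have hτa : τ * a ≤ 1 / 2 * a := mul_le_mul_of_nonneg_right hτ ha.le
  have ha' : a / 2 ≤ a' := by linarith [h0.1]
  have ha'0 : 0 < a' := by linarith
  have hτ0 : 0 ≤ τ := by
    have h1 : 0 ≤ τ * a := (abs_nonneg _).trans h
    exact nonneg_of_mul_nonneg_left h1 ha
  refine ⟨ha'0, ?_⟩
  have h1 := Real.log_le_sub_one_of_pos (div_pos ha'0 ha)
  have h2 := Real.log_le_sub_one_of_pos (div_pos ha ha'0)
  rw [Real.log_div ha'0.ne' ha.ne'] at h1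
  rw [Real.log_div ha.ne' ha'0.ne'] at h2
  have h3 : a' / a - 1 ≤ τ := by
    rw [sub_le_iff_le_add, div_le_iff₀ ha]
    linarith [h0.2]
  have h4 : a / a' - 1 ≤ 2 * τ := by
    rw [sub_le_iff_le_add, div_le_iff₀ ha'0]
    have h5 : τ * (a / 2) ≤ τ * a' := mul_le_mul_of_nonneg_left ha' hτ0
    linarith [h0.1]
  rw [abs_le]
  constructor <;> linarith

theorem Sz_rel {B D₀ a a' τ : ℝ} (hB : 0 < B) (hD : 0 < D₀) (ha : 0 < a) (hτ : τ ≤ 1 / 2)
    (h : |a' - a| ≤ τ * a) : |Sz B D₀ a' - Sz B D₀ a| ≤ τ * Sz B D₀ a := by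
  obtain ⟨ha', -⟩ := log_rel ha hτ h
  have h0 := abs_le.1 h
  rw [Sz_eq hD ha, Sz_eq hD ha']
  have hS := Sy_pos hB hD ha
  rcases le_total a a' with h1 | h1
  · have h2 := Sy_mono hB hD ha h1
    have h3 := Sy_le hB hD ha h1
    have h4 : a' / a ≤ 1 + τ := by
      rw [div_le_iff₀ ha]
      linarith [h0.2]
    have h5 := mul_le_mul_of_nonneg_right h4 hS.le
    rw [abs_of_nonneg (by linarith)]
    linarith
  · have h2 := Sy_mono hB hD ha' h1
    have h3 := Sy_le hB hD ha' h1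
    have h4 : (1 - τ) ≤ a' / a := by
      rw [le_div_iff₀ ha]
      linarith [h0.1]
    have h5 : a' / a * Sy B D₀ a ≤ Sy B D₀ a' := by
      calc a' / a * Sy B D₀ a ≤ a' / a * (a / a' * Sy B D₀ a') :=
            mul_le_mul_of_nonneg_left h3 (by positivity)
        _ = Sy B D₀ a' := by field_simp
    have h6 := mul_le_mul_of_nonneg_right h4 hS.le
    rw [abs_sub_comm, abs_of_nonneg (by linarith)]
    linarith

/-- the change of a real generalised polynomial in a small cell -/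
theorem evr_cell {y : (Fin r → ℝ) →₀ ℝ} {β ε τ : ℝ} (hy : ∀ b ∈ y.support, ∀ l, 0 ≤ b l ∧ b l ≤ β)
    (hε : 0 ≤ ε) (hG : Real.exp (r * (β * ε)) ≤ 1 + τ) {u v : Fin r → ℝ}
    (huv : ∀ l, u l ≤ v l ∧ v l ≤ u l + ε) : |evr y v - evr y u| ≤ τ * nvr y u := by
  have h1 : evr y v - evr y u = ∑ b ∈ y.support, y b * (Real.exp (dt b v) - Real.exp (dt b u)) := by
    unfold evr
    rw [← Finset.sum_sub_distrib]
    exact Finset.sum_congr rfl fun b _ => by ring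
  rw [h1]
  refine (Finset.abs_sum_le_sum_abs _ _).trans ?_
  unfold nvr
  rw [Finset.mul_sum]
  refine Finset.sum_le_sum fun b hb => ?_
  obtain ⟨h2, h3⟩ := dt_mono (hy b hb) hε huv
  have h4 : Real.exp (dt b v) ≤ (1 + τ) * Real.exp (dt b u) := by
    calc Real.exp (dt b v) ≤ Real.exp (dt b u + r * (β * ε)) := Real.exp_le_exp.2 h3
      _ = Real.exp (r * (β * ε)) * Real.exp (dt b u) := by rw [Real.exp_add]; ring
      _ ≤ _ := mul_le_mul_of_nonneg_right hG (Real.exp_pos _).le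
  have h5 := Real.exp_le_exp.2 h2
  rw [abs_mul, abs_of_nonneg (show 0 ≤ Real.exp (dt b v) - Real.exp (dt b u) by linarith)]
  calc |y b| * (Real.exp (dt b v) - Real.exp (dt b u)) ≤ |y b| * (τ * Real.exp (dt b u)) :=
        mul_le_mul_of_nonneg_left (by linarith) (abs_nonneg _)
    _ = _ := by ring

theorem cellK {y : Fin k → (Fin r → ℝ) →₀ ℝ} {d : Fin k → ℝ} {B D₀ ρ τ T Dm : ℝ}
    {q : Fin (m + 1) × (Fin k → Fin (D + 1)) → (Fin r → ℝ) →₀ ℂ} {η β ε ε' R : ℝ} (hB : 0 < B)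
    (hD : 0 < D₀) (hη : 0 < η) (hη2 : η ≤ 1 / 2)
    (hy : ∀ i, ∀ b ∈ (y i).support, ∀ l, 0 ≤ b l ∧ b l ≤ β)
    (hq : ∀ z, ∀ b ∈ (q z).support, ∀ l, 0 ≤ b l ∧ b l ≤ β) (hε : 0 ≤ ε) (hε' : 0 ≤ ε')
    (hG : Real.exp (r * (β * ε)) ≤ 1 + ε') (hR : 0 ≤ R) (hR4 : R * ε' ≤ 1 / 4)
    (hRη : 12 * 2 ^ (k * D) * (R * ε') ≤ η) (hRτ : 4 * (R * ε') ≤ τ)
    {u v : Fin r → ℝ} (huv : ∀ l, u l ≤ v l ∧ v l ≤ u l + ε)
    (hpos : ∀ i, 0 < evr (y i) u) (hRy : ∀ i, nvr (y i) u ≤ R * evr (y i) u)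
    (hRq : ∀ z, nv (q z) u ≤ R * ‖ev (q z) u‖)
    (hsize : ∀ i, 2 + Dm ≤ Real.log (evr (y i) u / D₀) ∧ Real.log (evr (y i) u / D₀) ≤ T - Dm - 1)
    (hsep : ∀ i j, i ≠ j → ρ ≤ |d i - d j| ∨
      2 * τ ≤ |Real.log (evr (y i) u / D₀) - Real.log (evr (y j) u / D₀)|)
    (hlt : ‖∑ z, HK y B D₀ q z u‖ < η * ∑ z, ‖HK y B D₀ q z u‖) :
    v ∈ EK y d B D₀ ρ τ T Dm q (2 * η) := by
  set τ₁ := R * ε' with hτ₁
  have hτ₁0 : 0 ≤ τ₁ := mul_nonneg hR hε'
  have h2p : (1 : ℝ) ≤ 2 ^ (k * D) := one_le_pow₀ one_le_two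
  have hy' : ∀ i, |evr (y i) v - evr (y i) u| ≤ τ₁ * evr (y i) u := by
    intro i
    refine (evr_cell (hy i) hε hG huv).trans ?_
    calc ε' * nvr (y i) u ≤ ε' * (R * evr (y i) u) := mul_le_mul_of_nonneg_left (hRy i) hε'
      _ = _ := by rw [hτ₁]; ring
  have hq' : ∀ z, ‖ev (q z) v - ev (q z) u‖ ≤ τ₁ * ‖ev (q z) u‖ := by
    intro z
    refine (ev_cell (hq z) hε hG huv).1.trans ?_
    calc ε' * nv (q z) u ≤ ε' * (R * ‖ev (q z) u‖) := mul_le_mul_of_nonneg_left (hRq z) hε'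
      _ = _ := by rw [hτ₁]; ring
  have hlog : ∀ i, 0 < evr (y i) v ∧ |Real.log (evr (y i) v / D₀) - Real.log (evr (y i) u / D₀)| ≤ 2 * τ₁ := by
    intro i
    obtain ⟨h1, h2⟩ := log_rel (hpos i) (by linarith) (hy' i)
    refine ⟨h1, ?_⟩
    rw [Real.log_div h1.ne' hD.ne', Real.log_div (hpos i).ne' hD.ne', sub_sub_sub_cancel_right]
    exact h2
  refine ⟨fun i => (hlog i).1, fun i => ?_, fun i j hij => ?_, ?_⟩
  · have h1 := abs_le.1 (hlog i).2
    have h2 := hsize i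
    constructor
    · linarith [h1.1, h2.1]
    · linarith [h1.2, h2.2]
  · rcases hsep i j hij with h1 | h1
    · exact Or.inl h1
    · right
      have h2 := (hlog i).2
      have h3 := (hlog j).2
      have h4 : |Real.log (evr (y i) u / D₀) - Real.log (evr (y j) u / D₀)| ≤
          |Real.log (evr (y i) v / D₀) - Real.log (evr (y j) v / D₀)| + 4 * τ₁ := by
        have e1 : Real.log (evr (y i) u / D₀) - Real.log (evr (y j) u / D₀) =
            (Real.log (evr (y i) v / D₀) - Real.log (evr (y j) v / D₀)) +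
            ((Real.log (evr (y j) v / D₀) - Real.log (evr (y j) u / D₀)) -
              (Real.log (evr (y i) v / D₀) - Real.log (evr (y i) u / D₀))) := by ring
        rw [e1]
        refine (abs_add_le _ _).trans (add_le_add le_rfl ?_)
        refine (abs_sub _ _).trans ?_
        linarith
      linarith
  · -- the terms
    have hS : ∀ i, |Sz B D₀ (evr (y i) v) - Sz B D₀ (evr (y i) u)| ≤ τ₁ * Sz B D₀ (evr (y i) u) := fun i =>
      Sz_rel hB hD (hpos i) (by linarith) (hy' i)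
    have hSpos : ∀ i, 0 < Sz B D₀ (evr (y i) u) := fun i => by
      rw [Sz_eq hD (hpos i)]
      exact Sy_pos hB hD (hpos i)
    set τ₃ : ℝ := 3 * 2 ^ (k * D) * τ₁ with hτ₃
    have hτ₃0 : 0 ≤ τ₃ := by positivity
    have hτ₃η : τ₃ ≤ η / 4 := by rw [hτ₃]; linarith
    have hterm : ∀ z, ‖HK y B D₀ q z v - HK y B D₀ q z u‖ ≤ τ₃ * ‖HK y B D₀ q z u‖ := by
      intro z
      set p := ∏ i, Sz B D₀ (evr (y i) u) ^ (z.2 i : ℕ) with hp
      set p' := ∏ i, Sz B D₀ (evr (y i) v) ^ (z.2 i : ℕ) with hp'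
      have hp0 : 0 < p := Finset.prod_pos fun i _ => pow_pos (hSpos i) _
      have h1 : |p' - p| ≤ 2 ^ (k * D) * τ₁ * p := by
        have := mono_pertV (V := Fin k) (D := D) hSpos hτ₁0 (by linarith) hS z.2
        rwa [Fintype.card_fin] at this
      have h2 : 2 ^ (k * D) * τ₁ ≤ 1 := by linarith
      have h3 : |p'| ≤ 2 * p := by
        have h4 := abs_sub_abs_le_abs_sub p' p
        rw [abs_of_pos hp0] at h4
        have h5 := mul_le_mul_of_nonneg_right h2 hp0.le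
        linarith
      have e1 : HK y B D₀ q z v - HK y B D₀ q z u =
          (ev (q z) v - ev (q z) u) * ((p' : ℝ) : ℂ) + ev (q z) u * ((p' - p : ℝ) : ℂ) := by
        unfold HK
        rw [← hp, ← hp']
        push_cast
        ring
      have e2 : ‖HK y B D₀ q z u‖ = ‖ev (q z) u‖ * p := by
        unfold HK
        rw [← hp, norm_mul, Complex.norm_real, Real.norm_eq_abs, abs_of_pos hp0]
      rw [e1, e2]
      refine (norm_add_le _ _).trans ?_
      rw [norm_mul, norm_mul, Complex.norm_real, Complex.norm_real, Real.norm_eq_abs, Real.norm_eq_abs]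
      have h6 : ‖ev (q z) v - ev (q z) u‖ * |p'| ≤ (τ₁ * ‖ev (q z) u‖) * (2 * p) :=
        mul_le_mul (hq' z) h3 (abs_nonneg _) (mul_nonneg hτ₁0 (norm_nonneg _))
      have h7 : ‖ev (q z) u‖ * |p' - p| ≤ ‖ev (q z) u‖ * (2 ^ (k * D) * τ₁ * p) :=
        mul_le_mul_of_nonneg_left h1 (norm_nonneg _)
      have h8 : (2 * τ₁ + 2 ^ (k * D) * τ₁) ≤ τ₃ := by
        rw [hτ₃]
        have : 1 * τ₁ ≤ 2 ^ (k * D) * τ₁ := mul_le_mul_of_nonneg_right h2p hτ₁0
        linarith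
      have h9 := mul_le_mul_of_nonneg_right h8 (mul_nonneg (norm_nonneg (ev (q z) u)) hp0.le)
      calc _ ≤ (τ₁ * ‖ev (q z) u‖) * (2 * p) + ‖ev (q z) u‖ * (2 ^ (k * D) * τ₁ * p) := add_le_add h6 h7
        _ = (2 * τ₁ + 2 ^ (k * D) * τ₁) * (‖ev (q z) u‖ * p) := by ring
        _ ≤ _ := h9
    set Wu := ∑ z, ‖HK y B D₀ q z u‖ with hWu
    set Wv := ∑ z, ‖HK y B D₀ q z v‖ with hWv
    have hWu0 : 0 ≤ Wu := Finset.sum_nonneg fun _ _ => norm_nonneg _
    have hd1 : ‖∑ z, HK y B D₀ q z v‖ ≤ ‖∑ z, HK y B D₀ q z u‖ + τ₃ * Wu := by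
      have e1 : ∑ z, HK y B D₀ q z v = ∑ z, HK y B D₀ q z u + ∑ z, (HK y B D₀ q z v - HK y B D₀ q z u) := by
        rw [← Finset.sum_add_distrib]
        exact Finset.sum_congr rfl fun z _ => by ring
      rw [e1]
      refine (norm_add_le _ _).trans (add_le_add le_rfl ((norm_sum_le _ _).trans ?_))
      rw [hWu, Finset.mul_sum]
      exact Finset.sum_le_sum fun z _ => hterm z
    have hd2 : (1 - τ₃) * Wu ≤ Wv := by
      rw [hWu, hWv, Finset.mul_sum]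
      refine Finset.sum_le_sum fun z _ => ?_
      have h1 := hterm z
      have h2 := norm_sub_norm_le (HK y B D₀ q z u) (HK y B D₀ q z v)
      rw [norm_sub_rev] at h2
      linarith
    have h7 : 7 / 8 * Wu ≤ Wv := by
      refine le_trans ?_ hd2
      exact mul_le_mul_of_nonneg_right (by linarith) hWu0
    have h8 : τ₃ * Wu ≤ η / 4 * Wu := mul_le_mul_of_nonneg_right hτ₃η hWu0
    have h9 : 2 * η * (7 / 8 * Wu) ≤ 2 * η * Wv := mul_le_mul_of_nonneg_left h7 (by linarith)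
    have h10 : 0 ≤ η * Wu := mul_nonneg hη.le hWu0
    linarith

end Pool.Agent.Lib.MP_ec260d_ntK
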