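import Mathlib
import Pool.Agent.Lib.MP_ec260d_ntK.CellK

/-!
# Sorting the terms of a polynomial by the degree in the parameters
-/

open Set Filter Topology

namespace Pool.Agent.Lib.MP_ec260d_ntK

open Pool.Agent.Lib.MP_ec260d_nt Pool.Agent.Lib.MP_ec260d_ntH Pool.Agent.Lib.MP_ec260d_ntG

variable {r k D : ℕ}

/-- exponents as real vectors -/
def ra (α : Fin r → Fin (D + 1)) : Fin r → ℝ := fun l => ((α l : ℕ) : ℝ)

theorem ra_inj : Function.Injective (ra : (Fin r → Fin (D + 1)) → (Fin r → ℝ)) := by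
  intro α β h
  funext l
  have h1 := congrFun h l
  unfold ra at h1
  exact Fin.ext (by exact_mod_cast h1)

/-- the part of degree `z.1` in the parameters, and with the exponents `z.2` in the other variables -/
noncomputable def qq (cc : Iy r k D → ℂ) (z : Fin (r * D + 1) × (Fin k → Fin (D + 1))) :
    (Fin r → ℝ) →₀ ℂ :=
  Finsupp.embDomain ⟨ra, ra_inj⟩ (Finsupp.equivFunOnFinite.symm fun α : Fin r → Fin (D + 1) =>
    if (∑ l, (α l : ℕ)) = (z.1 : ℕ) then cc (Sum.elim α z.2) else 0)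

theorem qq_supp (cc : Iy r k D → ℂ) (z : Fin (r * D + 1) × (Fin k → Fin (D + 1))) {b : Fin r → ℝ}
    (hb : b ∈ (qq cc z).support) : ∃ α : Fin r → Fin (D + 1), b = ra α ∧ (∑ l, (α l : ℕ)) = (z.1 : ℕ) ∧
      qq cc z b = cc (Sum.elim α z.2) ∧ cc (Sum.elim α z.2) ≠ 0 := by
  unfold qq at hb ⊢
  rw [Finsupp.support_embDomain, Finset.mem_map] at hb
  obtain ⟨α, hα, rfl⟩ := hb
  rw [Finsupp.mem_support_iff, Finsupp.equivFunOnFinite_symm_apply_apply] at hα
  split_ifs at hα with h1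
  · refine ⟨α, rfl, h1, ?_, hα⟩
    rw [Finsupp.embDomain_apply_self, Finsupp.equivFunOnFinite_symm_apply_apply, if_pos h1]
  · exact absurd rfl hα

theorem qq_card (cc : Iy r k D → ℂ) (z : Fin (r * D + 1) × (Fin k → Fin (D + 1))) :
    (qq cc z).support.card ≤ (D + 1) ^ r := by
  unfold qq
  rw [Finsupp.support_embDomain, Finset.card_map]
  refine (Finset.card_le_univ _).trans (le_of_eq ?_)
  rw [Fintype.card_fun, Fintype.card_fin, Fintype.card_fin]

theorem qq_hom (cc : Iy r k D → ℂ) (z : Fin (r * D + 1) × (Fin k → Fin (D + 1))) :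
    Hom (qq cc z) ((z.1 : ℕ) : ℝ) := by
  intro b hb
  obtain ⟨α, rfl, h1, -⟩ := qq_supp cc z hb
  rw [← h1]
  unfold ra
  push_cast
  rfl

theorem qq_exp (cc : Iy r k D → ℂ) (z : Fin (r * D + 1) × (Fin k → Fin (D + 1))) (b : Fin r → ℝ)
    (hb : b ∈ (qq cc z).support) (l : Fin r) : 0 ≤ b l ∧ b l ≤ D := by
  obtain ⟨α, rfl, -⟩ := qq_supp cc z hb
  unfold ra
  refine ⟨Nat.cast_nonneg _, ?_⟩
  exact_mod_cast Nat.le_of_lt_succ (α l).2

theorem qq_sum {R : Type} [AddCommMonoid R] (cc : Iy r k D → ℂ) (z : Fin (r * D + 1) × (Fin k → Fin (D + 1)))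
    (F : ℂ → (Fin r → ℝ) → R) (hF : ∀ b, F 0 b = 0) :
    ∑ b ∈ (qq cc z).support, F (qq cc z b) b =
      ∑ α : Fin r → Fin (D + 1), if (∑ l, (α l : ℕ)) = (z.1 : ℕ) then F (cc (Sum.elim α z.2)) (ra α) else 0 := by
  classical
  unfold qq
  rw [Finsupp.support_embDomain, Finset.sum_map]
  simp only [Finsupp.embDomain_apply_self, Finsupp.equivFunOnFinite_symm_apply_apply]
  rw [← Finset.sum_subset (Finset.subset_univ (Finsupp.equivFunOnFinite.symm fun α : Fin r → Fin (D + 1) =>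
    if (∑ l, (α l : ℕ)) = (z.1 : ℕ) then cc (Sum.elim α z.2) else 0).support)]
  · refine Finset.sum_congr rfl fun α _ => ?_
    split_ifs with h1
    · rfl
    · exact hF _
  · intro α _ hα
    rw [Finsupp.notMem_support_iff, Finsupp.equivFunOnFinite_symm_apply_apply] at hα
    split_ifs at hα ⊢ with h1
    · rw [hα, hF]
    · rfl

theorem sumQ {R : Type} [Semiring R] (f : Iy r k D → R) (W : (Fin k → Fin (D + 1)) → R) :
    ∑ z : Fin (r * D + 1) × (Fin k → Fin (D + 1)), (∑ α : Fin r → Fin (D + 1),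
      if (∑ l, (α l : ℕ)) = (z.1 : ℕ) then f (Sum.elim α z.2) else 0) * W z.2 =
      ∑ a : Iy r k D, f a * W (fun i => a (.inr i)) := by
  classical
  rw [Fintype.sum_prod_type]
  simp only
  rw [Finset.sum_comm]
  have h1 : ∀ μ : Fin k → Fin (D + 1), ∑ j : Fin (r * D + 1), (∑ α : Fin r → Fin (D + 1),
      if (∑ l, (α l : ℕ)) = (j : ℕ) then f (Sum.elim α μ) else 0) * W μ =
      ∑ α : Fin r → Fin (D + 1), f (Sum.elim α μ) * W μ := by
    intro μ
    rw [← Finset.sum_mul, Finset.sum_comm, Finset.sum_mul]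
    refine Finset.sum_congr rfl fun α _ => ?_
    have h2 : ∑ l, (α l : ℕ) < r * D + 1 := by
      have h3 : ∑ l, (α l : ℕ) ≤ ∑ _l : Fin r, D :=
        Finset.sum_le_sum fun l _ => Nat.le_of_lt_succ (α l).2
      rw [Finset.sum_const, Finset.card_univ, Fintype.card_fin, smul_eq_mul] at h3
      omega
    rw [Finset.sum_eq_single (⟨∑ l, (α l : ℕ), h2⟩ : Fin (r * D + 1))]
    · rw [if_pos rfl]
    · intro j _ hj
      rw [if_neg]
      intro h3
      exact hj (Fin.ext h3.symm)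
    · intro h3
      exact absurd (Finset.mem_univ _) h3
  rw [Finset.sum_congr rfl fun μ _ => h1 μ, Finset.sum_comm]
  rw [← (Equiv.sumArrowEquivProdArrow (Fin r) (Fin k) (Fin (D + 1))).symm.sum_comp, Fintype.sum_prod_type]
  rfl

theorem ra_dt (α : Fin r → Fin (D + 1)) (u : Fin r → ℝ) : dt (ra α) u = ∑ l, ((α l : ℕ) : ℝ) * u l := rfl

/-- the value of the sorted sum -/
theorem HK_sum (y : Fin k → (Fin r → ℝ) →₀ ℝ) (B D₀ : ℝ) (cc : Iy r k D → ℂ) (u : Fin r → ℝ) :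
    ∑ z, HK y B D₀ (qq cc) z u = ∑ a : Iy r k D, cc a *
      ((Real.exp (el a u) * ∏ i, Sz B D₀ (evr (y i) u) ^ (a (.inr i) : ℕ) : ℝ) : ℂ) := by
  unfold HK
  have h1 : ∀ z, ev (qq cc z) u = ∑ α : Fin r → Fin (D + 1), if (∑ l, (α l : ℕ)) = (z.1 : ℕ) then
      (fun a : Iy r k D => cc a * ((Real.exp (el a u) : ℝ) : ℂ)) (Sum.elim α z.2) else 0 := by
    intro z
    unfold ev
    rw [qq_sum cc z (fun c b => c * ((Real.exp (dt b u) : ℝ) : ℂ)) (fun b => zero_mul _)]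
    refine Finset.sum_congr rfl fun α _ => ?_
    rfl
  simp only [h1]
  rw [sumQ (fun a : Iy r k D => cc a * ((Real.exp (el a u) : ℝ) : ℂ))
    (fun μ => ((∏ i, Sz B D₀ (evr (y i) u) ^ (μ i : ℕ) : ℝ) : ℂ))]
  refine Finset.sum_congr rfl fun a _ => ?_
  push_cast
  ring

/-- the sum of the absolute values of the terms -/
theorem nv_sum (cc : Iy r k D → ℂ) (u : Fin r → ℝ) (W : (Fin k → Fin (D + 1)) → ℝ) :
    ∑ z, nv (qq cc z) u * W z.2 = ∑ a : Iy r k D, ‖cc a‖ * (Real.exp (el a u) * W (fun i => a (.inr i))) := by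
  have h1 : ∀ z, nv (qq cc z) u = ∑ α : Fin r → Fin (D + 1), if (∑ l, (α l : ℕ)) = (z.1 : ℕ) then
      (fun a : Iy r k D => ‖cc a‖ * Real.exp (el a u)) (Sum.elim α z.2) else 0 := by
    intro z
    unfold nv
    rw [qq_sum cc z (fun c b => ‖c‖ * Real.exp (dt b u)) (fun b => by rw [norm_zero, zero_mul])]
    refine Finset.sum_congr rfl fun α _ => ?_
    rfl
  simp only [h1]
  rw [sumQ (fun a : Iy r k D => ‖cc a‖ * Real.exp (el a u)) W]
  refine Finset.sum_congr rfl fun a _ => ?_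
  ring

end Pool.Agent.Lib.MP_ec260d_ntK
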