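import Mathlib
import Pool.Agent.Lib.MP_ec260d_ntK.QK

/-!
# Size and separation of the index functions at a point without cancellation
-/

open Set Filter Topology

namespace Pool.Agent.Lib.MP_ec260d_ntK

open Pool.Agent.Lib.MP_ec260d_nt Pool.Agent.Lib.MP_ec260d_ntH Pool.Agent.Lib.MP_ec260d_ntG
open Pool.Agent.Lib.MP_ec260d_ntU (log_sep)

variable {r : ℕ}

/-- complex coefficients -/
noncomputable def cx (y : (Fin r → ℝ) →₀ ℝ) : (Fin r → ℝ) →₀ ℂ :=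
  Finsupp.mapRange (fun a : ℝ => (a : ℂ)) Complex.ofReal_zero y

theorem cx_apply (y : (Fin r → ℝ) →₀ ℝ) (b : Fin r → ℝ) : cx y b = ((y b : ℝ) : ℂ) := by
  unfold cx
  rw [Finsupp.mapRange_apply]

theorem cx_supp (y : (Fin r → ℝ) →₀ ℝ) : (cx y).support = y.support := by
  ext b
  rw [Finsupp.mem_support_iff, Finsupp.mem_support_iff, cx_apply]
  exact not_congr Complex.ofReal_eq_zero

theorem ev_cx (y : (Fin r → ℝ) →₀ ℝ) (u : Fin r → ℝ) : ev (cx y) u = ((evr y u : ℝ) : ℂ) := by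
  unfold ev evr
  rw [cx_supp]
  push_cast
  refine Finset.sum_congr rfl fun b _ => ?_
  rw [cx_apply]

theorem nv_cx (y : (Fin r → ℝ) →₀ ℝ) (u : Fin r → ℝ) : nv (cx y) u = nvr y u := by
  unfold nv nvr
  rw [cx_supp]
  refine Finset.sum_congr rfl fun b _ => ?_
  rw [cx_apply, Complex.norm_real, Real.norm_eq_abs]

theorem evr_eq_sum {y : (Fin r → ℝ) →₀ ℝ} {T : Finset (Fin r → ℝ)} (hT : y.support ⊆ T) (u : Fin r → ℝ) :
    evr y u = ∑ b ∈ T, y b * Real.exp (dt b u) := by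
  unfold evr
  refine Finset.sum_subset hT fun b _ hb => ?_
  rw [Finsupp.notMem_support_iff.1 hb, zero_mul]

theorem evr_sub (y y' : (Fin r → ℝ) →₀ ℝ) (u : Fin r → ℝ) : evr (y - y') u = evr y u - evr y' u := by
  classical
  have h1 : (y - y').support ⊆ y.support ∪ y'.support := Finsupp.support_sub
  rw [evr_eq_sum h1, evr_eq_sum Finset.subset_union_left, evr_eq_sum Finset.subset_union_right,
    ← Finset.sum_sub_distrib]
  refine Finset.sum_congr rfl fun b _ => ?_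
  rw [Finsupp.sub_apply]
  ring

theorem evr_le_nvr (y : (Fin r → ℝ) →₀ ℝ) (u : Fin r → ℝ) : |evr y u| ≤ nvr y u := by
  unfold evr nvr
  refine (Finset.abs_sum_le_sum_abs _ _).trans (le_of_eq ?_)
  refine Finset.sum_congr rfl fun b _ => ?_
  rw [abs_mul, abs_of_pos (Real.exp_pos _)]

theorem dt_low {b u : Fin r → ℝ} {m : ℝ} (hb : ∀ l, 0 ≤ b l) (hu : ∀ l, m ≤ u l) :
    m * ∑ l, b l ≤ dt b u := by
  unfold dt
  rw [Finset.mul_sum]
  refine Finset.sum_le_sum fun l _ => ?_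
  rw [mul_comm]
  exact mul_le_mul_of_nonneg_left (hu l) (hb l)

theorem dt_up {b u : Fin r → ℝ} {m : ℝ} (hb : ∀ l, 0 ≤ b l) (hu : ∀ l, u l ≤ m) :
    dt b u ≤ m * ∑ l, b l := by
  unfold dt
  rw [Finset.mul_sum]
  refine Finset.sum_le_sum fun l _ => ?_
  rw [mul_comm]
  exact mul_le_mul_of_nonneg_right (hu l) (hb l)

theorem nvr_low {N c c₂ : ℝ} (hN : 1 ≤ N) {y : (Fin r → ℝ) →₀ ℝ} {u b : Fin r → ℝ}
    (hu : ∀ l, (1 - c₂) * Real.log N ≤ u l) (hb : b ∈ y.support) (hb0 : ∀ l, 0 ≤ b l)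
    (hyb : N ^ (-c) ≤ |y b|) : N ^ (-c + (1 - c₂) * ∑ l, b l) ≤ nvr y u := by
  have hN0 : 0 < N := by linarith
  have h1 : |y b| * Real.exp (dt b u) ≤ nvr y u :=
    Finset.single_le_sum (f := fun b => |y b| * Real.exp (dt b u))
      (fun _ _ => mul_nonneg (abs_nonneg _) (Real.exp_pos _).le) hb
  refine le_trans ?_ h1
  rw [Real.rpow_add hN0]
  refine mul_le_mul hyb ?_ (Real.rpow_pos_of_pos hN0 _).le (abs_nonneg _)
  rw [Real.rpow_def_of_pos hN0]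
  refine Real.exp_le_exp.2 ?_
  have h2 := dt_low hb0 hu
  linarith

theorem nvr_up {N c : ℝ} (hN : 1 ≤ N) {y : (Fin r → ℝ) →₀ ℝ} {u : Fin r → ℝ} {J : ℕ} {d : ℝ}
    (hu : ∀ l, u l ≤ Real.log N) (hcard : y.support.card ≤ J) (hb0 : ∀ b ∈ y.support, ∀ l, 0 ≤ b l)
    (hyb : ∀ b ∈ y.support, |y b| ≤ N ^ c) (hd : Hom y d) : nvr y u ≤ J * N ^ (c + d) := by
  have hN0 : 0 < N := by linarith
  have hp := Real.rpow_pos_of_pos hN0 (c + d)
  unfold nvr
  calc ∑ b ∈ y.support, |y b| * Real.exp (dt b u) ≤ ∑ _b ∈ y.support, N ^ (c + d) := by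
        refine Finset.sum_le_sum fun b hb => ?_
        rw [Real.rpow_add hN0]
        refine mul_le_mul (hyb b hb) ?_ (Real.exp_pos _).le (Real.rpow_pos_of_pos hN0 _).le
        rw [Real.rpow_def_of_pos hN0]
        refine Real.exp_le_exp.2 ?_
        have h2 := dt_up (hb0 b hb) hu
        rw [hd b hb] at h2
        exact h2
    _ = y.support.card * N ^ (c + d) := by rw [Finset.sum_const, nsmul_eq_mul]
    _ ≤ _ := mul_le_mul_of_nonneg_right (by exact_mod_cast hcard) hp.le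

/-- size of an index function -/
theorem sizeK {N c c₁ c₂ β d : ℝ} (hN : 1 ≤ N) (hc : c ≤ c₁) (hc₂0 : 0 ≤ c₂)
    (hc₂ : c₂ * (r * β + 1) ≤ c₁) {J : ℕ}
    {y : (Fin r → ℝ) →₀ ℝ} {u : Fin r → ℝ} (hu : ∀ l, (1 - c₂) * Real.log N ≤ u l ∧ u l ≤ Real.log N)
    (hcard : y.support.card ≤ J) (hb0 : ∀ b ∈ y.support, ∀ l, 0 ≤ b l)
    (hyb : ∀ b ∈ y.support, N ^ (-c) ≤ |y b| ∧ |y b| ≤ N ^ c) (hd : Hom y d) (hd2 : d ≤ r * β)
    (hpos : 0 < evr y u) (hR : nvr y u ≤ N ^ c₁ * |evr y u|) :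
    N ^ (d - 3 * c₁) ≤ evr y u ∧ evr y u ≤ J * N ^ (c₁ + d) := by
  have hN0 : 0 < N := by linarith
  have hp : ∀ e : ℝ, 0 < N ^ e := fun e => Real.rpow_pos_of_pos hN0 e
  have hne : y.support.Nonempty := by
    by_contra hcon
    rw [Finset.not_nonempty_iff_eq_empty] at hcon
    unfold evr at hpos
    rw [hcon] at hpos
    simp at hpos
  obtain ⟨b, hb⟩ := hne
  constructor
  · have h1 := nvr_low hN (fun l => (hu l).1) hb (hb0 b hb) (hyb b hb).1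
    rw [hd b hb] at h1
    rw [abs_of_pos hpos] at hR
    have h2 : N ^ (-c₁) * N ^ (-c + (1 - c₂) * d) ≤ evr y u := by
      have h3 := h1.trans hR
      have h4 : N ^ (-c₁) * N ^ c₁ = 1 := by
        rw [← Real.rpow_add hN0, neg_add_cancel, Real.rpow_zero]
      calc N ^ (-c₁) * N ^ (-c + (1 - c₂) * d) ≤ N ^ (-c₁) * (N ^ c₁ * evr y u) :=
            mul_le_mul_of_nonneg_left h3 (hp _).le
        _ = evr y u := by rw [← mul_assoc, h4, one_mul]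
    refine le_trans ?_ h2
    rw [← Real.rpow_add hN0]
    refine Real.rpow_le_rpow_of_exponent_le hN ?_
    have h5 : c₂ * d ≤ c₁ := by
      have := mul_le_mul_of_nonneg_left (show d ≤ r * β + 1 by linarith) hc₂0
      linarith
    linarith
  · have h1 := nvr_up hN (fun l => (hu l).2) hcard hb0 (fun b hb => (hyb b hb).2) hd
    have h2 := (le_abs_self _).trans ((evr_le_nvr y u).trans h1)
    refine h2.trans (mul_le_mul_of_nonneg_left ?_ (Nat.cast_nonneg _))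
    exact Real.rpow_le_rpow_of_exponent_le hN (by linarith)

/-- separation of two index functions -/
theorem sepK {N c c₁ c₂ β d d' ρ : ℝ} (hN : 1 ≤ N) (hc : c ≤ c₁) (hc₂0 : 0 ≤ c₂)
    (hc₂ : c₂ * (r * β + 1) ≤ c₁) (hρ : ρ ≤ c₁) {J : ℕ} (hJN : 2 * J ≤ N ^ c₁) (hJ : 0 < J)
    {y y' : (Fin r → ℝ) →₀ ℝ} {u : Fin r → ℝ} (hu : ∀ l, (1 - c₂) * Real.log N ≤ u l ∧ u l ≤ Real.log N)
    (hcard : y.support.card ≤ J) (hcard' : y'.support.card ≤ J)
    (hb0 : ∀ b ∈ y.support, ∀ l, 0 ≤ b l) (hb0' : ∀ b ∈ y'.support, ∀ l, 0 ≤ b l)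
    (hyb : ∀ b ∈ y.support, |y b| ≤ N ^ c) (hyb' : ∀ b ∈ y'.support, |y' b| ≤ N ^ c)
    (hd : Hom y d) (hd' : Hom y' d') (hd2 : d ≤ r * β) (hd2' : d' ≤ r * β)
    (hpos : 0 < evr y u) (hpos' : 0 < evr y' u)
    (hne : y ≠ y') (hdiff : ∀ b, y b ≠ y' b → N ^ (-c) ≤ |y b - y' b|)
    (hR : nvr (y - y') u ≤ N ^ c₁ * |evr (y - y') u|) (hdd : |d - d'| < ρ) :
    2 * N ^ (-(7 * c₁)) ≤ |Real.log (evr y u) - Real.log (evr y' u)| := by
  classical
  have hN0 : 0 < N := by linarith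
  have hp : ∀ e : ℝ, 0 < N ^ e := fun e => Real.rpow_pos_of_pos hN0 e
  obtain ⟨b, hb⟩ : ∃ b, y b ≠ y' b := by
    by_contra hcon
    push Not at hcon
    exact hne (Finsupp.ext hcon)
  have hbs : b ∈ (y - y').support := by
    rw [Finsupp.mem_support_iff, Finsupp.sub_apply]
    exact sub_ne_zero.2 hb
  have hd0 := abs_lt.1 hdd
  -- the degree of `b`
  obtain ⟨hbnn, hbd, hbd2⟩ : (∀ l, 0 ≤ b l) ∧ (d ≤ ∑ l, b l + ρ ∧ d' ≤ ∑ l, b l + ρ) ∧ ∑ l, b l ≤ r * β := by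
    by_cases h1 : y b = 0
    · have h2 : b ∈ y'.support := by
        rw [Finsupp.mem_support_iff]
        intro h3
        exact hb (by rw [h1, h3])
      refine ⟨hb0' b h2, ?_, ?_⟩
      · rw [hd' b h2]
        constructor <;> linarith [hd0.1, hd0.2]
      · rw [hd' b h2]; exact hd2'
    · have h2 : b ∈ y.support := Finsupp.mem_support_iff.2 h1
      refine ⟨hb0 b h2, ?_, ?_⟩
      · rw [hd b h2]
        constructor <;> linarith [hd0.1, hd0.2]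
      · rw [hd b h2]; exact hd2
  set d₀ := ∑ l, b l with hd₀
  have h1 := nvr_low hN (c := c) (fun l => (hu l).1) hbs hbnn (by
    rw [Finsupp.sub_apply]; exact hdiff b hb)
  rw [← hd₀] at h1
  have h2 : N ^ (-c₁) * N ^ (-c + (1 - c₂) * d₀) ≤ |evr y u - evr y' u| := by
    have h3 := h1.trans hR
    rw [evr_sub] at h3
    have h4 : N ^ (-c₁) * N ^ c₁ = 1 := by
      rw [← Real.rpow_add hN0, neg_add_cancel, Real.rpow_zero]
    calc N ^ (-c₁) * N ^ (-c + (1 - c₂) * d₀) ≤ N ^ (-c₁) * (N ^ c₁ * |evr y u - evr y' u|) :=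
          mul_le_mul_of_nonneg_left h3 (hp _).le
      _ = _ := by rw [← mul_assoc, h4, one_mul]
  -- upper bound
  have hup : ∀ {w : (Fin r → ℝ) →₀ ℝ} {e : ℝ}, w.support.card ≤ J → (∀ b ∈ w.support, ∀ l, 0 ≤ b l) →
      (∀ b ∈ w.support, |w b| ≤ N ^ c) → Hom w e → e ≤ d₀ + ρ → evr w u ≤ J * N ^ (2 * c₁ + d₀) := by
    intro w e hw1 hw2 hw3 hw4 he
    have h3 := nvr_up hN (fun l => (hu l).2) hw1 hw2 hw3 hw4
    have h4 := (le_abs_self _).trans ((evr_le_nvr w u).trans h3)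
    refine h4.trans (mul_le_mul_of_nonneg_left ?_ (Nat.cast_nonneg _))
    exact Real.rpow_le_rpow_of_exponent_le hN (by linarith)
  have h3 := log_sep hpos hpos' (hup hcard hb0 hyb hd hbd.1) (hup hcard' hb0' hyb' hd' hbd.2)
  refine le_trans ?_ h3
  have hJ0 : (0 : ℝ) < J := by exact_mod_cast hJ
  rw [le_div_iff₀ (mul_pos hJ0 (hp _))]
  refine le_trans ?_ h2
  have h5 : c₂ * d₀ ≤ c₁ := by
    have := mul_le_mul_of_nonneg_left (show d₀ ≤ r * β + 1 by linarith) hc₂0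
    linarith
  calc 2 * N ^ (-(7 * c₁)) * (J * N ^ (2 * c₁ + d₀)) =
        (2 * J) * (N ^ (-(7 * c₁)) * N ^ (2 * c₁ + d₀)) := by ring
    _ ≤ N ^ c₁ * (N ^ (-(7 * c₁)) * N ^ (2 * c₁ + d₀)) :=
        mul_le_mul_of_nonneg_right hJN (mul_pos (hp _) (hp _)).le
    _ = N ^ (c₁ + (-(7 * c₁) + (2 * c₁ + d₀))) := by rw [← Real.rpow_add hN0, ← Real.rpow_add hN0]
    _ ≤ N ^ (-c₁ + (-c + (1 - c₂) * d₀)) := Real.rpow_le_rpow_of_exponent_le hN (by linarith)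
    _ = _ := by rw [Real.rpow_add hN0]

end Pool.Agent.Lib.MP_ec260d_ntK
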