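import Mathlib
import Pool.Agent.Lib.MP_ec260d_ntK.PtK
import Pool.Agent.Lib.MP_ec260d_ntG.UnifG

/-!
# Numerical conditions, and the cell of a bad point
-/

open Set Filter Topology

namespace Pool.Agent.Lib.MP_ec260d_ntK

open Pool.Agent.Lib.MP_ec260d_nt Pool.Agent.Lib.MP_ec260d_ntH Pool.Agent.Lib.MP_ec260d_ntG

/-- the tuples with a small entry -/
theorem smallK (r N : ℕ) (e : ℝ) : ∃ E : Finset (Fin r → ℕ),
    (E.card : ℝ) ≤ r * ((N : ℝ) ^ e * (N : ℝ) ^ (r - 1)) ∧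
    ∀ n : Fin r → ℕ, (∀ l, 1 ≤ n l ∧ n l ≤ N) → n ∉ E → ∀ l, (N : ℝ) ^ e < n l := by
  classical
  set R : ℕ := ⌊(N : ℝ) ^ e⌋₊ with hR
  have hR0 : (0 : ℝ) ≤ (N : ℝ) ^ e := Real.rpow_nonneg (Nat.cast_nonneg _) _
  refine ⟨Finset.univ.biUnion fun l : Fin r =>
    Fintype.piFinset fun m : Fin r => if m = l then Finset.Icc 1 R else Finset.Icc 1 N, ?_, ?_⟩
  · have h1 : ∀ l : Fin r, (((Fintype.piFinset fun m : Fin r =>
        if m = l then Finset.Icc 1 R else Finset.Icc 1 N).card : ℕ) : ℝ) ≤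
        (N : ℝ) ^ e * (N : ℝ) ^ (r - 1) := by
      intro l
      rw [Fintype.card_piFinset, ← Finset.mul_prod_erase Finset.univ _ (Finset.mem_univ l), if_pos rfl]
      have h2 : ∏ m ∈ Finset.univ.erase l,
          (if m = l then Finset.Icc 1 R else Finset.Icc 1 N).card = N ^ (r - 1) := by
        rw [Finset.prod_congr rfl (g := fun _ => N) (fun m hm => by
          rw [if_neg (Finset.ne_of_mem_erase hm), Nat.card_Icc, Nat.add_sub_cancel])]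
        rw [Finset.prod_const, Finset.card_erase_of_mem (Finset.mem_univ l), Finset.card_univ,
          Fintype.card_fin]
      rw [h2, Nat.card_Icc, Nat.add_sub_cancel]
      push_cast
      exact mul_le_mul_of_nonneg_right (Nat.floor_le hR0) (by positivity)
    calc ((Finset.univ.biUnion fun l : Fin r => Fintype.piFinset fun m : Fin r =>
          if m = l then Finset.Icc 1 R else Finset.Icc 1 N).card : ℝ) ≤
          ∑ l : Fin r, (((Fintype.piFinset fun m : Fin r =>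
            if m = l then Finset.Icc 1 R else Finset.Icc 1 N).card : ℕ) : ℝ) := by
          exact_mod_cast Finset.card_biUnion_le
      _ ≤ ∑ _l : Fin r, (N : ℝ) ^ e * (N : ℝ) ^ (r - 1) := Finset.sum_le_sum fun l _ => h1 l
      _ = _ := by rw [Finset.sum_const, Finset.card_univ, Fintype.card_fin, nsmul_eq_mul]
  · intro n hn hnE l
    by_contra hcon
    push Not at hcon
    apply hnE
    rw [Finset.mem_biUnion]
    refine ⟨l, Finset.mem_univ l, ?_⟩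
    rw [Fintype.mem_piFinset]
    intro m
    by_cases hm : m = l
    · rw [if_pos hm, Finset.mem_Icc, hm]
      exact ⟨(hn l).1, Nat.le_floor hcon⟩
    · rw [if_neg hm, Finset.mem_Icc]
      exact hn m

/-- the differences of the elements of `A`, as complex numbers -/
noncomputable def dif (A : Finset ℝ) : Finset ℂ := by
  classical
  exact ((insert 0 A) ×ˢ (insert 0 A)).image fun z => ((z.1 - z.2 : ℝ) : ℂ)

theorem dif_card (A : Finset ℝ) : (dif A).card ≤ (A.card + 1) ^ 2 := by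
  classical
  unfold dif
  refine Finset.card_image_le.trans ?_
  rw [Finset.card_product, pow_two]
  exact Nat.mul_le_mul (Finset.card_insert_le _ _) (Finset.card_insert_le _ _)

theorem dif_mem (A : Finset ℝ) {a a' : ℝ} (ha : a = 0 ∨ a ∈ A) (ha' : a' = 0 ∨ a' ∈ A) :
    ((a - a' : ℝ) : ℂ) ∈ dif A := by
  classical
  unfold dif
  rw [Finset.mem_image]
  exact ⟨(a, a'), Finset.mem_product.2 ⟨Finset.mem_insert.2 ha, Finset.mem_insert.2 ha'⟩, rfl⟩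

/-- numerical conditions at one `N` -/
structure Num (r k D J : ℕ) (β D₀ c c₁ c₂ : ℝ) (N : ℝ) : Prop where
  one : 1 ≤ N
  rho2 : N ^ (-(8 * c₁)) * 2 ≤ N ^ (-(7 * c₁))
  rhoT : N ^ (-(8 * c₁)) * (4 * (1 + (r * β + 3) * Real.log N) ^ 2) ≤ N ^ (-(7 * c₁))
  rhoB : N ^ (-(8 * c₁)) * (2 * (β * (1 + (r * β + 3) * Real.log N))) ≤ 1
  rhoc : N ^ (-(8 * c₁)) ≤ c₁
  jj : 2 * J ≤ N ^ c₁
  jj2 : (J : ℝ) ≤ N ^ ((1 : ℝ) / 2)
  low : 2 + r * β ≤ 3 / (8 * β) * Real.log N - Real.log D₀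
  upp : -Real.log D₀ ≤ Real.log N
  upp2 : r * β + 1 ≤ Real.log N
  cell : 2 * (r * (β + D + 1)) * N ^ (-((1 : ℝ) / 2)) ≤ 1
  cell2 : N ^ c₁ * (2 * (r * (β + D + 1)) * N ^ (-((1 : ℝ) / 2))) ≤ N ^ (-((1 : ℝ) / 4))
  cell4 : N ^ (-((1 : ℝ) / 4)) ≤ 1 / 4
  cellτ : 4 * N ^ (-((1 : ℝ) / 4)) ≤ N ^ (-(7 * c₁))

theorem num_ev (r k D J : ℕ) (β D₀ c c₁ c₂ : ℝ) (hβ : 1 ≤ β) (hc₁ : 0 < c₁) (hc₁1 : c₁ ≤ 1 / 64) :
    ∀ᶠ N : ℝ in atTop, Num r k D J β D₀ c c₁ c₂ N := by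
  have hβ0 : 0 < β := by linarith
  have hsmall : ∀ (C e : ℝ), 0 < e → ∀ᶠ N : ℝ in atTop, C ≤ N ^ e := fun C e he =>
    (tendsto_rpow_atTop he).eventually_ge_atTop C
  have h1 := hsmall 2 c₁ hc₁
  have h2 := log_small 2 (show (0 : ℝ) ≤ 4 * (r * β + 4) ^ 2 by positivity) hc₁
  have h3 := log_small 1 (show (0 : ℝ) ≤ 2 * β * (r * β + 4) by positivity) (show 0 < 8 * c₁ by linarith)
  have h4 := hsmall (1 / c₁) (8 * c₁) (by linarith)
  have h5 := hsmall (2 * J) c₁ hc₁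
  have h6 := hsmall J ((1 : ℝ) / 2) (by norm_num)
  have h7 : ∀ᶠ N : ℝ in atTop, (2 + r * β + Real.log D₀) / (3 / (8 * β)) ≤ Real.log N :=
    Real.tendsto_log_atTop.eventually_ge_atTop _
  have h8 : ∀ᶠ N : ℝ in atTop, -Real.log D₀ ≤ Real.log N := Real.tendsto_log_atTop.eventually_ge_atTop _
  have h9 : ∀ᶠ N : ℝ in atTop, r * β + 1 ≤ Real.log N := Real.tendsto_log_atTop.eventually_ge_atTop _
  have h10 := hsmall (2 * (r * (β + D + 1))) ((1 : ℝ) / 8) (by norm_num)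
  have h11 := hsmall 4 ((1 : ℝ) / 8) (by norm_num)
  filter_upwards [h1, h2, h3, h4, h5, h6, h7, h8, h9, h10, h11, eventually_ge_atTop (1 : ℝ)] with
    N h1 h2 h3 h4 h5 h6 h7 h8 h9 h10 h11 hN
  have hN0 : 0 < N := by linarith
  have hp : ∀ e : ℝ, 0 < N ^ e := fun e => Real.rpow_pos_of_pos hN0 e
  have hrβ : 0 ≤ r * β := by positivity
  have hL1 : 1 ≤ Real.log N := by linarith
  have e87 : N ^ (-(8 * c₁)) * N ^ c₁ = N ^ (-(7 * c₁)) := by
    rw [← Real.rpow_add hN0]; congr 1; ring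
  have e80 : N ^ (-(8 * c₁)) * N ^ (8 * c₁) = 1 := by
    rw [← Real.rpow_add hN0, neg_add_cancel, Real.rpow_zero]
  have hT : 1 + (r * β + 3) * Real.log N ≤ (r * β + 4) * Real.log N := by linarith
  have hT0 : 0 ≤ 1 + (r * β + 3) * Real.log N := by positivity
  have hmn : N ^ (-((1 : ℝ) / 2)) = N ^ (-((1 : ℝ) / 8)) * N ^ (-(3 / 8 : ℝ)) := by
    rw [← Real.rpow_add hN0]; congr 1; norm_num
  have h18 : N ^ ((1 : ℝ) / 8) * N ^ (-((1 : ℝ) / 8)) = 1 := by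
    rw [← Real.rpow_add hN0, add_neg_cancel, Real.rpow_zero]
  have hcell : 2 * (r * (β + D + 1)) * N ^ (-((1 : ℝ) / 2)) ≤ N ^ (-(3 / 8 : ℝ)) := by
    rw [hmn]
    calc 2 * (r * (β + D + 1)) * (N ^ (-((1 : ℝ) / 8)) * N ^ (-(3 / 8 : ℝ))) ≤
          N ^ ((1 : ℝ) / 8) * (N ^ (-((1 : ℝ) / 8)) * N ^ (-(3 / 8 : ℝ))) :=
          mul_le_mul_of_nonneg_right h10 (mul_pos (hp _) (hp _)).le
      _ = _ := by rw [← mul_assoc, h18, one_mul]
  refine ⟨hN, ?_, ?_, ?_, ?_, h5, h6, ?_, h8, h9, ?_, ?_, ?_, ?_⟩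
  · rw [← e87]
    exact mul_le_mul_of_nonneg_left h1 (hp _).le
  · rw [← e87]
    refine mul_le_mul_of_nonneg_left (le_trans ?_ h2) (hp _).le
    calc 4 * (1 + (r * β + 3) * Real.log N) ^ 2 ≤ 4 * ((r * β + 4) * Real.log N) ^ 2 := by gcongr
      _ = _ := by ring
  · have h12 : 2 * (β * (1 + (r * β + 3) * Real.log N)) ≤ N ^ (8 * c₁) := by
      refine le_trans ?_ h3
      calc 2 * (β * (1 + (r * β + 3) * Real.log N)) ≤ 2 * (β * ((r * β + 4) * Real.log N)) := by gcongr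
        _ = _ := by ring
    exact (mul_le_mul_of_nonneg_left h12 (hp _).le).trans (le_of_eq e80)
  · rw [div_le_iff₀ hc₁] at h4
    calc N ^ (-(8 * c₁)) = N ^ (-(8 * c₁)) * 1 := (mul_one _).symm
      _ ≤ N ^ (-(8 * c₁)) * (N ^ (8 * c₁) * c₁) := mul_le_mul_of_nonneg_left h4 (hp _).le
      _ = c₁ := by rw [← mul_assoc, e80, one_mul]
  · rw [div_le_iff₀ (by positivity)] at h7
    linarith
  · refine hcell.trans ?_
    exact Real.rpow_le_one_of_one_le_of_nonpos hN (by norm_num)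
  · calc N ^ c₁ * (2 * (r * (β + D + 1)) * N ^ (-((1 : ℝ) / 2))) ≤ N ^ c₁ * N ^ (-(3 / 8 : ℝ)) :=
          mul_le_mul_of_nonneg_left hcell (hp _).le
      _ = N ^ (c₁ + -(3 / 8 : ℝ)) := (Real.rpow_add hN0 _ _).symm
      _ ≤ _ := Real.rpow_le_rpow_of_exponent_le hN (by linarith)
  · have h12 : N ^ (-((1 : ℝ) / 4)) ≤ N ^ (-((1 : ℝ) / 8)) :=
      Real.rpow_le_rpow_of_exponent_le hN (by norm_num)
    have h13 : 4 * N ^ (-((1 : ℝ) / 8)) ≤ 1 := by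
      calc 4 * N ^ (-((1 : ℝ) / 8)) ≤ N ^ ((1 : ℝ) / 8) * N ^ (-((1 : ℝ) / 8)) :=
            mul_le_mul_of_nonneg_right h11 (hp _).le
        _ = 1 := h18
    linarith
  · calc 4 * N ^ (-((1 : ℝ) / 4)) ≤ N ^ ((1 : ℝ) / 8) * N ^ (-((1 : ℝ) / 4)) :=
          mul_le_mul_of_nonneg_right h11 (hp _).le
      _ = N ^ ((1 : ℝ) / 8 + -((1 : ℝ) / 4)) := (Real.rpow_add hN0 _ _).symm
      _ ≤ _ := Real.rpow_le_rpow_of_exponent_le hN (by linarith)

variable {r k D J : ℕ}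

theorem sizeN {β D₀ c c₁ c₂ N d : ℝ} (hβ : 1 ≤ β) (hnum : Num r k D J β D₀ c c₁ c₂ N) (hc : c ≤ c₁)
    (hc₁β : c₁ ≤ 1 / (8 * β)) (hc₂0 : 0 ≤ c₂) (hc₂ : c₂ * (r * β + 1) ≤ c₁)
    {y : (Fin r → ℝ) →₀ ℝ} {u : Fin r → ℝ} (hu : ∀ l, (1 - c₂) * Real.log N ≤ u l ∧ u l ≤ Real.log N)
    (hcard : y.support.card ≤ J) (hb0 : ∀ b ∈ y.support, ∀ l, 0 ≤ b l)
    (hyb : ∀ b ∈ y.support, N ^ (-c) ≤ |y b| ∧ |y b| ≤ N ^ c) (hd : Hom y d) (hd1 : β⁻¹ ≤ d)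
    (hd2 : d ≤ r * β) (hpos : 0 < evr y u) (hR : nvr y u ≤ N ^ c₁ * |evr y u|) :
    N ^ (3 / (8 * β)) ≤ evr y u ∧ evr y u ≤ N ^ (r * β + 1) := by
  have hβ0 : 0 < β := by linarith
  have hN := hnum.one
  have hN0 : 0 < N := by linarith
  have hp : ∀ e : ℝ, 0 < N ^ e := fun e => Real.rpow_pos_of_pos hN0 e
  obtain ⟨h1, h2⟩ := sizeK hN hc hc₂0 hc₂ hu hcard hb0 hyb hd hd2 hpos hR
  have h38 : 3 / (8 * β) ≤ d - 3 * c₁ := by
    have e1 : β⁻¹ = 8 * (1 / (8 * β)) := by field_simp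
    have e2 : 3 / (8 * β) = 3 * (1 / (8 * β)) := by ring
    have e3 : 0 < 1 / (8 * β) := by positivity
    rw [e2]
    linarith
  have hc8 : c₁ ≤ 1 / 8 := by
    refine hc₁β.trans ?_
    rw [div_le_div_iff₀ (by positivity) (by norm_num)]
    linarith
  constructor
  · exact (Real.rpow_le_rpow_of_exponent_le hN h38).trans h1
  · refine h2.trans ?_
    calc (J : ℝ) * N ^ (c₁ + d) ≤ N ^ ((1 : ℝ) / 2) * N ^ (c₁ + d) :=
          mul_le_mul_of_nonneg_right hnum.jj2 (hp _).le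
      _ = N ^ ((1 : ℝ) / 2 + (c₁ + d)) := (Real.rpow_add hN0 _ _).symm
      _ ≤ _ := Real.rpow_le_rpow_of_exponent_le hN (by linarith)

theorem cellN {β D₀ B c c₁ c₂ N η : ℝ} (hβ : 1 ≤ β) (hB : 0 < B) (hD : 0 < D₀)
    (hnum : Num r k D J β D₀ c c₁ c₂ N) (hc : c ≤ c₁) (hc₁β : c₁ ≤ 1 / (8 * β))
    (hc₂0 : 0 ≤ c₂) (hc₂ : c₂ * (r * β + 1) ≤ c₁) (hη : 0 < η) (hη2 : η ≤ 1 / 2)
    (hηN : 12 * 2 ^ (k * D) * N ^ (-((1 : ℝ) / 4)) ≤ η)
    {y : Fin k → (Fin r → ℝ) →₀ ℝ} {d : Fin k → ℝ} (hinj : Function.Injective y)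
    (hcard : ∀ i, (y i).support.card ≤ J) (hexp : ∀ i, ∀ b ∈ (y i).support, ∀ l, 0 ≤ b l ∧ b l ≤ β)
    (hcoef : ∀ i, ∀ b ∈ (y i).support, N ^ (-c) ≤ |y i b| ∧ |y i b| ≤ N ^ c)
    (hdiff : ∀ i j b, y i b ≠ y j b → N ^ (-c) ≤ |y i b - y j b|)
    (hHom : ∀ i, Hom (y i) (d i)) (hd : ∀ i, β⁻¹ ≤ d i ∧ d i ≤ r * β) (cc : Iy r k D → ℂ) {u : Fin r → ℝ}
    (hu : ∀ l, (1 - c₂) * Real.log N ≤ u l ∧ u l ≤ Real.log N) (hpos : ∀ i, 0 < evr (y i) u)
    (hRy : ∀ i, nvr (y i) u ≤ N ^ c₁ * |evr (y i) u|)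
    (hRd : ∀ i j, nvr (y i - y j) u ≤ N ^ c₁ * |evr (y i - y j) u|)
    (hRq : ∀ z, nv (qq cc z) u ≤ N ^ c₁ * ‖ev (qq cc z) u‖)
    (hlt : ‖∑ z, HK y B D₀ (qq cc) z u‖ < η * ∑ z, ‖HK y B D₀ (qq cc) z u‖) {v : Fin r → ℝ}
    (huv : ∀ l, u l ≤ v l ∧ v l ≤ u l + N ^ (-((1 : ℝ) / 2))) :
    v ∈ EK y d B D₀ (N ^ (-(8 * c₁))) (N ^ (-(7 * c₁))) ((r * β + 3) * Real.log N) (r * β) (qq cc) (2 * η) := by
  have hβ0 : 0 < β := by linarith
  have hN := hnum.one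
  have hN0 : 0 < N := by linarith
  have hp : ∀ e : ℝ, 0 < N ^ e := fun e => Real.rpow_pos_of_pos hN0 e
  have hD0 : (0 : ℝ) ≤ D := Nat.cast_nonneg _
  have hr0 : (0 : ℝ) ≤ r := Nat.cast_nonneg _
  have hcell0 : 0 ≤ 2 * (r * (β + D + 1)) * N ^ (-((1 : ℝ) / 2)) := by
    have := (hp (-((1 : ℝ) / 2))).le
    positivity
  have h4 := (hp (-((1 : ℝ) / 4))).le
  refine cellK (β := β + D + 1) (ε := N ^ (-((1 : ℝ) / 2)))
    (ε' := 2 * (r * (β + D + 1)) * N ^ (-((1 : ℝ) / 2))) (R := N ^ c₁) hB hD hη hη2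
    (fun i b hb l => ⟨(hexp i b hb l).1, by linarith [(hexp i b hb l).2]⟩)
    (fun z b hb l => ⟨(qq_exp cc z b hb l).1, by linarith [(qq_exp cc z b hb l).2]⟩) (hp _).le hcell0 ?_
    (hp _).le (hnum.cell2.trans hnum.cell4) ?_ ?_ huv hpos ?_ hRq ?_ ?_ hlt
  · have h0 : 0 ≤ r * ((β + D + 1) * N ^ (-((1 : ℝ) / 2))) := by
      have := (hp (-((1 : ℝ) / 2))).le
      positivity
    have e1 : 2 * (r * (β + D + 1)) * N ^ (-((1 : ℝ) / 2)) =
        2 * (r * ((β + D + 1) * N ^ (-((1 : ℝ) / 2)))) := by ring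
    have h1 : r * ((β + D + 1) * N ^ (-((1 : ℝ) / 2))) ≤ 1 := by
      have := hnum.cell
      rw [e1] at this
      linarith
    have h2 := Real.abs_exp_sub_one_le (x := r * ((β + D + 1) * N ^ (-((1 : ℝ) / 2))))
      (by rw [abs_of_nonneg h0]; exact h1)
    rw [abs_of_nonneg h0] at h2
    have h3 := (abs_le.1 h2).2
    rw [e1]
    linarith
  · refine le_trans ?_ hηN
    exact mul_le_mul_of_nonneg_left hnum.cell2 (by positivity)
  · refine le_trans ?_ hnum.cellτ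
    exact mul_le_mul_of_nonneg_left hnum.cell2 (by norm_num)
  · intro i
    have := hRy i
    rwa [abs_of_pos (hpos i)] at this
  · intro i
    obtain ⟨h1, h2⟩ := sizeN hβ hnum hc hc₁β hc₂0 hc₂ hu (hcard i) (fun b hb l => (hexp i b hb l).1)
      (hcoef i) (hHom i) (hd i).1 (hd i).2 (hpos i) (hRy i)
    have h3 := Real.log_le_log (hp _) h1
    have h5 := Real.log_le_log (hpos i) h2
    rw [Real.log_rpow hN0] at h3 h5
    rw [Real.log_div (hpos i).ne' hD.ne']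
    have h6 := hnum.low
    have h7 := hnum.upp
    have h8 := hnum.upp2
    constructor
    · linarith
    · linarith
  · intro i j hij
    by_cases hdd : N ^ (-(8 * c₁)) ≤ |d i - d j|
    · exact Or.inl hdd
    · right
      push Not at hdd
      have hJ : 0 < J := by
        refine lt_of_lt_of_le ?_ (hcard i)
        rw [Finset.card_pos]
        by_contra hcon
        rw [Finset.not_nonempty_iff_eq_empty] at hcon
        have h1 := hpos i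
        unfold evr at h1
        rw [hcon] at h1
        simp at h1
      have h1 := sepK hN hc hc₂0 hc₂ hnum.rhoc hnum.jj hJ hu (hcard i) (hcard j)
        (fun b hb l => (hexp i b hb l).1) (fun b hb l => (hexp j b hb l).1)
        (fun b hb => (hcoef i b hb).2) (fun b hb => (hcoef j b hb).2) (hHom i) (hHom j) (hd i).2 (hd j).2
        (hpos i) (hpos j) (fun h => hij (hinj h)) (hdiff i j) (hRd i j) hdd
      rw [Real.log_div (hpos i).ne' hD.ne', Real.log_div (hpos j).ne' hD.ne', sub_sub_sub_cancel_right]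
      exact h1

end Pool.Agent.Lib.MP_ec260d_ntK
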