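import Mathlib
import Pool.Agent.Lib.MP_ec260d_ntK.NumK

/-!
# From the model to the values of the polynomial
-/

open Set Filter Topology

namespace Pool.Agent.Lib.MP_ec260d_ntK

open Pool.Agent.Lib.MP_ec260d_nt Pool.Agent.Lib.MP_ec260d_ntH Pool.Agent.Lib.MP_ec260d_ntG

/-- the model values -/
noncomputable def XK {r k : ℕ} (y : Fin k → (Fin r → ℝ) →₀ ℝ) (B D₀ : ℝ) (n : Fin r → ℝ) :
    Fin r ⊕ Fin k → ℝ := Sum.elim n fun i => Sy B D₀ (evr (y i) fun l => Real.log (n l))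

theorem XK_prod {r k D : ℕ} {y : Fin k → (Fin r → ℝ) →₀ ℝ} {B D₀ : ℝ} (hD : 0 < D₀) {n : Fin r → ℝ}
    (hn : ∀ l, 0 < n l) (hpos : ∀ i, 0 < evr (y i) fun l => Real.log (n l)) (a : Iy r k D) :
    Real.exp (el a fun l => Real.log (n l)) *
      ∏ i, Sz B D₀ (evr (y i) fun l => Real.log (n l)) ^ (a (.inr i) : ℕ) =
      ∏ o, XK y B D₀ n o ^ (a o : ℕ) := by
  rw [Fintype.prod_sum_type]
  unfold XK
  simp only [Sum.elim_inl, Sum.elim_inr]
  congr 1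
  · unfold el
    rw [Real.exp_sum]
    refine Finset.prod_congr rfl fun l _ => ?_
    rw [Real.exp_nat_mul, Real.exp_log (hn l)]
  · refine Finset.prod_congr rfl fun i _ => ?_
    rw [Sz_eq hD (hpos i)]

/-- no cancellation for the model, in the original monomials -/
theorem modelK {r k D : ℕ} {y : Fin k → (Fin r → ℝ) →₀ ℝ} {B D₀ N η c₁ : ℝ} (hB : 0 < B) (hD : 0 < D₀)
    (hN : 0 < N) (hη0 : 0 ≤ η) {n : Fin r → ℝ} (hn : ∀ l, 0 < n l)
    (hpos : ∀ i, 0 < evr (y i) fun l => Real.log (n l)) (cc : Iy r k D → ℂ)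
    (hgood0 : η * ∑ z, ‖HK y B D₀ (qq cc) z (fun l => Real.log (n l))‖ ≤
        ‖∑ z, HK y B D₀ (qq cc) z (fun l => Real.log (n l))‖)
    (hRq : ∀ z, nv (qq cc z) (fun l => Real.log (n l)) ≤ N ^ c₁ * ‖ev (qq cc z) fun l => Real.log (n l)‖) :
    η * N ^ (-c₁) * ∑ α : Iy r k D, ‖cc α‖ * ∏ o, XK y B D₀ n o ^ (α o : ℕ) ≤
        ‖∑ α : Iy r k D, cc α * ((∏ o, XK y B D₀ n o ^ (α o : ℕ) : ℝ) : ℂ)‖ := by
  have hprod := fun a : Iy r k D => XK_prod (B := B) (y := y) hD hn hpos a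
  rw [HK_sum] at hgood0
  have e1 : ∀ a : Iy r k D, cc a * ((Real.exp (el a fun l => Real.log (n l)) *
      ∏ i, Sz B D₀ (evr (y i) fun l => Real.log (n l)) ^ (a (.inr i) : ℕ) : ℝ) : ℂ) =
      cc a * ((∏ o, XK y B D₀ n o ^ (a o : ℕ) : ℝ) : ℂ) := fun a => by rw [hprod a]
  rw [Finset.sum_congr rfl fun a _ => e1 a] at hgood0
  refine le_trans ?_ hgood0
  rw [mul_assoc]
  refine mul_le_mul_of_nonneg_left ?_ hη0
  have e2 := nv_sum cc (fun l => Real.log (n l)) (fun μ : Fin k → Fin (D + 1) =>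
    ∏ i, Sz B D₀ (evr (y i) fun l => Real.log (n l)) ^ (μ i : ℕ))
  have e3 : ∑ α : Iy r k D, ‖cc α‖ * ∏ o, XK y B D₀ n o ^ (α o : ℕ) =
      ∑ z : Fin (r * D + 1) × (Fin k → Fin (D + 1)), nv (qq cc z) (fun l => Real.log (n l)) *
        ∏ i, Sz B D₀ (evr (y i) fun l => Real.log (n l)) ^ (z.2 i : ℕ) := by
    rw [e2]
    refine Finset.sum_congr rfl fun a _ => ?_
    rw [← hprod a]
  rw [e3, Finset.mul_sum]
  refine Finset.sum_le_sum fun z _ => ?_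
  have hSz : 0 < ∏ i, Sz B D₀ (evr (y i) fun l => Real.log (n l)) ^ (z.2 i : ℕ) :=
    Finset.prod_pos fun i _ => pow_pos (by rw [Sz_eq hD (hpos i)]; exact Sy_pos hB hD (hpos i)) _
  unfold HK
  rw [norm_mul, Complex.norm_real, Real.norm_eq_abs, abs_of_pos hSz, ← mul_assoc]
  refine mul_le_mul_of_nonneg_right ?_ hSz.le
  have e4 : N ^ (-c₁) * N ^ c₁ = 1 := by
    rw [← Real.rpow_add hN, neg_add_cancel, Real.rpow_zero]
  calc N ^ (-c₁) * nv (qq cc z) (fun l => Real.log (n l)) ≤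
        N ^ (-c₁) * (N ^ c₁ * ‖ev (qq cc z) fun l => Real.log (n l)‖) :=
        mul_le_mul_of_nonneg_left (hRq z) (Real.rpow_pos_of_pos hN _).le
    _ = _ := by rw [← mul_assoc, e4, one_mul]

theorem finK {r k D : ℕ} {y : Fin k → (Fin r → ℝ) →₀ ℝ} {B D₀ N δ c₁ γ κ : ℝ} (hB : 0 < B) (hD : 0 < D₀)
    (hN : 1 ≤ N) (hc₁0 : 0 ≤ c₁) (hγ : δ + (δ + c₁) ≤ γ) (hκ : δ + c₁ ≤ κ)
    (hη8 : N ^ (-δ) ≤ 1 / 8) (hpw : 2 ^ (Fintype.card (Fin r ⊕ Fin k) * D) * N ^ (-δ) ≤ 1)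
    {n : Fin r → ℕ} (hn : ∀ l, (0 : ℝ) < n l) (hpos : ∀ i, 0 < evr (y i) fun l => Real.log (n l))
    (P : MvPolynomial (Fin r ⊕ Fin k) ℂ) (hP0 : P ≠ 0) (hPD : P.totalDegree ≤ D) (s : Fin k → ℝ)
    (hs : ∀ i, |s i - Sy B D₀ (evr (y i) fun l => Real.log (n l))| ≤
      N ^ (-γ) * Sy B D₀ (evr (y i) fun l => Real.log (n l)))
    (hgood0 : 4 * N ^ (-δ) * ∑ z, ‖HK y B D₀ (qq fun α : Iy r k D => P.coeff (phv α)) z
        (fun l => Real.log (n l))‖ ≤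
        ‖∑ z, HK y B D₀ (qq fun α : Iy r k D => P.coeff (phv α)) z (fun l => Real.log (n l))‖)
    (hRq : ∀ z, nv (qq (fun α : Iy r k D => P.coeff (phv α)) z) (fun l => Real.log (n l)) ≤
      N ^ c₁ * ‖ev (qq (fun α : Iy r k D => P.coeff (phv α)) z) fun l => Real.log (n l)‖) :
    MvPolynomial.eval (Sum.elim (fun l => (n l : ℂ)) (fun i => ((s i : ℝ) : ℂ))) P ≠ 0 ∧
      ∀ α : Fin r ⊕ Fin k →₀ ℕ,
        ‖P.coeff α‖ * ((∏ l, (n l : ℝ) ^ (α (.inl l))) * ∏ i, |s i| ^ (α (.inr i))) ≤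
        N ^ κ * ‖MvPolynomial.eval (Sum.elim (fun l => (n l : ℂ)) (fun i => ((s i : ℝ) : ℂ))) P‖ := by
  classical
  have hNpos : 0 < N := by linarith
  have hp : ∀ e : ℝ, 0 < N ^ e := fun e => Real.rpow_pos_of_pos hNpos e
  have hgood := modelK hB hD hNpos (by have := hp (-δ); positivity) hn hpos _ hgood0 hRq
  have hXpos : ∀ o, 0 < XK y B D₀ (fun l => (n l : ℝ)) o := by
    intro o
    cases o with
    | inl l => exact hn l
    | inr i => exact Sy_pos hB hD (hpos i)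
  have hη'0 : 0 < 4 * N ^ (-δ) * N ^ (-c₁) := by
    have := hp (-δ)
    have := hp (-c₁)
    positivity
  have hNc₁ : N ^ (-c₁) ≤ 1 := Real.rpow_le_one_of_one_le_of_nonpos hN (by linarith)
  have hη'1 : 4 * N ^ (-δ) * N ^ (-c₁) ≤ 1 := by
    have : 4 * N ^ (-δ) * N ^ (-c₁) ≤ 1 / 2 * 1 :=
      mul_le_mul (by linarith) hNc₁ (hp _).le (by norm_num)
    linarith
  have hε0 : 0 ≤ N ^ (-γ) := (hp _).le
  have h2V : (1 : ℝ) ≤ 2 ^ (Fintype.card (Fin r ⊕ Fin k) * D) := one_le_pow₀ one_le_two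
  have hεη0 : 2 ^ (Fintype.card (Fin r ⊕ Fin k) * D) * N ^ (-γ) ≤ N ^ (-δ) * N ^ (-c₁) := by
    have h1 : N ^ (-γ) ≤ N ^ (-δ) * (N ^ (-δ) * N ^ (-c₁)) := by
      rw [← Real.rpow_add hNpos, ← Real.rpow_add hNpos]
      exact Real.rpow_le_rpow_of_exponent_le hN (by linarith)
    have hNδ := hp (-δ)
    have hNc := hp (-c₁)
    calc 2 ^ (Fintype.card (Fin r ⊕ Fin k) * D) * N ^ (-γ) ≤
          2 ^ (Fintype.card (Fin r ⊕ Fin k) * D) * (N ^ (-δ) * (N ^ (-δ) * N ^ (-c₁))) :=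
          mul_le_mul_of_nonneg_left h1 (by positivity)
      _ = (2 ^ (Fintype.card (Fin r ⊕ Fin k) * D) * N ^ (-δ)) * (N ^ (-δ) * N ^ (-c₁)) := by ring
      _ ≤ 1 * (N ^ (-δ) * N ^ (-c₁)) := mul_le_mul_of_nonneg_right hpw (by positivity)
      _ = _ := one_mul _
  have hprodpos : 0 < N ^ (-δ) * N ^ (-c₁) := mul_pos (hp _) (hp _)
  have hclose : ∀ o, |(Sum.elim (fun l => (n l : ℝ)) s : Fin r ⊕ Fin k → ℝ) o -
      XK y B D₀ (fun l => (n l : ℝ)) o| ≤ N ^ (-γ) * XK y B D₀ (fun l => (n l : ℝ)) o := by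
    intro o
    cases o with
    | inl l =>
      have h1 : (Sum.elim (fun l => (n l : ℝ)) s : Fin r ⊕ Fin k → ℝ) (.inl l) -
        XK y B D₀ (fun l => (n l : ℝ)) (.inl l) = 0 := sub_self _
      rw [h1, abs_zero]
      exact mul_nonneg hε0 (hXpos _).le
    | inr i => exact hs i
  have hmain := good_pertV (D := D) hXpos hε0 hη'0 hη'1 (by linarith) hclose P hPD hgood
  have hspos : ∀ i, |s i| = s i := by
    intro i
    have h1 := abs_le.1 (hs i)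
    have h2 : 0 < Sy B D₀ (evr (y i) fun l => Real.log (n l)) := Sy_pos hB hD (hpos i)
    have h3 : N ^ (-γ) ≤ 1 / 2 := by
      have h6 : 1 * N ^ (-γ) ≤ 2 ^ (Fintype.card (Fin r ⊕ Fin k) * D) * N ^ (-γ) :=
        mul_le_mul_of_nonneg_right h2V hε0
      linarith
    have h5 := mul_le_mul_of_nonneg_right h3 h2.le
    exact abs_of_nonneg (by linarith [h1.1])
  have hvv : (Sum.elim (fun l => (n l : ℂ)) (fun i => ((s i : ℝ) : ℂ)) : Fin r ⊕ Fin k → ℂ) =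
      fun o => (((Sum.elim (fun l => (n l : ℝ)) s : Fin r ⊕ Fin k → ℝ) o : ℝ) : ℂ) := by
    funext o
    cases o with
    | inl l => simp
    | inr i => simp
  rw [hvv]
  have h4η : 4 / (4 * N ^ (-δ) * N ^ (-c₁)) ≤ N ^ κ := by
    have h1 : 4 / (4 * N ^ (-δ) * N ^ (-c₁)) = N ^ (δ + c₁) := by
      have e1 : N ^ (-δ) * N ^ δ = 1 := by
        rw [← Real.rpow_add hNpos, neg_add_cancel, Real.rpow_zero]
      have e2 : N ^ (-c₁) * N ^ c₁ = 1 := by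
        rw [← Real.rpow_add hNpos, neg_add_cancel, Real.rpow_zero]
      rw [div_eq_iff hη'0.ne', Real.rpow_add hNpos]
      calc (4 : ℝ) = 4 * 1 * 1 := by norm_num
        _ = 4 * (N ^ (-δ) * N ^ δ) * (N ^ (-c₁) * N ^ c₁) := by rw [e1, e2]
        _ = _ := by ring
    rw [h1]
    exact Real.rpow_le_rpow_of_exponent_le hN hκ
  have hex : ∀ d : Fin r ⊕ Fin k →₀ ℕ, P.coeff d ≠ 0 → ∃ α : Iy r k D, phv α = d := by
    intro d hd
    have hle : ∀ o, d o ≤ D := fun o =>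
      (MvPolynomial.monomial_le_degreeOf o (MvPolynomial.mem_support_iff.2 hd)).trans
        ((MvPolynomial.degreeOf_le_totalDegree P o).trans hPD)
    refine ⟨fun o => ⟨d o, Nat.lt_succ_of_le (hle o)⟩, ?_⟩
    ext o
    rw [phv_apply]
  constructor
  · obtain ⟨d, hd⟩ := MvPolynomial.ne_zero_iff.1 hP0
    obtain ⟨α, rfl⟩ := hex d hd
    obtain ⟨h1, h2⟩ := hmain α
    intro h0
    rw [h0, norm_zero, mul_zero] at h2
    exact absurd h2 (not_le.2 (mul_pos (norm_pos_iff.2 hd) h1))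
  · intro d
    by_cases hd : P.coeff d = 0
    · rw [hd, norm_zero, zero_mul]
      exact mul_nonneg (Real.rpow_nonneg hNpos.le _) (norm_nonneg _)
    · obtain ⟨α, rfl⟩ := hex d hd
      have h2 := (hmain α).2
      have h3 : (∏ l, (n l : ℝ) ^ (phv α (.inl l))) * ∏ i, |s i| ^ (phv α (.inr i)) =
          ∏ o, (Sum.elim (fun l => (n l : ℝ)) s : Fin r ⊕ Fin k → ℝ) o ^ (α o : ℕ) := by
        rw [Fintype.prod_sum_type]
        simp only [phv_apply, hspos]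
        rfl
      rw [h3]
      exact h2.trans (mul_le_mul_of_nonneg_right h4η (norm_nonneg _))

end Pool.Agent.Lib.MP_ec260d_ntK
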