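import Mathlib
import Pool.Agent.Lib.MP_ec260d_ntK.NumK
import Pool.Agent.Lib.MP_ec260d_ntK.CanF

/-!
# Points without cancellation in the index functions and in the coefficients
-/

open Set Filter Topology

namespace Pool.Agent.Lib.MP_ec260d_ntK

open Pool.Agent.Lib.MP_ec260d_nt Pool.Agent.Lib.MP_ec260d_ntH Pool.Agent.Lib.MP_ec260d_ntG

/-- an admissible index function -/
structure Adm (r J : ℕ) (β c N : ℝ) (y : (Fin r → ℝ) →₀ ℝ) : Prop where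
  card : y.support.card ≤ J
  exp : ∀ b ∈ y.support, ∀ l, 0 ≤ b l ∧ b l ≤ β
  coef : ∀ b ∈ y.support, N ^ (-c) ≤ |y b| ∧ |y b| ≤ N ^ c
  deg : ∃ d, β⁻¹ ≤ d ∧ Hom y d

/-- two separated index functions -/
structure Sep2 (r : ℕ) (c N : ℝ) (y y' : (Fin r → ℝ) →₀ ℝ) : Prop where
  exp : ∀ b ∈ y.support, ∀ b' ∈ y'.support, b ≠ b' → N ^ (-c) ≤ ∑ l, |b l - b' l|
  coef : ∀ b, y b ≠ y' b → N ^ (-c) ≤ |y b - y' b|

/-- the hypotheses at one `N` -/
structure Hyp (r J : ℕ) (β c : ℝ) (N : ℕ) (Y : Finset ((Fin r → ℝ) →₀ ℝ)) (A : Finset ℂ) : Prop where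
  cY : (Y.card : ℝ) ≤ (N : ℝ) ^ c
  cA : (A.card : ℝ) ≤ (N : ℝ) ^ c
  adm : ∀ y ∈ Y, Adm r J β c N y
  sep : ∀ y ∈ Y, ∀ y' ∈ Y, Sep2 r c N y y'

/-- no cancellation in the index functions, their differences and the coefficients -/
structure OK (r k D : ℕ) (Y : Finset ((Fin r → ℝ) →₀ ℝ)) (A : Finset ℂ) (c₁ c₂ : ℝ) (N : ℕ)
    (n : Fin r → ℕ) : Prop where
  big : ∀ l, (N : ℝ) ^ (1 - c₂) < n l
  u : ∀ l, (1 - c₂) * Real.log N ≤ Real.log (n l) ∧ Real.log (n l) ≤ Real.log N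
  ry : ∀ y ∈ Y, nvr y (fun l => Real.log (n l)) ≤ (N : ℝ) ^ c₁ * |evr y fun l => Real.log (n l)|
  rd : ∀ y ∈ Y, ∀ y' ∈ Y, nvr (y - y') (fun l => Real.log (n l)) ≤
    (N : ℝ) ^ c₁ * |evr (y - y') fun l => Real.log (n l)|
  rq : ∀ cc : Iy r k D → ℂ, (∀ α, cc α = 0 ∨ cc α ∈ A) → ∀ z,
    nv (qq cc z) (fun l => Real.log (n l)) ≤ (N : ℝ) ^ c₁ * ‖ev (qq cc z) fun l => Real.log (n l)‖

theorem ra_sep {r D : ℕ} {α α' : Fin r → Fin (D + 1)} (hne : ra α ≠ ra α') :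
    1 ≤ ∑ l, |ra α l - ra α' l| := by
  obtain ⟨l, hl⟩ : ∃ l, α l ≠ α' l := by
    by_contra hcon
    push Not at hcon
    exact hne (by rw [funext hcon])
  have h2 : |ra α l - ra α' l| ≤ ∑ l, |ra α l - ra α' l| :=
    Finset.single_le_sum (f := fun l => |ra α l - ra α' l|) (fun _ _ => abs_nonneg _) (Finset.mem_univ l)
  refine le_trans ?_ h2
  unfold ra
  have h3 : ((α l : ℕ) : ℤ) - ((α' l : ℕ) : ℤ) ≠ 0 := by
    intro h4
    apply hl
    have h5 : (α l : ℕ) = (α' l : ℕ) := by omega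
    exact Fin.ext h5
  have h4 := Int.one_le_abs h3
  have h5 : (1 : ℝ) ≤ |(((α l : ℕ) : ℤ) : ℝ) - (((α' l : ℕ) : ℤ) : ℝ)| := by exact_mod_cast h4
  simpa using h5

theorem famK {r J : ℕ} {β c cA : ℝ} {N : ℕ} {Y : Finset ((Fin r → ℝ) →₀ ℝ)} {A : Finset ℂ} (hN : 1 ≤ N)
    (hc : c ≤ cA / 2) (h2 : 2 ≤ (N : ℝ) ^ cA) (hc0 : 0 < c) (hH : Hyp r J β c N Y A) :
    ∃ G : Finset ((Fin r → ℝ) →₀ ℂ), (G.card : ℝ) ≤ (N : ℝ) ^ (2 * cA) ∧
      (∀ y ∈ G, y.support.card ≤ 2 * J ∧ (∀ b ∈ y.support, ∀ l, 0 ≤ b l ∧ b l ≤ β) ∧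
        ∀ b ∈ y.support, ∀ b' ∈ y.support, b ≠ b' → (N : ℝ) ^ (-cA) ≤ ∑ l, |b l - b' l|) ∧
      (∀ y ∈ Y, cx y ∈ G) ∧ ∀ y ∈ Y, ∀ y' ∈ Y, cx (y - y') ∈ G := by
  classical
  have hN1' : (1 : ℝ) ≤ N := by exact_mod_cast hN
  have hNpos : (0 : ℝ) < N := by linarith
  have hmono' : (N : ℝ) ^ (-cA) ≤ (N : ℝ) ^ (-c) := Real.rpow_le_rpow_of_exponent_le hN1' (by linarith)
  have hNc1 : 1 ≤ (N : ℝ) ^ c := Real.one_le_rpow hN1' hc0.le
  refine ⟨Y.image cx ∪ (Y ×ˢ Y).image (fun p => cx (p.1 - p.2)), ?_, ?_, ?_, ?_⟩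
  · have h1 : (Y.image cx ∪ (Y ×ˢ Y).image (fun p => cx (p.1 - p.2))).card ≤ Y.card + Y.card * Y.card := by
      refine (Finset.card_union_le _ _).trans (Nat.add_le_add Finset.card_image_le ?_)
      exact Finset.card_image_le.trans (le_of_eq (Finset.card_product _ _))
    have h3 : ((Y.image cx ∪ (Y ×ˢ Y).image (fun p => cx (p.1 - p.2))).card : ℝ) ≤
        Y.card + Y.card * Y.card := by exact_mod_cast h1
    refine h3.trans ?_
    have h4 : (Y.card : ℝ) * Y.card ≤ (N : ℝ) ^ c * (N : ℝ) ^ c :=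
      mul_le_mul hH.cY hH.cY (Nat.cast_nonneg _) (by linarith)
    have h5 : (N : ℝ) ^ c * 1 ≤ (N : ℝ) ^ c * (N : ℝ) ^ c := mul_le_mul_of_nonneg_left hNc1 (by linarith)
    have h6 : (N : ℝ) ^ c * (N : ℝ) ^ c ≤ (N : ℝ) ^ cA := by
      rw [← Real.rpow_add hNpos]
      exact Real.rpow_le_rpow_of_exponent_le hN1' (by linarith)
    have h7 : (N : ℝ) ^ (2 * cA) = (N : ℝ) ^ cA * (N : ℝ) ^ cA := by
      rw [← Real.rpow_add hNpos]; congr 1; ring
    have h8 : 2 * (N : ℝ) ^ cA ≤ (N : ℝ) ^ cA * (N : ℝ) ^ cA :=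
      mul_le_mul_of_nonneg_right h2 (by linarith)
    have h9 := hH.cY
    rw [h7]
    linarith
  · intro w hw
    rw [Finset.mem_union, Finset.mem_image, Finset.mem_image] at hw
    rcases hw with ⟨y, hy, rfl⟩ | ⟨⟨y, y'⟩, hyy, rfl⟩
    · rw [cx_supp]
      have h3 := hH.adm y hy
      exact ⟨by have := h3.card; omega, h3.exp, fun b hb b' hb' hne =>
        hmono'.trans ((hH.sep y hy y hy).exp b hb b' hb' hne)⟩
    · rw [Finset.mem_product] at hyy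
      obtain ⟨hy, hy'⟩ := hyy
      simp only at hy hy' ⊢
      have h3 := hH.adm y hy
      have h4 := hH.adm y' hy'
      have hsupp : (y - y').support ⊆ y.support ∪ y'.support := Finsupp.support_sub
      rw [cx_supp]
      refine ⟨?_, fun b hb => ?_, fun b hb b' hb' hne => hmono'.trans ?_⟩
      · refine (Finset.card_le_card hsupp).trans ((Finset.card_union_le _ _).trans ?_)
        have := h3.card
        have := h4.card
        omega
      · rcases Finset.mem_union.1 (hsupp hb) with h5 | h5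
        · exact h3.exp b h5
        · exact h4.exp b h5
      · rcases Finset.mem_union.1 (hsupp hb) with h5 | h5
        · rcases Finset.mem_union.1 (hsupp hb') with h6 | h6
          · exact (hH.sep y hy y hy).exp b h5 b' h6 hne
          · exact (hH.sep y hy y' hy').exp b h5 b' h6 hne
        · rcases Finset.mem_union.1 (hsupp hb') with h6 | h6
          · exact (hH.sep y' hy' y hy).exp b h5 b' h6 hne
          · exact (hH.sep y' hy' y' hy').exp b h5 b' h6 hne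
  · intro y hy
    exact Finset.mem_union_left _ (Finset.mem_image_of_mem _ hy)
  · intro y hy y' hy'
    exact Finset.mem_union_right _ (Finset.mem_image.2 ⟨(y, y'), Finset.mem_product.2 ⟨hy, hy'⟩, rfl⟩)

theorem preK (r k D J : ℕ) (hr : 0 < r) (β c₁ c₂ : ℝ) (hβ : 1 ≤ β) (hc₁ : 0 < c₁) (hc₂ : 0 < c₂) :
    ∃ c₀ : ℝ, 0 < c₀ ∧ ∀ c : ℝ, 0 < c → c ≤ c₀ → ∀ᶠ N : ℕ in atTop,
      ∀ (Y : Finset ((Fin r → ℝ) →₀ ℝ)) (A : Finset ℂ), Hyp r J β c N Y A →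
        ∃ E : Finset (Fin r → ℕ), (E.card : ℝ) ≤ (r + 2) * (N : ℝ) ^ ((r : ℝ) - c) ∧
          ∀ n : Fin r → ℕ, (∀ l, 1 ≤ n l ∧ n l ≤ N) → n ∉ E → OK r k D Y A c₁ c₂ N n := by
  classical
  have hr1 : (1 : ℝ) ≤ r := by exact_mod_cast hr
  have hD0 : (0 : ℝ) ≤ D := Nat.cast_nonneg D
  obtain ⟨cA, hcA0, hcA8, evA⟩ := canF r (2 * J) hr β c₁ hβ hc₁
  obtain ⟨cB, hcB0, hcB8, evB⟩ := canK r ((D + 1) ^ r) hr ((D : ℝ) + 1) c₁ (by linarith) hc₁
  refine ⟨min (cA / 4) (min cB c₂), lt_min (by positivity) (lt_min hcB0 hc₂), fun c hc0 hc => ?_⟩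
  have hccA : c ≤ cA / 4 := hc.trans (min_le_left _ _)
  have hccB : c ≤ cB := hc.trans ((min_le_right _ _).trans (min_le_left _ _))
  have hcc₂ : c ≤ c₂ := hc.trans ((min_le_right _ _).trans (min_le_right _ _))
  have hcast : Tendsto (fun N : ℕ => (N : ℝ)) atTop atTop := tendsto_natCast_atTop_atTop
  have e9 := hcast.eventually ((tendsto_rpow_atTop hcA0).eventually_ge_atTop (2 : ℝ))
  have e10 := hcast.eventually ((tendsto_rpow_atTop hcB0).eventually_ge_atTop (((D : ℝ) + 1) ^ r))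
  filter_upwards [e9, e10, evA, evB, hcast.eventually (eventually_ge_atTop (1 : ℝ))] with
    N hcA2 hcBD hcanA hcanB hN1' Y A hH
  have hN : 1 ≤ N := by exact_mod_cast hN1'
  have hNpos : (0 : ℝ) < N := by linarith
  have hp : ∀ e : ℝ, 0 < (N : ℝ) ^ e := fun e => Real.rpow_pos_of_pos hNpos e
  have hmonoB : (N : ℝ) ^ c ≤ (N : ℝ) ^ cB := Real.rpow_le_rpow_of_exponent_le hN1' hccB
  obtain ⟨G, hGcard, hG1, hG2, hG3⟩ := famK hN (by linarith) hcA2 hc0 hH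
  obtain ⟨E₁, hE₁card, hE₁⟩ := hcanA G hGcard hG1
  obtain ⟨E₂, hE₂card, hE₂⟩ := hcanB (Finset.univ.image (ra : (Fin r → Fin (D + 1)) → (Fin r → ℝ))) A (by
    have h1 : ((Finset.univ.image (ra : (Fin r → Fin (D + 1)) → (Fin r → ℝ))).card : ℝ) ≤ ((D : ℝ) + 1) ^ r := by
      have h2 : (Finset.univ.image (ra : (Fin r → Fin (D + 1)) → (Fin r → ℝ))).card ≤ (D + 1) ^ r := by
        refine Finset.card_image_le.trans (le_of_eq ?_)
        rw [Finset.card_univ, Fintype.card_fun, Fintype.card_fin, Fintype.card_fin]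
      exact_mod_cast h2
    exact h1.trans hcBD) (hH.cA.trans hmonoB) (by
    intro b hb' l
    rw [Finset.mem_image] at hb'
    obtain ⟨α, -, rfl⟩ := hb'
    unfold ra
    refine ⟨Nat.cast_nonneg _, ?_⟩
    exact_mod_cast (α l).2.le) (by
    intro b hb₁ b' hb₂ hne
    rw [Finset.mem_image] at hb₁ hb₂
    obtain ⟨α, -, rfl⟩ := hb₁
    obtain ⟨α', -, rfl⟩ := hb₂
    have h1 : (N : ℝ) ^ (-cB) ≤ 1 := Real.rpow_le_one_of_one_le_of_nonpos hN1' (by linarith)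
    exact h1.trans (ra_sep hne))
  obtain ⟨E₀, hE₀card, hE₀⟩ := smallK r N (1 - c₂)
  refine ⟨E₀ ∪ (E₁ ∪ E₂), ?_, ?_⟩
  · have h1 : ((E₀ ∪ (E₁ ∪ E₂)).card : ℝ) ≤ E₀.card + (E₁.card + E₂.card) := by
      have h2 := Finset.card_union_le E₀ (E₁ ∪ E₂)
      have h3 := Finset.card_union_le E₁ E₂
      have h5 : (E₀ ∪ (E₁ ∪ E₂)).card ≤ E₀.card + (E₁.card + E₂.card) := by omega
      exact_mod_cast h5
    have h5 : (N : ℝ) ^ ((r : ℝ) - cA) ≤ (N : ℝ) ^ ((r : ℝ) - c) :=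
      Real.rpow_le_rpow_of_exponent_le hN1' (by linarith)
    have h6 : (N : ℝ) ^ ((r : ℝ) - cB) ≤ (N : ℝ) ^ ((r : ℝ) - c) :=
      Real.rpow_le_rpow_of_exponent_le hN1' (by linarith)
    have h7 : (r : ℝ) * ((N : ℝ) ^ (1 - c₂) * (N : ℝ) ^ (r - 1)) ≤ r * (N : ℝ) ^ ((r : ℝ) - c) := by
      refine mul_le_mul_of_nonneg_left ?_ (Nat.cast_nonneg _)
      have e1 : (N : ℝ) ^ (r - 1) = (N : ℝ) ^ ((r : ℝ) - 1) := by
        rw [← Real.rpow_natCast, Nat.cast_sub hr, Nat.cast_one]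
      rw [e1, ← Real.rpow_add hNpos]
      exact Real.rpow_le_rpow_of_exponent_le hN1' (by linarith)
    linarith
  · intro n hn hnE
    rw [Finset.mem_union, Finset.mem_union, not_or, not_or] at hnE
    obtain ⟨hnE0, hnE1, hnE2⟩ := hnE
    refine ⟨hE₀ n hn hnE0, fun l => ?_, fun y hy => ?_, fun y hy y' hy' => ?_, fun cc hcc z => ?_⟩
    · have h1 := hE₀ n hn hnE0 l
      have hn0 : (0 : ℝ) < n l := (hp _).trans h1
      refine ⟨?_, Real.log_le_log hn0 (by exact_mod_cast (hn l).2)⟩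
      have h2 := Real.log_le_log (hp _) h1.le
      rwa [Real.log_rpow hNpos] at h2
    · have h1 := (hE₁ n hn hnE1).2 (cx y) (hG2 y hy)
      rwa [nv_cx, ev_cx, Complex.norm_real, Real.norm_eq_abs] at h1
    · have h1 := (hE₁ n hn hnE1).2 (cx (y - y')) (hG3 y hy y' hy')
      rwa [nv_cx, ev_cx, Complex.norm_real, Real.norm_eq_abs] at h1
    · refine (hE₂ n hn hnE2).2 (qq cc z) (qq_card cc z) ?_
      intro b hb'
      obtain ⟨α, h1, -, h2, h3⟩ := qq_supp cc z hb'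
      refine ⟨?_, ?_⟩
      · rw [h1]
        exact Finset.mem_image_of_mem _ (Finset.mem_univ _)
      · rw [h2]
        rcases hcc (Sum.elim α z.2) with h4 | h4
        · exact absurd h4 h3
        · exact h4

end Pool.Agent.Lib.MP_ec260d_ntK
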