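import Mathlib
import Pool.Agent.Lib.MP_ec260d_ntK.PreK
import Pool.Agent.Lib.MP_ec260d_ntK.FinK

/-!
# Counting the points with cancellation in the model
-/

open Set Filter Topology

namespace Pool.Agent.Lib.MP_ec260d_ntK

open Pool.Agent.Lib.MP_ec260d_nt Pool.Agent.Lib.MP_ec260d_ntH Pool.Agent.Lib.MP_ec260d_ntG

variable {r k D J : ℕ} {Y : Finset ((Fin r → ℝ) →₀ ℝ)} {A : Finset ℂ} {β c c₁ c₂ : ℝ} {N : ℕ}

theorem degK (hr : 0 < r) (hβ : 1 ≤ β) {M : ℝ} (hY : ∀ y ∈ Y, Adm r J β c M y) :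
    ∃ dg : ((Fin r → ℝ) →₀ ℝ) → ℝ, ∀ y ∈ Y, β⁻¹ ≤ dg y ∧ dg y ≤ r * β ∧ Hom y (dg y) := by
  have hr1 : (1 : ℝ) ≤ r := by exact_mod_cast hr
  have hdeg : ∀ y : (Fin r → ℝ) →₀ ℝ, ∃ d : ℝ, y ∈ Y → (β⁻¹ ≤ d ∧ d ≤ r * β ∧ Hom y d) := by
    intro y
    by_cases hy : y ∈ Y
    · have hadm := hY y hy
      obtain ⟨d, hd1, hd2⟩ := hadm.deg
      by_cases hne : y.support.Nonempty
      · obtain ⟨b, hb'⟩ := hne
        refine ⟨d, fun _ => ⟨hd1, ?_, hd2⟩⟩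
        rw [← hd2 b hb']
        calc ∑ l, b l ≤ ∑ _l : Fin r, β := Finset.sum_le_sum fun l _ => (hadm.exp b hb' l).2
          _ = _ := by rw [Finset.sum_const, Finset.card_univ, Fintype.card_fin, nsmul_eq_mul]
      · rw [Finset.not_nonempty_iff_eq_empty] at hne
        refine ⟨β⁻¹, fun _ => ⟨le_rfl, ?_, ?_⟩⟩
        · have h3 : β⁻¹ ≤ 1 := inv_le_one_of_one_le₀ hβ
          nlinarith
        · intro b hb'
          rw [hne] at hb'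
          exact absurd hb' (Finset.notMem_empty b)
    · exact ⟨0, fun h => absurd h hy⟩
  choose dg hdg using hdeg
  exact ⟨dg, hdg⟩

open Classical in
/-- the points with cancellation in the model -/
noncomputable def Bad (r k D : ℕ) (Y : Finset ((Fin r → ℝ) →₀ ℝ)) (A : Finset ℂ)
    (c₁ c₂ : ℝ) (N : ℕ) (B D₀ η : ℝ) : Finset (Fin r → ℕ) :=
  (Fintype.piFinset fun _ : Fin r => Finset.Icc 1 N).filter fun n =>
    OK r k D Y A c₁ c₂ N n ∧ ∃ y : Fin k → ((Fin r → ℝ) →₀ ℝ), Function.Injective y ∧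
      (∀ i, y i ∈ Y) ∧ (∀ i, 0 < evr (y i) fun l => Real.log (n l)) ∧
      ∃ cc : Iy r k D → ℂ, (∀ α, cc α = 0 ∨ cc α ∈ A) ∧
      ‖∑ z, HK y B D₀ (qq cc) z (fun l => Real.log (n l))‖ <
        η * ∑ z, ‖HK y B D₀ (qq cc) z (fun l => Real.log (n l))‖

/-- the index set for the counting -/
theorem idxK (r k D : ℕ) (Y : Finset ((Fin r → ℝ) →₀ ℝ)) (A : Finset ℂ) :
    ∃ I : Finset ((Fin k → ((Fin r → ℝ) →₀ ℝ)) × (Iy r k D → ℂ)),
      (I.card : ℝ) ≤ (Y.card : ℝ) ^ k * ((A.card : ℝ) + 1) ^ Fintype.card (Iy r k D) ∧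
      (∀ x ∈ I, ∀ i, x.1 i ∈ Y) ∧
      ∀ y : Fin k → ((Fin r → ℝ) →₀ ℝ), (∀ i, y i ∈ Y) → ∀ cc : Iy r k D → ℂ,
        (∀ α, cc α = 0 ∨ cc α ∈ A) → (y, cc) ∈ I := by
  classical
  refine ⟨(Fintype.piFinset fun _ : Fin k => Y) ×ˢ (Fintype.piFinset fun _ => insert 0 A), ?_, ?_, ?_⟩
  · have h1 : ((Fintype.piFinset fun _ : Fin k => Y) ×ˢ
        (Fintype.piFinset fun _ : Iy r k D => insert 0 A)).card ≤
        Y.card ^ k * (A.card + 1) ^ Fintype.card (Iy r k D) := by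
      rw [Finset.card_product, Fintype.card_piFinset, Fintype.card_piFinset, Finset.prod_const,
        Finset.prod_const, Finset.card_univ, Finset.card_univ, Fintype.card_fin]
      exact Nat.mul_le_mul le_rfl (Nat.pow_le_pow_left (Finset.card_insert_le _ _) _)
    exact_mod_cast h1
  · intro x hx i
    rw [Finset.mem_product, Fintype.mem_piFinset] at hx
    exact hx.1 i
  · intro y hy cc hcc
    rw [Finset.mem_product, Fintype.mem_piFinset, Fintype.mem_piFinset]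
    refine ⟨hy, fun α => ?_⟩
    show cc α ∈ insert 0 A
    rcases hcc α with h | h
    · rw [h]
      exact Finset.mem_insert_self _ _
    · exact Finset.mem_insert_of_mem h

theorem badK (hN : 1 ≤ N) (hlog : 12 ≤ Real.log N) {B D₀ η l₀ : ℝ} {m : ℕ} (hβ : 1 ≤ β) (hB : 0 < B)
    (hD : 0 < D₀) (hnum : Num r k D J β D₀ c c₁ c₂ N) (hc : c ≤ c₁) (hc₁β : c₁ ≤ 1 / (8 * β))
    (hc₂0 : 0 ≤ c₂) (hc₂ : c₂ * (r * β + 1) ≤ c₁) (hc₂h : c₂ ≤ 1 / 2) (hη : 0 < η) (hη2 : η ≤ 1 / 2)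
    (hηN : 12 * 2 ^ (k * D) * (N : ℝ) ^ (-((1 : ℝ) / 4)) ≤ η) (hH : Hyp r J β c N Y A)
    {dg : ((Fin r → ℝ) →₀ ℝ) → ℝ} (hdg : ∀ y ∈ Y, β⁻¹ ≤ dg y ∧ dg y ≤ r * β ∧ Hom y (dg y))
    (hl₀ : 0 ≤ l₀)
    (hcov : ∀ y : Fin k → ((Fin r → ℝ) →₀ ℝ), (∀ i, y i ∈ Y) → ∀ (cc : Iy r k D → ℂ)
      (v : Fin r → ℝ), Cov m l₀ {t : ℝ | t ∈ Icc (0 : ℝ) 1 ∧ v + t • on r ∈ EK y (fun i => dg (y i)) B D₀
        ((N : ℝ) ^ (-(8 * c₁))) ((N : ℝ) ^ (-(7 * c₁))) ((r * β + 3) * Real.log N) (r * β) (qq cc) (2 * η)}) :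
    ((Bad r k D Y A c₁ c₂ N B D₀ η).card : ℝ) ≤ (2 * (N : ℝ)) ^ r *
      (((Y.card : ℝ) ^ k * ((A.card : ℝ) + 1) ^ Fintype.card (Iy r k D)) * (m * l₀) *
        (2 * Real.log N) ^ r) := by
  classical
  obtain ⟨I, hIcard, hIY, hImem⟩ := idxK r k D Y A
  have hNpos : (0 : ℝ) < N := by exact_mod_cast (by omega : 0 < N)
  have hN1 : (1 : ℝ) ≤ N := by exact_mod_cast hN
  have hmain := countK hN I (fun x => EK x.1 (fun i => dg (x.1 i)) B D₀ ((N : ℝ) ^ (-(8 * c₁)))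
    ((N : ℝ) ^ (-(7 * c₁))) ((r * β + 3) * Real.log N) (r * β) (qq x.2) (2 * η))
    (fun x _ => EK_meas _ _ _ _ _ _ _ _ _ _) (fun _ => on r)
    (fun _ _ l => ⟨by unfold on; norm_num, by unfold on; norm_num⟩) m l₀ hl₀ hlog
    (fun x hx v => hcov x.1 (hIY x hx) x.2 v) (Bad r k D Y A c₁ c₂ N B D₀ η) (by
      intro n hn
      rw [Bad, Finset.mem_filter, Fintype.mem_piFinset] at hn
      refine ⟨fun l => Finset.mem_Icc.1 (hn.1 l), fun l => ?_⟩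
      refine lt_of_le_of_lt ?_ (hn.2.1.big l)
      exact Real.rpow_le_rpow_of_exponent_le hN1 (by linarith)) (by
      intro n hn
      rw [Bad, Finset.mem_filter] at hn
      obtain ⟨-, hok, y, hinj, hy, hpos, cc, hcc, hlt⟩ := hn
      refine ⟨(y, cc), hImem y hy cc hcc, fun v hv => ?_⟩
      exact cellN hβ hB hD hnum hc hc₁β hc₂0 hc₂ hη hη2 hηN hinj (fun i => (hH.adm _ (hy i)).card)
        (fun i => (hH.adm _ (hy i)).exp) (fun i => (hH.adm _ (hy i)).coef)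
        (fun i j => (hH.sep _ (hy i) _ (hy j)).coef)
        (fun i => (hdg _ (hy i)).2.2) (fun i => ⟨(hdg _ (hy i)).1, (hdg _ (hy i)).2.1⟩) cc
        hok.u hpos (fun i => hok.ry _ (hy i)) (fun i j => hok.rd _ (hy i) _ (hy j)) (hok.rq cc hcc) hlt hv)
  refine hmain.trans ?_
  have hlog0 : 0 ≤ Real.log N := by linarith
  refine mul_le_mul_of_nonneg_left ?_ (by positivity)
  refine mul_le_mul_of_nonneg_right ?_ (by positivity)
  exact mul_le_mul_of_nonneg_right hIcard (by positivity)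

end Pool.Agent.Lib.MP_ec260d_ntK
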