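import Mathlib
import Pool.Agent.Lib.MP_ec260d_ntK.CntK
import Pool.Agent.Lib.MP_ec260d_ntG.NumG

/-!
# Choice of the constants
-/

open Set Filter Topology

namespace Pool.Agent.Lib.MP_ec260d_ntK

open Pool.Agent.Lib.MP_ec260d_nt Pool.Agent.Lib.MP_ec260d_ntH Pool.Agent.Lib.MP_ec260d_ntG

/-- relations between the exponents -/
structure Par (r k M K Jb : ℕ) (β κ γ σ δ lm Q c₁ c₂ c₃ : ℝ) : Prop where
  δ0 : 0 < δ
  δκ : δ ≤ κ / 2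
  δγ : δ ≤ γ / 4
  δ1 : δ ≤ 1 / 8
  lm0 : 0 < lm
  lmδ : lm ≤ δ / 2
  lmJ : lm * Jb ≤ δ / 2
  Qeq : Q = 8 * ((k : ℝ) + k * k) * K
  Q0 : 0 ≤ Q
  c10 : 0 < c₁
  c1σ : 3 * c₁ ≤ σ
  c1β : c₁ ≤ 1 / (8 * β)
  c1δ : c₁ ≤ δ
  c164 : c₁ ≤ 1 / 64
  c1Q : c₁ * Q ≤ lm / 4
  c20 : 0 < c₂
  c2' : c₂ * (r * β + 1) ≤ c₁
  c2c1 : c₂ ≤ c₁
  c30 : 0 < c₃
  c3' : c₃ * (k + M + 1) = lm / 4
  c34 : c₃ ≤ 1 / 4

theorem par_exists (r k M K Jb : ℕ) (β κ γ σ : ℝ) (hβ : 1 ≤ β) (hκ : 0 < κ) (hγ : 0 < γ) (hσ : 0 < σ) :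
    ∃ δ lm Q c₁ c₂ c₃ : ℝ, Par r k M K Jb β κ γ σ δ lm Q c₁ c₂ c₃ := by
  have hβ0 : 0 < β := by linarith
  set δ := min (min (κ / 2) (γ / 4)) (1 / 8) with hδdef
  have hδ : 0 < δ := lt_min (lt_min (by positivity) (by positivity)) (by norm_num)
  have hJb : (0 : ℝ) ≤ Jb := Nat.cast_nonneg _
  set lm := δ / (2 * (Jb + 1)) with hlm
  have hlm0 : 0 < lm := by positivity
  have hlmδ : lm ≤ δ / 2 := by
    rw [hlm]
    refine div_le_div_of_nonneg_left hδ.le (by norm_num) ?_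
    linarith
  have hlmJ : lm * Jb ≤ δ / 2 := by
    rw [hlm, div_mul_eq_mul_div, div_le_div_iff₀ (by positivity) (by norm_num)]
    nlinarith
  set Q : ℝ := 8 * ((k : ℝ) + k * k) * K with hQ
  have hQ0 : 0 ≤ Q := by positivity
  set c₁ := min (min (1 / (8 * β)) (min δ (min (1 / 64) (σ / 3)))) (lm / (4 * (Q + 1))) with hc₁
  have hc₁0 : 0 < c₁ := lt_min (lt_min (by positivity) (lt_min hδ (lt_min (by norm_num) (by positivity)))) (by positivity)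
  have hc₁Q : c₁ * Q ≤ lm / 4 := by
    have h1 : c₁ ≤ lm / (4 * (Q + 1)) := min_le_right _ _
    rw [le_div_iff₀ (by positivity)] at h1
    nlinarith
  set c₂ := c₁ / (r * β + 1) with hc₂
  have hrβ0 : 0 < r * β + 1 := by positivity
  have hc₂0 : 0 < c₂ := by positivity
  have hc₂' : c₂ * (r * β + 1) ≤ c₁ := by rw [hc₂, div_mul_cancel₀ _ hrβ0.ne']
  have hc₂c₁ : c₂ ≤ c₁ := by
    rw [hc₂, div_le_iff₀ hrβ0]
    have : 0 ≤ c₁ * (r * β) := by positivity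
    linarith
  set c₃ := lm / (4 * (k + M + 1)) with hc₃
  have hc₃0 : 0 < c₃ := by positivity
  have hc₃' : c₃ * (k + M + 1) = lm / 4 := by rw [hc₃]; field_simp
  have hδ1 : δ ≤ 1 / 8 := min_le_right _ _
  have hc₃4 : c₃ ≤ 1 / 4 := by
    have h3 : (1 : ℝ) ≤ k + M + 1 := by
      have h1 : (0 : ℝ) ≤ k := Nat.cast_nonneg _
      have h2 : (0 : ℝ) ≤ M := Nat.cast_nonneg _
      linarith
    have h4 : c₃ * 1 ≤ c₃ * (k + M + 1) := mul_le_mul_of_nonneg_left h3 hc₃0.le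
    linarith
  have hc₁σ : c₁ ≤ σ / 3 := (min_le_left _ _).trans ((min_le_right _ _).trans ((min_le_right _ _).trans
    (min_le_right _ _)))
  exact ⟨δ, lm, Q, c₁, c₂, c₃, hδ, (min_le_left _ _).trans (min_le_left _ _),
    (min_le_left _ _).trans (min_le_right _ _), hδ1, hlm0, hlmδ, hlmJ, hQ, hQ0, hc₁0,
    by linarith,
    (min_le_left _ _).trans (min_le_left _ _),
    (min_le_left _ _).trans ((min_le_right _ _).trans (min_le_left _ _)),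
    (min_le_left _ _).trans ((min_le_right _ _).trans ((min_le_right _ _).trans (min_le_left _ _))), hc₁Q, hc₂0, hc₂', hc₂c₁,
    hc₃0, hc₃', hc₃4⟩

/-- the number of pieces and the lengths -/
theorem par_np {r k M K Jb D : ℕ} {β κ γ σ δ lm Q c₁ c₂ c₃ : ℝ}
    (h : Par r k M K Jb β κ γ σ δ lm Q c₁ c₂ c₃) {C₁ N : ℝ} (hC₁ : 1 ≤ C₁) (hN : 1 ≤ N)
    (hC₁N : 8 * C₁ ≤ N ^ (δ / 4)) (hη8 : N ^ (-δ) ≤ 1 / 8) (hkD : 3 * 2 ^ (k * D) ≤ N ^ ((1 : ℝ) / 8)) :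
    ∃ np : ℕ, 0 < np ∧ C₁ ≤ np * ((N ^ (-(8 * c₁))) ^ (k + k * k)) ^ K ∧ (np : ℝ) ≤ 2 * C₁ * N ^ (c₁ * Q) ∧
      C₁ * (2 * (4 * N ^ (-δ))) ≤ ((N ^ (-(8 * c₁))) ^ (k + k * k)) ^ K * (N ^ (-lm)) ^ Jb ∧
      0 < 4 * N ^ (-δ) ∧ 4 * N ^ (-δ) ≤ 1 / 2 ∧ 12 * 2 ^ (k * D) * N ^ (-((1 : ℝ) / 4)) ≤ 4 * N ^ (-δ) := by
  have hNpos : 0 < N := by linarith
  have hp : ∀ e : ℝ, 0 < N ^ e := fun e => Real.rpow_pos_of_pos hNpos e
  have h1 := h.c1Q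
  have h2 := h.lmJ
  have h3 := h.lmδ
  have h4 := h.δ1
  have h5 : 0 ≤ c₁ * Q := mul_nonneg h.c10.le h.Q0
  have hρK : ((N ^ (-(8 * c₁))) ^ (k + k * k)) ^ K = N ^ (-(c₁ * Q)) := by
    rw [← pow_mul, ← Real.rpow_natCast, ← Real.rpow_mul hNpos.le]
    congr 1
    rw [h.Qeq]
    push_cast
    ring
  have hNcQ : 1 ≤ N ^ (c₁ * Q) := Real.one_le_rpow hN h5
  have hCN : 1 ≤ C₁ * N ^ (c₁ * Q) := one_le_mul_of_one_le_of_one_le hC₁ hNcQ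
  refine ⟨⌈C₁ * N ^ (c₁ * Q)⌉₊, Nat.ceil_pos.2 (by linarith), ?_, ?_, ?_, ?_, ?_, ?_⟩
  · have e1 : C₁ * N ^ (c₁ * Q) ≤ (⌈C₁ * N ^ (c₁ * Q)⌉₊ : ℕ) := Nat.le_ceil _
    have e2 : N ^ (c₁ * Q) * N ^ (-(c₁ * Q)) = 1 := by
      rw [← Real.rpow_add hNpos, add_neg_cancel, Real.rpow_zero]
    rw [hρK]
    calc C₁ = (C₁ * N ^ (c₁ * Q)) * N ^ (-(c₁ * Q)) := by rw [mul_assoc, e2, mul_one]
      _ ≤ _ := mul_le_mul_of_nonneg_right e1 (hp _).le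
  · have := Nat.ceil_lt_add_one (show 0 ≤ C₁ * N ^ (c₁ * Q) by linarith)
    linarith
  · have e1 : (N ^ (-lm)) ^ Jb = N ^ (-(lm * Jb)) := by
      rw [← Real.rpow_natCast, ← Real.rpow_mul hNpos.le]; congr 1; ring
    rw [hρK, e1, ← Real.rpow_add hNpos]
    have e2 : N ^ (δ / 4) * N ^ (-δ) ≤ N ^ (-(c₁ * Q) + -(lm * Jb)) := by
      rw [← Real.rpow_add hNpos]
      exact Real.rpow_le_rpow_of_exponent_le hN (by linarith)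
    calc C₁ * (2 * (4 * N ^ (-δ))) = (8 * C₁) * N ^ (-δ) := by ring
      _ ≤ N ^ (δ / 4) * N ^ (-δ) := mul_le_mul_of_nonneg_right hC₁N (hp _).le
      _ ≤ _ := e2
  · have := hp (-δ)
    positivity
  · linarith
  · calc 12 * 2 ^ (k * D) * N ^ (-((1 : ℝ) / 4)) =
          4 * ((3 * 2 ^ (k * D)) * N ^ (-((1 : ℝ) / 4))) := by ring
      _ ≤ 4 * (N ^ ((1 : ℝ) / 8) * N ^ (-((1 : ℝ) / 4))) := by
          have := mul_le_mul_of_nonneg_right hkD (hp (-((1 : ℝ) / 4))).le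
          linarith
      _ = 4 * N ^ ((1 : ℝ) / 8 + -((1 : ℝ) / 4)) := by rw [← Real.rpow_add hNpos]
      _ ≤ _ := by
          have := Real.rpow_le_rpow_of_exponent_le hN (show (1 : ℝ) / 8 + -((1 : ℝ) / 4) ≤ -δ by linarith)
          linarith

/-- the number of bad points -/
theorem par_card {r k M Jb : ℕ} {c c₃ N S A np lm : ℝ} (hN : 1 ≤ N) (hcc : c ≤ c₃)
    (hnum : r * (N ^ ((1 : ℝ) / 2) * N ^ (r - 1)) + (2 * N) ^ r * ((S ^ k * (A + 1) ^ M) *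
        (np * 2 ^ Jb * N ^ (-lm)) * (2 * Real.log N) ^ r +
        S ^ 2 * (2 * N ^ (-(7 * c₃)) * (r / N ^ (-(3 * c₃))) * (2 * Real.log N) ^ r)) ≤ N ^ ((r : ℝ) - c₃)) :
    (2 * N) ^ r * ((S ^ k * (A + 1) ^ M) * (np * 2 ^ Jb * N ^ (-lm)) * (2 * Real.log N) ^ r) ≤
      N ^ ((r : ℝ) - c) := by
  have hNpos : 0 < N := by linarith
  have hp : ∀ e : ℝ, 0 < N ^ e := fun e => Real.rpow_pos_of_pos hNpos e
  have hlog0 : 0 ≤ Real.log N := Real.log_nonneg hN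
  have h0 : 0 ≤ r * (N ^ ((1 : ℝ) / 2) * N ^ (r - 1)) := by
    have := (hp ((1 : ℝ) / 2)).le
    positivity
  have e2 : 0 ≤ (2 * N) ^ r * (S ^ 2 * (2 * N ^ (-(7 * c₃)) * (r / N ^ (-(3 * c₃))) *
      (2 * Real.log N) ^ r)) := by
    have := (hp (-(7 * c₃))).le
    have := (hp (-(3 * c₃))).le
    positivity
  have h4 : N ^ ((r : ℝ) - c₃) ≤ N ^ ((r : ℝ) - c) :=
    Real.rpow_le_rpow_of_exponent_le hN (by linarith)
  rw [mul_add] at hnum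
  linarith

end Pool.Agent.Lib.MP_ec260d_ntK
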