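import Mathlib
import Pool.Agent.Lib.MP_ec260d_ntK.ParK
import Pool.Agent.Lib.MP_ec260d_ntG.UnifG

/-!
# Homogeneous index functions: uniform statement
-/

open Set Filter Topology

namespace Pool.Agent.Lib.MP_ec260d_ntK

open Pool.Agent.Lib.MP_ec260d_nt Pool.Agent.Lib.MP_ec260d_ntH Pool.Agent.Lib.MP_ec260d_ntG

/-- the conclusion at one `N` -/
def Concl (r k D : ℕ) (θ κ σ c C : ℝ) (N : ℕ) (Y : Finset ((Fin r → ℝ) →₀ ℝ)) (A : Finset ℂ) : Prop :=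
  ∃ E : Finset (Fin r → ℕ), (E.card : ℝ) ≤ C * (N : ℝ) ^ ((r : ℝ) - c) ∧
    ∀ n : Fin r → ℕ, (∀ l, 1 ≤ n l ∧ n l ≤ N) → n ∉ E →
      ∀ y : Fin k → (Fin r → ℝ) →₀ ℝ, Function.Injective y → (∀ i, y i ∈ Y) →
      (∀ i, 0 < evr (y i) fun l => Real.log (n l)) →
      (∀ i, ∀ d, Hom (y i) d → (N : ℝ) ^ (d - σ) ≤ evr (y i) fun l => Real.log (n l)) ∧
      ∀ P : MvPolynomial (Fin r ⊕ Fin k) ℂ, P ≠ 0 → P.totalDegree ≤ D →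
        (∀ α ∈ P.support, P.coeff α ∈ A) → ∀ s : Fin k → ℝ,
          (∀ i, |(zeroCount (s i) : ℝ) - evr (y i) fun l => Real.log (n l)| ≤
            (evr (y i) fun l => Real.log (n l)) ^ (1 - θ)) →
          MvPolynomial.eval (Sum.elim (fun l => (n l : ℂ)) (fun i => ((s i : ℝ) : ℂ))) P ≠ 0 ∧
          ∀ α : Fin r ⊕ Fin k →₀ ℕ,
            ‖P.coeff α‖ * ((∏ l, (n l : ℝ) ^ (α (.inl l))) * ∏ i, |s i| ^ (α (.inr i))) ≤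
            (N : ℝ) ^ κ *
              ‖MvPolynomial.eval (Sum.elim (fun l => (n l : ℂ)) (fun i => ((s i : ℝ) : ℂ))) P‖

theorem Hom.unique {r : ℕ} {y : (Fin r → ℝ) →₀ ℝ} {d d' : ℝ} {u : Fin r → ℝ} (hd : Hom y d)
    (hd' : Hom y d') (hpos : 0 < evr y u) : d = d' := by
  have hne : y.support.Nonempty := by
    rw [Finset.nonempty_iff_ne_empty]
    intro h0
    unfold evr at hpos
    rw [h0, Finset.sum_empty] at hpos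
    exact lt_irrefl _ hpos
  obtain ⟨b, hb⟩ := hne
  rw [← hd b hb, ← hd' b hb]

theorem oneK {r k D J K Jb : ℕ} (hr : 0 < r) {β θ κ σ B D₀ C₁ c : ℝ} (hβ : 1 ≤ β) (hB : 0 < B) (hD : 0 < D₀)
    (hC₁ : 1 ≤ C₁)
    (hblock : ∀ (y : Fin k → (Fin r → ℝ) →₀ ℝ) (d : Fin k → ℝ) (B D₀ ρ τ T : ℝ), (∀ i, Hom (y i) (d i)) →
      (∀ i, β⁻¹ ≤ d i ∧ d i ≤ r * β) → 0 < B → 0 < D₀ → 0 < ρ → ρ ≤ 1 → ρ * 2 ≤ τ →
      ρ * (4 * (1 + T) ^ 2) ≤ τ → ρ * (2 * (β * (1 + T))) ≤ 1 →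
      ∀ (q : Fin (r * D + 1) × (Fin k → Fin (D + 1)) → (Fin r → ℝ) →₀ ℂ), (∀ z, Hom (q z) ((z.1 : ℕ) : ℝ)) →
        ∀ (np : ℕ), 0 < np → C₁ ≤ np * (ρ ^ (k + k * k)) ^ K → ∀ (η l : ℝ), 0 < η → 0 < l → l ≤ 1 →
          C₁ * η ≤ (ρ ^ (k + k * k)) ^ K * l ^ Jb → ∀ v : Fin r → ℝ, Cov (np * 2 ^ Jb) l
            {t | t ∈ Icc (0 : ℝ) 1 ∧ v + t • on r ∈ EK y d B D₀ ρ τ T (r * β) q η})
    {δ lm Q c₁ c₂ c₃ : ℝ}
    (hp : Par r k (Fintype.card (Iy r k D)) K Jb β κ (min (θ / (4 * β)) (1 / (8 * β))) σ δ lm Q c₁ c₂ c₃)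
    (hcc₁ : c ≤ c₁) (hcc₃ : c ≤ c₃) {N : ℕ} (hN : 1 ≤ N)
    (hnum : ∀ S A np : ℝ, 0 ≤ S → S ≤ (N : ℝ) ^ c₃ → 0 ≤ A → A ≤ (N : ℝ) ^ c₃ → 0 ≤ np →
      np ≤ 2 * C₁ * (N : ℝ) ^ (c₁ * Q) →
      r * ((N : ℝ) ^ ((1 : ℝ) / 2) * (N : ℝ) ^ (r - 1)) + (2 * (N : ℝ)) ^ r *
        ((S ^ k * (A + 1) ^ Fintype.card (Iy r k D)) * (np * 2 ^ Jb * (N : ℝ) ^ (-lm)) *
        (2 * Real.log N) ^ r + S ^ 2 * (2 * (N : ℝ) ^ (-(7 * c₃)) * (r / (N : ℝ) ^ (-(3 * c₃))) *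
        (2 * Real.log N) ^ r)) ≤ (N : ℝ) ^ ((r : ℝ) - c₃))
    (hNum : Num r k D J β D₀ c c₁ c₂ N)
    (hpert : ∀ y s : ℝ, (N : ℝ) ^ (3 / (8 * β)) ≤ y → y ≤ (N : ℝ) ^ (r * β + 1) →
      |(zeroCount s : ℝ) - y| ≤ y ^ (1 - θ) →
        |s - Sy B D₀ y| ≤ (N : ℝ) ^ (-(min (θ / (4 * β)) (1 / (8 * β)))) * Sy B D₀ y)
    (hη8 : (N : ℝ) ^ (-δ) ≤ 1 / 8)
    (hpw : 2 ^ (Fintype.card (Fin r ⊕ Fin k) * D) * (N : ℝ) ^ (-δ) ≤ 1)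
    (hC₁N : 8 * C₁ ≤ (N : ℝ) ^ (δ / 4)) (hlogN : 12 ≤ Real.log N)
    (hkD : 3 * 2 ^ (k * D) ≤ (N : ℝ) ^ ((1 : ℝ) / 8))
    {Y : Finset ((Fin r → ℝ) →₀ ℝ)} {A : Finset ℂ} (hH : Hyp r J β c N Y A)
    (hpre : ∃ E : Finset (Fin r → ℕ), (E.card : ℝ) ≤ (r + 2) * (N : ℝ) ^ ((r : ℝ) - c) ∧
      ∀ n : Fin r → ℕ, (∀ l, 1 ≤ n l ∧ n l ≤ N) → n ∉ E → OK r k D Y A c₁ c₂ N n) :
    Concl r k D θ κ σ c (r + 3) N Y A := by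
  classical
  have hN1 : (1 : ℝ) ≤ N := by exact_mod_cast hN
  have hNpos : (0 : ℝ) < N := by linarith
  have hpw' : ∀ e : ℝ, 0 < (N : ℝ) ^ e := fun e => Real.rpow_pos_of_pos hNpos e
  obtain ⟨np, hnp0, hnp1, hnp2, hCη, hη0, hη12, hηN⟩ := par_np hp hC₁ hN1 hC₁N hη8 hkD
  obtain ⟨dg, hdg⟩ := degK hr hβ hH.adm
  obtain ⟨E, hEcard, hE⟩ := hpre
  have hρ1 : (N : ℝ) ^ (-(8 * c₁)) ≤ 1 :=
    Real.rpow_le_one_of_one_le_of_nonpos hN1 (by linarith [hp.c10])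
  have hl1 : (N : ℝ) ^ (-lm) ≤ 1 := Real.rpow_le_one_of_one_le_of_nonpos hN1 (by linarith [hp.lm0])
  have hc₂h : c₂ ≤ 1 / 2 := by linarith [hp.c2c1, hp.c164]
  have hBad := badK (k := k) (D := D) (A := A) (m := np * 2 ^ Jb) (l₀ := (N : ℝ) ^ (-lm)) hN hlogN hβ hB hD
    hNum hcc₁ hp.c1β hp.c20.le hp.c2' hc₂h hη0 hη12 hηN hH hdg (hpw' _).le
    (fun y hy cc v => hblock y (fun i => dg (y i)) B D₀ _ _ _ (fun i => (hdg _ (hy i)).2.2)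
      (fun i => ⟨(hdg _ (hy i)).1, (hdg _ (hy i)).2.1⟩) hB hD (hpw' _) hρ1 hNum.rho2 hNum.rhoT hNum.rhoB
      (qq cc) (fun z => qq_hom cc z) np hnp0 hnp1 _ _ (mul_pos two_pos hη0) (hpw' _) hl1 hCη v)
  have hcount := par_card (c := c) (S := (Y.card : ℝ)) hN1 hcc₃
    (hnum Y.card A.card np (Nat.cast_nonneg _)
      (hH.cY.trans (Real.rpow_le_rpow_of_exponent_le hN1 hcc₃)) (Nat.cast_nonneg _)
      (hH.cA.trans (Real.rpow_le_rpow_of_exponent_le hN1 hcc₃)) (Nat.cast_nonneg _) hnp2)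
  refine ⟨E ∪ Bad r k D Y A c₁ c₂ N B D₀ (4 * (N : ℝ) ^ (-δ)), ?_, ?_⟩
  · have h1 : ((E ∪ Bad r k D Y A c₁ c₂ N B D₀ (4 * (N : ℝ) ^ (-δ))).card : ℝ) ≤
        E.card + (Bad r k D Y A c₁ c₂ N B D₀ (4 * (N : ℝ) ^ (-δ))).card := by
      exact_mod_cast Finset.card_union_le _ _
    push_cast at hBad
    linarith
  · intro n hn hnE y hinj hy hpos
    rw [Finset.mem_union, not_or] at hnE
    obtain ⟨hnE0, hnE1⟩ := hnE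
    have hok := hE n hn hnE0
    have hn0 : ∀ l, (0 : ℝ) < n l := fun l => by exact_mod_cast (by have := (hn l).1; omega : 0 < n l)
    have hsize := fun i => sizeN hβ hNum hcc₁ hp.c1β hp.c20.le hp.c2' hok.u (hH.adm _ (hy i)).card
      (fun b hb' l => ((hH.adm _ (hy i)).exp b hb' l).1) (hH.adm _ (hy i)).coef
      (hdg _ (hy i)).2.2 (hdg _ (hy i)).1 (hdg _ (hy i)).2.1 (hpos i) (hok.ry _ (hy i))
    refine ⟨fun i d hd => ?_, ?_⟩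
    · have h1 := (sizeK hN1 hcc₁ hp.c20.le hp.c2' hok.u (hH.adm _ (hy i)).card
        (fun b hb' l => ((hH.adm _ (hy i)).exp b hb' l).1) (hH.adm _ (hy i)).coef
        (hdg _ (hy i)).2.2 (hdg _ (hy i)).2.1 (hpos i) (hok.ry _ (hy i))).1
      rw [hd.unique (hdg _ (hy i)).2.2 (hpos i)]
      exact (Real.rpow_le_rpow_of_exponent_le hN1 (by linarith [hp.c1σ])).trans h1
    intro P hP0 hPD hPA s hs
    have hcc : ∀ α : Iy r k D, P.coeff (phv α) = 0 ∨ P.coeff (phv α) ∈ A := by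
      intro α
      by_cases h0 : P.coeff (phv α) = 0
      · exact Or.inl h0
      · exact Or.inr (hPA _ (MvPolynomial.mem_support_iff.2 h0))
    refine finK (γ := min (θ / (4 * β)) (1 / (8 * β))) hB hD hN1 hp.c10.le ?_ ?_ hη8 hpw hn0 hpos P hP0 hPD s
      (fun i => hpert _ (s i) (hsize i).1 (hsize i).2 (hs i)) ?_ (hok.rq _ hcc)
    · linarith [hp.δγ, hp.c1δ, hp.δ0]
    · linarith [hp.δκ, hp.c1δ]
    · by_contra hcon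
      push Not at hcon
      apply hnE1
      rw [Bad, Finset.mem_filter, Fintype.mem_piFinset]
      exact ⟨fun l => Finset.mem_Icc.2 (hn l), hok, y, hinj, hy, hpos, _, hcc, hcon⟩

/-- all numerical conditions at one large `N` -/
theorem evK (r k D J K Jb : ℕ) (hr : 0 < r) {β θ κ σ B D₀ C₁ c : ℝ} (hβ : 1 ≤ β) (hC₁ : 1 ≤ C₁)
    {δ lm Q c₁ c₂ c₃ : ℝ}
    (hp : Par r k (Fintype.card (Iy r k D)) K Jb β κ (min (θ / (4 * β)) (1 / (8 * β))) σ δ lm Q c₁ c₂ c₃)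
    (hpert : ∀ᶠ N : ℝ in atTop, ∀ y s : ℝ, N ^ (3 / (8 * β)) ≤ y → y ≤ N ^ (r * β + 1) →
      |(zeroCount s : ℝ) - y| ≤ y ^ (1 - θ) →
        |s - Sy B D₀ y| ≤ N ^ (-(min (θ / (4 * β)) (1 / (8 * β)))) * Sy B D₀ y) :
    ∀ᶠ N : ℕ in atTop, (∀ S A np : ℝ, 0 ≤ S → S ≤ (N : ℝ) ^ c₃ → 0 ≤ A → A ≤ (N : ℝ) ^ c₃ → 0 ≤ np →
      np ≤ 2 * C₁ * (N : ℝ) ^ (c₁ * Q) →
      r * ((N : ℝ) ^ ((1 : ℝ) / 2) * (N : ℝ) ^ (r - 1)) + (2 * (N : ℝ)) ^ r *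
        ((S ^ k * (A + 1) ^ Fintype.card (Iy r k D)) * (np * 2 ^ Jb * (N : ℝ) ^ (-lm)) *
        (2 * Real.log N) ^ r + S ^ 2 * (2 * (N : ℝ) ^ (-(7 * c₃)) * (r / (N : ℝ) ^ (-(3 * c₃))) *
        (2 * Real.log N) ^ r)) ≤ (N : ℝ) ^ ((r : ℝ) - c₃)) ∧ Num r k D J β D₀ c c₁ c₂ N ∧
    (∀ y s : ℝ, (N : ℝ) ^ (3 / (8 * β)) ≤ y → y ≤ (N : ℝ) ^ (r * β + 1) →
      |(zeroCount s : ℝ) - y| ≤ y ^ (1 - θ) →
        |s - Sy B D₀ y| ≤ (N : ℝ) ^ (-(min (θ / (4 * β)) (1 / (8 * β)))) * Sy B D₀ y) ∧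
    (N : ℝ) ^ (-δ) ≤ 1 / 8 ∧ 2 ^ (Fintype.card (Fin r ⊕ Fin k) * D) * (N : ℝ) ^ (-δ) ≤ 1 ∧
    8 * C₁ ≤ (N : ℝ) ^ (δ / 4) ∧ 12 ≤ Real.log N ∧ 3 * 2 ^ (k * D) ≤ (N : ℝ) ^ ((1 : ℝ) / 8) := by
  have hcast : Tendsto (fun N : ℕ => (N : ℝ)) atTop atTop := tendsto_natCast_atTop_atTop
  have hδ := hp.δ0
  have hsum : c₃ * (k + (Fintype.card (Iy r k D) : ℕ) + 1) + c₁ * Q ≤ lm / 2 := by
    linarith [hp.c3', hp.c1Q, hp.lm0]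
  have e1 := hcast.eventually (numG r k (Fintype.card (Iy r k D)) Jb hr C₁ lm c₃ (c₁ * Q) (by linarith)
    hp.lm0 hp.c30 hp.c34 hsum)
  have e2 := hcast.eventually (num_ev r k D J β D₀ c c₁ c₂ hβ hp.c10 hp.c164)
  have e3 := hcast.eventually hpert
  have t1 : Tendsto (fun N : ℝ => N ^ (-δ)) atTop (𝓝 0) := tendsto_rpow_neg_atTop hδ
  have e4 := hcast.eventually (t1.eventually_le_const (show (0 : ℝ) < 1 / 8 by norm_num))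
  have t2 : Tendsto (fun N : ℝ => 2 ^ (Fintype.card (Fin r ⊕ Fin k) * D) * N ^ (-δ)) atTop (𝓝 0) := by
    simpa using t1.const_mul ((2 : ℝ) ^ (Fintype.card (Fin r ⊕ Fin k) * D))
  have e5 := hcast.eventually (t2.eventually_le_const (show (0 : ℝ) < 1 by norm_num))
  have e6 := hcast.eventually
    ((tendsto_rpow_atTop (show (0 : ℝ) < δ / 4 by positivity)).eventually_ge_atTop (8 * C₁))
  have e7 := hcast.eventually (Real.tendsto_log_atTop.eventually_ge_atTop (12 : ℝ))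
  have e8 := hcast.eventually ((tendsto_rpow_atTop (show (0 : ℝ) < 1 / 8 by norm_num)).eventually_ge_atTop
    (3 * 2 ^ (k * D) : ℝ))
  exact e1.and (e2.and (e3.and (e4.and (e5.and (e6.and (e7.and e8))))))

theorem unifK (r k D J : ℕ) (hr : 0 < r) (β θ κ σ : ℝ) (hβ : 1 ≤ β) (hθ : 0 < θ) (hκ : 0 < κ)
    (hσ : 0 < σ) :
    ∃ c C : ℝ, 0 < c ∧ c ≤ 1 ∧ ∀ N : ℕ, 1 ≤ N → ∀ (Y : Finset ((Fin r → ℝ) →₀ ℝ)) (A : Finset ℂ),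
      Hyp r J β c N Y A → Concl r k D θ κ σ c C N Y A := by
  have hβ0 : 0 < β := by linarith
  have hr1 : (1 : ℝ) ≤ r := by exact_mod_cast hr
  obtain ⟨B, D₀, hB, hD, hord'⟩ := ord_realL
  obtain ⟨C', y₀, hC', hord''⟩ := hord' 1 one_pos
  have hord : ∀ y : ℝ, y₀ ≤ y → ∀ τ : ℝ, 0 ≤ τ → τ ≤ 1 / 2 → ∀ s : ℝ,
      |(zeroCount s : ℝ) - y| ≤ τ * y → |s - (y / B) / lam (y / D₀)| ≤ C' * (τ * y + y ^ ((1 : ℝ) / 2)) := by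
    intro y hy τ h0 h1 s hs
    have := hord'' y hy τ h0 h1 s (by rw [one_mul]; exact hs)
    rwa [one_mul] at this
  obtain ⟨K, Jb, C₁, hC₁, hblock⟩ := rayCov r k (r * D) D β hβ
  have hγ0 : 0 < min (θ / (4 * β)) (1 / (8 * β)) := lt_min (by positivity) (by positivity)
  obtain ⟨δ, lm, Q, c₁, c₂, c₃, hp⟩ := par_exists r k (Fintype.card (Iy r k D)) K Jb β κ _ σ hβ hκ hγ0 hσ
  obtain ⟨c₀, hc₀, hpre⟩ := preK r k D J hr β c₁ c₂ hβ hp.c10 hp.c20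
  have h1 := hp.c10
  have h3 := hp.c30
  set c := min (min c₁ c₀) c₃ with hc
  have hc0 : 0 < c := lt_min (lt_min h1 hc₀) h3
  have hcc₁ : c ≤ c₁ := (min_le_left _ _).trans (min_le_left _ _)
  have hcc₀ : c ≤ c₀ := (min_le_left _ _).trans (min_le_right _ _)
  have hcc₃ : c ≤ c₃ := min_le_right _ _
  have hc1 : c ≤ 1 := by linarith [hp.c164]
  have hev := evK r k D J K Jb hr (c := c) hβ hC₁ hp
    (pertG hB hD hC' hord β θ (r * β + 1) hβ hθ (by positivity))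
  obtain ⟨N₀, hN₀⟩ := eventually_atTop.1 (hev.and (hpre c hc0 hcc₀))
  clear_value c
  refine ⟨c, (N₀ : ℝ) ^ r + (r + 3), hc0, hc1, fun N hN Y A hH => ?_⟩
  have hNpos : (0 : ℝ) < N := by exact_mod_cast (by omega : 0 < N)
  have hN1' : (1 : ℝ) ≤ N := by exact_mod_cast hN
  have hNc : 1 ≤ (N : ℝ) ^ ((r : ℝ) - c) := Real.one_le_rpow hN1' (by linarith)
  have hN₀0 : (0 : ℝ) ≤ (N₀ : ℝ) ^ r := by positivity
  rcases lt_or_ge N N₀ with hlt | hge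
  · refine ⟨Fintype.piFinset fun _ => Finset.Icc 1 N, ?_, fun n h2 h3 => ?_⟩
    · rw [Fintype.card_piFinset, Finset.prod_const, Finset.card_univ, Fintype.card_fin, Nat.card_Icc,
        Nat.add_sub_cancel]
      push_cast
      have h1 : (N : ℝ) ^ r ≤ (N₀ : ℝ) ^ r :=
        pow_le_pow_left₀ hNpos.le (by exact_mod_cast hlt.le) _
      have h3 : ((N₀ : ℝ) ^ r + (r + 3)) * 1 ≤ ((N₀ : ℝ) ^ r + (r + 3)) * (N : ℝ) ^ ((r : ℝ) - c) :=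
        mul_le_mul_of_nonneg_left hNc (by linarith)
      linarith
    · exact absurd (Fintype.mem_piFinset.2 fun l => Finset.mem_Icc.2 (h2 l)) h3
  · obtain ⟨⟨hnum, hNum, hpert, hη8, hpw, hC₁N, hlogN, hkD⟩, hpreN⟩ := hN₀ N hge
    obtain ⟨E, hEcard, hE⟩ := oneK (θ := θ) (κ := κ) hr hβ hB hD hC₁ hblock hp hcc₁ hcc₃ hN hnum hNum
      hpert hη8 hpw hC₁N hlogN hkD hH (hpreN Y A hH)
    refine ⟨E, hEcard.trans ?_, hE⟩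
    have h8 : 0 ≤ (N₀ : ℝ) ^ r * (N : ℝ) ^ ((r : ℝ) - c) := mul_nonneg hN₀0 (by linarith)
    linarith

end Pool.Agent.Lib.MP_ec260d_ntK
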