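import Mathlib
import Pool.Agent.Lib.MP_ec260d_ntK.UnifK
import Pool.Agent.Lib.MP_ec260d_ntG.OrdG

/-!
# The ordinates: homogeneous index functions
-/

open Set Filter Topology

namespace Pool.Agent.Lib.MP_ec260d_ntK

open Pool.Agent.Lib.MP_ec260d_nt Pool.Agent.Lib.MP_ec260d_ntH Pool.Agent.Lib.MP_ec260d_ntG

/-- no relation at `n`, with loss `K` -/
def GdK (r k D : ℕ) (θ K : ℝ) (Y : Finset ((Fin r → ℝ) →₀ ℝ)) (A : Finset ℂ) (n : Fin r → ℕ) : Prop :=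
  ∀ (y : Fin k → (Fin r → ℝ) →₀ ℝ) (d : Fin k → ℝ), Function.Injective y →
    (∀ i, y i ∈ Y ∧ ∀ b ∈ (y i).support, ∑ l, b l = d i) →
    ∀ P : MvPolynomial (Fin r ⊕ Fin k) ℂ, P ≠ 0 → P.totalDegree ≤ D → (∀ α ∈ P.support, P.coeff α ∈ A) →
      ∀ m : Fin k → ℕ,
        (∀ i, 0 < ((y i).sum fun b a => a * ∏ l, (n l : ℝ) ^ b l) ∧
          |(m i : ℝ) - (y i).sum fun b a => a * ∏ l, (n l : ℝ) ^ b l| ≤ (∑ l, (n l : ℝ)) ^ (d i - θ)) →
        MvPolynomial.eval (Sum.elim (fun l => (n l : ℂ)) (fun i => ((ordinate (m i) : ℝ) : ℂ))) P ≠ 0 ∧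
        ∀ α : Fin r ⊕ Fin k →₀ ℕ,
          ‖P.coeff α‖ * ((∏ l, (n l : ℝ) ^ (α (.inl l))) * ∏ i, (ordinate (m i)) ^ (α (.inr i))) ≤
          K * ‖MvPolynomial.eval (Sum.elim (fun l => (n l : ℂ)) (fun i => ((ordinate (m i) : ℝ) : ℂ))) P‖

theorem evr_log {r : ℕ} (y : (Fin r → ℝ) →₀ ℝ) {n : Fin r → ℕ} (hn : ∀ l, 1 ≤ n l) :
    evr y (fun l => Real.log (n l)) = y.sum fun b a => a * ∏ l, (n l : ℝ) ^ b l := by
  unfold evr Finsupp.sum
  refine Finset.sum_congr rfl fun b _ => ?_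
  congr 1
  unfold dt
  rw [Real.exp_sum]
  refine Finset.prod_congr rfl fun l _ => ?_
  have h0 : (0 : ℝ) < n l := by exact_mod_cast (by have := hn l; omega : 0 < n l)
  rw [Real.rpow_def_of_pos h0, mul_comm]

/-- windows -/
theorem winK {r : ℕ} (hr : 0 < r) {β θ d N Y S : ℝ} (hβ : 1 ≤ β) (hθ : 0 < θ) (hθβ : θ ≤ 1 / (2 * β))
    (hN : 1 ≤ N) (hNθ : (r : ℝ) ^ (r * β) ≤ N ^ (θ / 2)) (hd1 : β⁻¹ ≤ d) (hd2 : d ≤ r * β)
    (hS1 : 1 ≤ S) (hS : S ≤ r * N) (hY : N ^ (d - θ / 4) ≤ Y) :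
    S ^ (d - θ) ≤ Y ^ (1 - θ / (4 * (r * β))) := by
  have hβ0 : 0 < β := by linarith
  have hr1 : (1 : ℝ) ≤ r := by exact_mod_cast hr
  have hN0 : 0 < N := by linarith
  have hp : ∀ e : ℝ, 0 < N ^ e := fun e => Real.rpow_pos_of_pos hN0 e
  have h1 : 1 / (2 * β) ≤ d := by
    refine le_trans ?_ hd1
    rw [one_div]
    exact inv_anti₀ hβ0 (by linarith)
  have hdθ : 0 ≤ d - θ := by linarith
  have hrβ : 1 ≤ r * β := one_le_mul_of_one_le_of_one_le hr1 hβ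
  have hθ1 : θ ≤ 1 := hθβ.trans (by rw [div_le_one (by positivity)]; linarith)
  have hq0 : 0 ≤ θ / (4 * (r * β)) := by positivity
  have hq1 : θ / (4 * (r * β)) ≤ 1 := by
    rw [div_le_one (by positivity)]
    linarith
  have hqd : θ / (4 * (r * β)) * d ≤ θ / 4 := by
    calc θ / (4 * (r * β)) * d ≤ θ / (4 * (r * β)) * (r * β) := mul_le_mul_of_nonneg_left hd2 hq0
      _ = θ / 4 := by
          have : r * β ≠ 0 := by positivity
          field_simp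
  calc S ^ (d - θ) ≤ (r * N) ^ (d - θ) := Real.rpow_le_rpow (by linarith) hS hdθ
    _ = (r : ℝ) ^ (d - θ) * N ^ (d - θ) := Real.mul_rpow (by linarith) hN0.le
    _ ≤ N ^ (θ / 2) * N ^ (d - θ) := by
        refine mul_le_mul_of_nonneg_right (le_trans ?_ hNθ) (hp _).le
        exact Real.rpow_le_rpow_of_exponent_le hr1 (by linarith)
    _ = N ^ (d - θ / 2) := by rw [← Real.rpow_add hN0]; congr 1; ring
    _ ≤ N ^ ((d - θ / 4) * (1 - θ / (4 * (r * β)))) := by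
        refine Real.rpow_le_rpow_of_exponent_le hN ?_
        have h2 : 0 ≤ θ / 4 * (θ / (4 * (r * β))) := by positivity
        have h3 : (d - θ / 4) * (1 - θ / (4 * (r * β))) =
          d - θ / 4 - θ / (4 * (r * β)) * d + θ / 4 * (θ / (4 * (r * β))) := by ring
        rw [h3]
        linarith
    _ = (N ^ (d - θ / 4)) ^ (1 - θ / (4 * (r * β))) := Real.rpow_mul hN0.le _ _
    _ ≤ _ := Real.rpow_le_rpow (hp _).le hY (by linarith)

/-- one parameter: admissible index functions are power functions -/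
theorem fixK (k D : ℕ) (β θ κ : ℝ) (hβ : 1 ≤ β) (hθ : 0 < θ) (hθβ : θ ≤ 1 / (2 * β)) (hκ : 0 < κ)
    (Y : Finset ((Fin 1 → ℝ) →₀ ℝ)) (A : Finset ℂ)
    (hY : ∀ y ∈ Y, (∀ b ∈ y.support, ∀ l, 0 ≤ b l ∧ b l ≤ β) ∧
      ∃ d, β⁻¹ ≤ d ∧ ∀ b ∈ y.support, ∑ l, b l = d) :
    ∃ n₀ : ℕ, ∀ n : Fin 1 → ℕ, n₀ ≤ n 0 → (∀ l, 1 ≤ n l) → GdK 1 k D θ ((n 0 : ℝ) ^ κ) Y A n := by
  classical
  have hβ0 : 0 < β := by linarith
  set T : Finset (ℝ × (Fin 1 → ℝ)) := (Y.biUnion fun y => y.support.image fun b => (y b, b)).filter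
    fun p => 0 < p.1 ∧ ∃ l, 0 < p.2 l with hT
  obtain ⟨n₀, hn₀⟩ := fixOrd k D (θ / (4 * β)) κ (by positivity) hκ T
    (fun p hp => (Finset.mem_filter.1 hp).2) A
  have hev : ∀ᶠ x : ℝ in atTop, ∀ p ∈ T, p.1⁻¹ ≤ x ^ (θ / 4) := by
    rw [Filter.eventually_all_finset]
    intro p _
    exact (tendsto_rpow_atTop (show (0 : ℝ) < θ / 4 by positivity)).eventually_ge_atTop _
  obtain ⟨x₀, hx₀⟩ := eventually_atTop.1 hev
  refine ⟨max n₀ ⌈x₀⌉₊, fun n hn hn1 y d hinj hy P hP0 hPD hPA m hm => ?_⟩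
  have hn₁ : n₀ ≤ n 0 := (le_max_left _ _).trans hn
  have hnx : x₀ ≤ n 0 := (Nat.le_ceil _).trans (by exact_mod_cast (le_max_right _ _).trans hn)
  have hx := hx₀ _ hnx
  have hnpos : (1 : ℝ) ≤ n 0 := by exact_mod_cast hn1 0
  have hn0 : (0 : ℝ) < n 0 := by linarith
  -- the single exponent
  have hb : ∀ i, ∃ b : Fin 1 → ℝ, y i = Finsupp.single b (y i b) ∧ b ∈ (y i).support ∧ b 0 = d i ∧
      β⁻¹ ≤ d i ∧ d i ≤ β ∧ 0 < y i b := by
    intro i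
    obtain ⟨hyY, hyd⟩ := hy i
    obtain ⟨h2, d', hd1, hd2⟩ := hY _ hyY
    have hpos := (hm i).1
    have hne : (y i).support.Nonempty := by
      rw [Finset.nonempty_iff_ne_empty]
      intro h0
      rw [Finsupp.sum, h0, Finset.sum_empty] at hpos
      exact lt_irrefl _ hpos
    obtain ⟨b, hb⟩ := hne
    have hdd : d' = d i := by rw [← hd2 b hb, ← hyd b hb]
    have hd2' : ∀ b ∈ (y i).support, b 0 = d i := by
      intro b hb
      have h3 := hyd b hb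
      rwa [Fintype.sum_unique] at h3
    have hsingle : y i = Finsupp.single b (y i b) := by
      ext b'
      by_cases hbb : b = b'
      · rw [← hbb, Finsupp.single_eq_same]
      · rw [Finsupp.single_eq_of_ne (Ne.symm hbb)]
        by_contra h3
        apply hbb
        have h4 := hd2' b' (Finsupp.mem_support_iff.2 h3)
        have h5 := hd2' b hb
        funext l
        rw [Subsingleton.elim l 0, h4, h5]
    refine ⟨b, hsingle, hb, hd2' b hb, by rw [← hdd]; exact hd1, ?_, ?_⟩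
    · rw [← hd2' b hb]
      exact (h2 b hb 0).2
    · rw [hsingle, Finsupp.sum_single_index (by rw [zero_mul])] at hpos
      refine (pos_iff_pos_of_mul_pos hpos).2 ?_
      refine Finset.prod_pos fun l _ => Real.rpow_pos_of_pos ?_ _
      exact_mod_cast (by have := hn1 l; omega : 0 < n l)
  choose b hsingle hbs hbd hd1 hd2 hyb0 using hb
  have hd0 : ∀ i, 0 < d i := fun i => (inv_pos.2 hβ0).trans_le (hd1 i)
  have hval : ∀ i, ((y i).sum fun b a => a * ∏ l, (n l : ℝ) ^ b l) =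
      y i (b i) * ∏ l, (n l : ℝ) ^ (b i) l := by
    intro i
    conv_lhs => rw [hsingle i]
    rw [Finsupp.sum_single_index (by rw [zero_mul])]
  have hprod : ∀ i, ∏ l, (n l : ℝ) ^ (b i) l = (n 0 : ℝ) ^ d i := by
    intro i
    rw [Fintype.prod_unique, ← hbd i]
    rfl
  have hmemT : ∀ i, (y i (b i), b i) ∈ T := by
    intro i
    rw [hT, Finset.mem_filter, Finset.mem_biUnion]
    exact ⟨⟨y i, (hy i).1, Finset.mem_image.2 ⟨b i, hbs i, rfl⟩⟩, hyb0 i, 0, by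
      show 0 < (b i) 0
      rw [hbd i]; exact hd0 i⟩
  refine hn₀ n hn₁ (fun i => (y i (b i), b i)) ?_ hmemT P hP0 hPD hPA m ?_
  · intro i j hij
    have h1 : y i (b i) = y j (b j) := (Prod.ext_iff.1 hij).1
    have h2 : b i = b j := (Prod.ext_iff.1 hij).2
    apply hinj
    rw [hsingle i, hsingle j, h1, h2]
  · intro i
    have h1 := (hm i).2
    rw [hval i] at h1
    refine h1.trans ?_
    rw [Fintype.sum_unique]
    show (n 0 : ℝ) ^ (d i - θ) ≤ (y i (b i) * ∏ l, (n l : ℝ) ^ (b i) l) ^ (1 - θ / (4 * β))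
    rw [hprod i]
    have h3 : (y i (b i))⁻¹ ≤ (n 0 : ℝ) ^ (θ / 4) := hx _ (hmemT i)
    have h4 : (n 0 : ℝ) ^ (d i - θ / 4) ≤ y i (b i) * (n 0 : ℝ) ^ d i := by
      have h5 : 0 < (n 0 : ℝ) ^ (θ / 4) := Real.rpow_pos_of_pos hn0 _
      have h6 : (n 0 : ℝ) ^ (d i - θ / 4) = ((n 0 : ℝ) ^ (θ / 4))⁻¹ * (n 0 : ℝ) ^ d i := by
        rw [← Real.rpow_neg hn0.le, ← Real.rpow_add hn0]; congr 1; ring
      rw [h6]
      refine mul_le_mul_of_nonneg_right ?_ (Real.rpow_nonneg hn0.le _)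
      have h7 := inv_anti₀ (inv_pos.2 (hyb0 i)) h3
      rwa [inv_inv] at h7
    have h8 := winK (r := 1) one_pos (Y := y i (b i) * (n 0 : ℝ) ^ d i) (S := (n 0 : ℝ)) hβ hθ hθβ hnpos
      (by rw [Nat.cast_one, Real.one_rpow]; exact Real.one_le_rpow hnpos (by positivity)) (hd1 i)
      (by rw [Nat.cast_one, one_mul]; exact hd2 i) hnpos (by rw [Nat.cast_one, one_mul]) h4
    rw [Nat.cast_one, one_mul] at h8
    exact h8

theorem ordK (r k D J : ℕ) (hr : 0 < r) (β θ κ : ℝ) (hβ : 1 ≤ β) (hθ : 0 < θ) (hκ : 0 < κ) :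
    ∃ c C : ℝ, 0 < c ∧ ∀ (Y : Finset ((Fin r → ℝ) →₀ ℝ)) (A : Finset ℂ), ∃ B : ℕ, ∀ N : ℕ, 1 ≤ N →
      (Y.card : ℝ) ≤ (N : ℝ) ^ c → (A.card : ℝ) ≤ (N : ℝ) ^ c →
      (∀ y ∈ Y, y.support.card ≤ J ∧
        (∀ b ∈ y.support, (∀ l, 0 ≤ b l ∧ b l ≤ β) ∧ (N : ℝ) ^ (-c) ≤ |y b| ∧ |y b| ≤ (N : ℝ) ^ c) ∧
        ∃ d, β⁻¹ ≤ d ∧ ∀ b ∈ y.support, ∑ l, b l = d) →
      (∀ y ∈ Y, ∀ y' ∈ Y,
        (∀ b ∈ y.support, ∀ b' ∈ y'.support, b ≠ b' → (N : ℝ) ^ (-c) ≤ ∑ l, |b l - b' l|) ∧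
        ∀ b, y b ≠ y' b → (N : ℝ) ^ (-c) ≤ |y b - y' b|) →
        ∃ E : Finset (Fin r → ℕ), (E.card : ℝ) ≤ C * (N : ℝ) ^ ((r : ℝ) - c) ∧
          (r = 1 → ∀ n ∈ E, ∀ l, n l ≤ B) ∧
          ∀ n : Fin r → ℕ, (∀ l, 1 ≤ n l ∧ n l ≤ N) → n ∉ E → GdK r k D θ ((N : ℝ) ^ κ) Y A n := by
  classical
  have hβ0 : 0 < β := by linarith
  have hr1 : (1 : ℝ) ≤ r := by exact_mod_cast hr
  have hrβ0 : (0 : ℝ) < r * β := by positivity
  -- smaller windows
  set θ₀ := min θ (1 / (2 * β)) with hθ₀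
  have hθ₀0 : 0 < θ₀ := lt_min hθ (by positivity)
  have hθ₀θ : θ₀ ≤ θ := min_le_left _ _
  have hθ₀β : θ₀ ≤ 1 / (2 * β) := min_le_right _ _
  have hGd : ∀ (K : ℝ) (Y : Finset ((Fin r → ℝ) →₀ ℝ)) (A : Finset ℂ) (n : Fin r → ℕ), (∀ l, 1 ≤ n l) →
      GdK r k D θ₀ K Y A n → GdK r k D θ K Y A n := by
    intro K Y A n hn h y d hinj hy P hP0 hPD hPA m hm
    refine h y d hinj hy P hP0 hPD hPA m fun i => ⟨(hm i).1, (hm i).2.trans ?_⟩
    have h1 : (1 : ℝ) ≤ ∑ l, (n l : ℝ) := by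
      calc (1 : ℝ) ≤ n ⟨0, hr⟩ := by exact_mod_cast hn _
        _ ≤ _ := Finset.single_le_sum (f := fun l => (n l : ℝ)) (fun l _ => Nat.cast_nonneg _)
          (Finset.mem_univ _)
    exact Real.rpow_le_rpow_of_exponent_le h1 (by linarith)
  obtain ⟨θ', y₁, hθ', hwin⟩ := winG (θ₀ / (4 * (r * β))) (by positivity)
  obtain ⟨c, C₀, hc0, hc1, hmain⟩ := unifK r k D J hr β θ' κ (θ₀ / 4) hβ hθ' hκ (by positivity)
  have hγ : 0 < 1 / (4 * β) := by positivity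
  obtain ⟨N₀, hN₀⟩ := eventually_atTop.1
    (((tendsto_rpow_atTop hγ).eventually_ge_atTop y₁).and
      (((tendsto_rpow_atTop (show 0 < θ₀ / 2 by positivity)).eventually_ge_atTop ((r : ℝ) ^ (r * β)))))
  have hN₁0 : (0 : ℝ) ≤ (⌈N₀⌉₊ : ℝ) ^ r := by positivity
  have hC₀0 := abs_nonneg C₀
  refine ⟨c, |C₀| + (⌈N₀⌉₊ : ℝ) ^ r, hc0, fun Y A => ?_⟩
  -- the bound for fixed data
  obtain ⟨B, hB⟩ : ∃ B : ℕ, r = 1 → (∀ y ∈ Y, (∀ b ∈ y.support, ∀ l, 0 ≤ b l ∧ b l ≤ β) ∧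
      ∃ d, β⁻¹ ≤ d ∧ ∀ b ∈ y.support, ∑ l, b l = d) →
      ∀ n : Fin r → ℕ, (∃ l, B ≤ n l) → ∀ N : ℕ, (∀ l, 1 ≤ n l ∧ n l ≤ N) →
        GdK r k D θ₀ ((N : ℝ) ^ κ) Y A n := by
    by_cases h1 : r = 1
    · subst h1
      by_cases h2 : ∀ y ∈ Y, (∀ b ∈ y.support, ∀ l, 0 ≤ b l ∧ b l ≤ β) ∧
          ∃ d, β⁻¹ ≤ d ∧ ∀ b ∈ y.support, ∑ l, b l = d
      · obtain ⟨n₀, hn₀⟩ := fixK k D β θ₀ κ hβ hθ₀0 hθ₀β hκ Y A h2
        refine ⟨n₀, fun _ _ n hn N hnN => ?_⟩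
        obtain ⟨l, hl⟩ := hn
        rw [Subsingleton.elim l 0] at hl
        intro y d hinj hy P hP0 hPD hPA m hm
        obtain ⟨h3, h4⟩ := hn₀ n hl (fun l => (hnN l).1) y d hinj hy P hP0 hPD hPA m hm
        refine ⟨h3, fun α => (h4 α).trans (mul_le_mul_of_nonneg_right ?_ (norm_nonneg _))⟩
        exact Real.rpow_le_rpow (Nat.cast_nonneg _) (by exact_mod_cast (hnN 0).2) hκ.le
      · exact ⟨0, fun _ h => absurd h h2⟩
    · exact ⟨0, fun h => absurd h h1⟩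
  refine ⟨B, fun N hN hYc hAc hadm hsep => ?_⟩
  have hNpos : (0 : ℝ) < N := by exact_mod_cast (by omega : 0 < N)
  have hN1 : (1 : ℝ) ≤ N := by exact_mod_cast hN
  have hNc : 1 ≤ (N : ℝ) ^ ((r : ℝ) - c) := Real.one_le_rpow hN1 (by linarith)
  -- an exceptional set with the uniform bound
  obtain ⟨E, hEcard, hE⟩ : ∃ E : Finset (Fin r → ℕ),
      (E.card : ℝ) ≤ (|C₀| + (⌈N₀⌉₊ : ℝ) ^ r) * (N : ℝ) ^ ((r : ℝ) - c) ∧
      ∀ n : Fin r → ℕ, (∀ l, 1 ≤ n l ∧ n l ≤ N) → n ∉ E → GdK r k D θ₀ ((N : ℝ) ^ κ) Y A n := by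
    rcases lt_or_ge N ⌈N₀⌉₊ with hlt | hge
    · refine ⟨Fintype.piFinset fun _ => Finset.Icc 1 N, ?_, fun n h2 h3 => ?_⟩
      · rw [Fintype.card_piFinset, Finset.prod_const, Finset.card_univ, Fintype.card_fin, Nat.card_Icc,
          Nat.add_sub_cancel]
        push_cast
        have h1 : (N : ℝ) ^ r ≤ (⌈N₀⌉₊ : ℝ) ^ r :=
          pow_le_pow_left₀ hNpos.le (by exact_mod_cast hlt.le) _
        have h3 : (|C₀| + (⌈N₀⌉₊ : ℝ) ^ r) * 1 ≤
            (|C₀| + (⌈N₀⌉₊ : ℝ) ^ r) * (N : ℝ) ^ ((r : ℝ) - c) :=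
          mul_le_mul_of_nonneg_left hNc (by linarith)
        linarith
      · exact absurd (Fintype.mem_piFinset.2 fun l => Finset.mem_Icc.2 (h2 l)) h3
    · have hNN₀ : N₀ ≤ N := (Nat.le_ceil _).trans (by exact_mod_cast hge)
      obtain ⟨hNy, hNr⟩ := hN₀ N hNN₀
      obtain ⟨E₁, hE₁card, hE₁⟩ := hmain N hN Y A
        ⟨hYc, hAc, fun y hy => ⟨(hadm y hy).1, fun b hb => ((hadm y hy).2.1 b hb).1,
          fun b hb => ((hadm y hy).2.1 b hb).2, (hadm y hy).2.2⟩,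
          fun y hy y' hy' => ⟨(hsep y hy y' hy').1, (hsep y hy y' hy').2⟩⟩
      refine ⟨E₁, ?_, ?_⟩
      · have h2 : C₀ * (N : ℝ) ^ ((r : ℝ) - c) ≤ |C₀| * (N : ℝ) ^ ((r : ℝ) - c) :=
          mul_le_mul_of_nonneg_right (le_abs_self _) (by linarith)
        have h4 : 0 ≤ (⌈N₀⌉₊ : ℝ) ^ r * (N : ℝ) ^ ((r : ℝ) - c) := mul_nonneg hN₁0 (by linarith)
        linarith
      · intro n hn hnE y d hinj hy P hP0 hPD hPA m hm
        have hn1 : ∀ l, 1 ≤ n l := fun l => (hn l).1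
        have hev := fun i => evr_log (y i) hn1
        have hpos : ∀ i, 0 < evr (y i) fun l => Real.log (n l) := fun i => by rw [hev i]; exact (hm i).1
        obtain ⟨h1, h2⟩ := hE₁ n hn hnE y hinj (fun i => (hy i).1) hpos
        have hS1 : (1 : ℝ) ≤ ∑ l, (n l : ℝ) := by
          calc (1 : ℝ) ≤ n ⟨0, hr⟩ := by exact_mod_cast hn1 _
            _ ≤ _ := Finset.single_le_sum (f := fun l => (n l : ℝ)) (fun l _ => Nat.cast_nonneg _)
              (Finset.mem_univ _)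
        have hSN : ∑ l, (n l : ℝ) ≤ r * N := by
          calc ∑ l, (n l : ℝ) ≤ ∑ _l : Fin r, (N : ℝ) :=
                Finset.sum_le_sum fun l _ => by exact_mod_cast (hn l).2
            _ = _ := by rw [Finset.sum_const, Finset.card_univ, Fintype.card_fin, nsmul_eq_mul]
        have hi : ∀ i, |(zeroCount (ordinate (m i)) : ℝ) - evr (y i) fun l => Real.log (n l)| ≤
            (evr (y i) fun l => Real.log (n l)) ^ (1 - θ') ∧ 1 ≤ ordinate (m i) := by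
          intro i
          obtain ⟨d', hd1, hd2⟩ := (hadm _ (hy i).1).2.2
          have hdd : d' = d i := Hom.unique hd2 (hy i).2 (hpos i)
          rw [hdd] at hd1
          have hne : (y i).support.Nonempty := by
            rw [Finset.nonempty_iff_ne_empty]
            intro h0
            have h3 := hpos i
            unfold evr at h3
            rw [h0, Finset.sum_empty] at h3
            exact lt_irrefl _ h3
          obtain ⟨b, hb⟩ := hne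
          have hd3 : d i ≤ r * β := by
            rw [← (hy i).2 b hb]
            calc ∑ l, b l ≤ ∑ _l : Fin r, β :=
                  Finset.sum_le_sum fun l _ => (((hadm _ (hy i).1).2.1 b hb).1 l).2
              _ = _ := by rw [Finset.sum_const, Finset.card_univ, Fintype.card_fin, nsmul_eq_mul]
          have hlow := h1 i (d i) (hy i).2
          refine hwin _ (hNy.trans (le_trans ?_ hlow)) _ ?_
          · refine Real.rpow_le_rpow_of_exponent_le hN1 ?_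
            have h5 : β⁻¹ = 4 * (1 / (4 * β)) := by field_simp
            have h6 : 1 / (2 * β) = 2 * (1 / (4 * β)) := by field_simp; norm_num
            linarith
          · have h4 := (hm i).2
            rw [← hev i] at h4
            exact h4.trans (winK hr hβ hθ₀0 hθ₀β hN1 hNr hd1 hd3 hS1 hSN hlow)
        have h4 := h2 P hP0 hPD hPA (fun i => ordinate (m i)) (fun i => (hi i).1)
        refine ⟨h4.1, fun α => ?_⟩
        have h5 := h4.2 α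
        have h7 : ∀ i, |ordinate (m i)| = ordinate (m i) := fun i => abs_of_nonneg (by linarith [(hi i).2])
        simp only [h7] at h5
        exact h5
  by_cases h1 : r = 1
  · refine ⟨E.filter (fun n => ∀ l, n l < B), ?_, fun _ n hn l => ?_, ?_⟩
    · exact le_trans (by exact_mod_cast Finset.card_filter_le _ _) hEcard
    · exact ((Finset.mem_filter.1 hn).2 l).le
    · intro n hn hnE
      refine hGd _ Y A n (fun l => (hn l).1) ?_
      by_cases h3 : ∃ l, B ≤ n l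
      · exact hB h1 (fun y hy => ⟨fun b hb => ((hadm y hy).2.1 b hb).1, (hadm y hy).2.2⟩) n h3 N hn
      · push Not at h3
        exact hE n hn fun h4 => hnE (Finset.mem_filter.2 ⟨h4, h3⟩)
  · exact ⟨E, hEcard, fun h => absurd h h1, fun n hn hnE => hGd _ Y A n (fun l => (hn l).1) (hE n hn hnE)⟩

end Pool.Agent.Lib.MP_ec260d_ntK
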